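import Mathlib
import Pool.Agent.Lib.MP_938ce2_ag_u5.TwoNum

/-!
The cosine on the circle `ℝ / ℤ`.
-/

set_option autoImplicit false
set_option linter.unusedSectionVars false

namespace Pool.Agent.Lib.MP_938ce2_ag_u6

open Finset Real
open Pool.Agent.Lib.MP_938ce2_ag_u5 (abs_cos_le_of_dist)

/-- the additive character of the circle -/
noncomputable def e1 : AddChar UnitAddCircle ℂ :=
  Circle.coeHom.compAddChar AddCircle.toCircle_addChar

/-- the cosine of `2πt` -/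
noncomputable def cr (t : UnitAddCircle) : ℝ := (e1 t).re

lemma e1_coe (x : ℝ) : e1 (x : UnitAddCircle) = Complex.exp ((2 * π * x : ℝ) * Complex.I) := by
  show ((AddCircle.toCircle (x : UnitAddCircle) : Circle) : ℂ) = _
  rw [AddCircle.toCircle_apply_mk, Circle.coe_exp]
  simp

lemma cr_coe (x : ℝ) : cr (x : UnitAddCircle) = cos (2 * π * x) := by
  unfold cr
  rw [e1_coe, Complex.exp_ofReal_mul_I_re]

lemma e1_add_neg (t : UnitAddCircle) : e1 t + e1 (-t) = ((2 * cr t : ℝ) : ℂ) := by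
  obtain ⟨x, rfl⟩ := QuotientAddGroup.mk_surjective t
  have h1 : (QuotientAddGroup.mk x : UnitAddCircle) = (x : UnitAddCircle) := rfl
  rw [h1, ← AddCircle.coe_neg, e1_coe, e1_coe, cr_coe]
  have h2 := Complex.two_cos ((2 * π * x : ℝ) : ℂ)
  rw [← Complex.ofReal_cos] at h2
  push_cast at h2 ⊢
  rw [h2]
  congr 2
  ring

lemma cr_neg (t : UnitAddCircle) : cr (-t) = cr t := by
  have h1 := e1_add_neg t
  have h2 := e1_add_neg (-t)
  rw [neg_neg, add_comm, h1] at h2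
  have h3 : (2 * cr t : ℝ) = 2 * cr (-t) := by exact_mod_cast h2
  linarith

lemma cr_zero : cr 0 = 1 := by
  unfold cr
  rw [AddChar.map_zero_eq_one]
  rfl

lemma abs_cr_le_one (t : UnitAddCircle) : |cr t| ≤ 1 := by
  obtain ⟨x, rfl⟩ := QuotientAddGroup.mk_surjective t
  have h1 : (QuotientAddGroup.mk x : UnitAddCircle) = (x : UnitAddCircle) := rfl
  rw [h1, cr_coe]
  exact Real.abs_cos_le_one _

lemma norm_le_half (t : UnitAddCircle) : ‖t‖ ≤ 1 / 2 := by
  have h1 := AddCircle.norm_le_half_period (p := 1) (x := t) one_ne_zero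
  rw [abs_one] at h1
  exact h1

/-- a representative -/
lemma exists_rep (t : UnitAddCircle) : ∃ x : ℝ, (x : UnitAddCircle) = t ∧ |x| = ‖t‖ := by
  obtain ⟨y, rfl⟩ := QuotientAddGroup.mk_surjective t
  refine ⟨y - round y, ?_, ?_⟩
  · rw [AddCircle.coe_sub]
    have h2 : ((round y : ℝ) : UnitAddCircle) = 0 := by
      rw [AddCircle.coe_eq_zero_iff]
      exact ⟨round y, by simp⟩
    rw [h2, sub_zero]
  · exact UnitAddCircle.norm_eq.symm

lemma abs_cr_le (t : UnitAddCircle) : |cr t| ≤ exp (-(2 * ‖(2 : ℕ) • t‖ ^ 2)) := by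
  obtain ⟨y, rfl⟩ := QuotientAddGroup.mk_surjective t
  have h1 : (QuotientAddGroup.mk y : UnitAddCircle) = (y : UnitAddCircle) := rfl
  rw [h1, cr_coe, ← AddCircle.coe_nsmul]
  have h2 : 2 * π * y = π * ((2 : ℕ) • y) := by
    rw [nsmul_eq_mul]
    push_cast
    ring
  rw [h2]
  refine abs_cos_le_of_dist _ _ (norm_nonneg _) fun k => ?_
  have h3 : ((((2 : ℕ) • y : ℝ)) : UnitAddCircle) = (((2 : ℕ) • y - k : ℝ) : UnitAddCircle) := by
    rw [AddCircle.coe_sub]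
    have h2 : ((k : ℝ) : UnitAddCircle) = 0 := by
      rw [AddCircle.coe_eq_zero_iff]
      exact ⟨k, by simp⟩
    rw [h2, sub_zero]
  rw [h3, UnitAddCircle.norm_eq]
  exact round_le _ 0 |>.trans (by simp)

lemma one_sub_cr_le (t : UnitAddCircle) : 1 - cr t ≤ 2 * π ^ 2 * ‖t‖ ^ 2 := by
  obtain ⟨x, rfl, hx⟩ := exists_rep t
  rw [cr_coe, ← hx, sq_abs]
  have h1 := Real.one_sub_sq_div_two_le_cos (x := 2 * π * x)
  nlinarith

lemma le_one_sub_cr (t : UnitAddCircle) : 8 * ‖t‖ ^ 2 ≤ 1 - cr t := by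
  obtain ⟨x, rfl, hx⟩ := exists_rep t
  have h0 := norm_le_half (x : UnitAddCircle)
  rw [cr_coe, ← hx]
  rw [← hx] at h0
  have h1 : cos (2 * π * x) = cos (2 * π * |x|) := by
    rcases abs_cases x with ⟨h5, -⟩ | ⟨h5, -⟩
    · rw [h5]
    · rw [h5, mul_neg, Real.cos_neg]
  rw [h1]
  have h2 : cos (2 * π * |x|) = 1 - 2 * sin (π * |x|) ^ 2 := by
    have h3 : 2 * π * |x| = 2 * (π * |x|) := by ring
    rw [h3, Real.cos_two_mul, Real.cos_sq']
    ring
  have h4 : 2 * |x| ≤ sin (π * |x|) := by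
    have h5 := Real.mul_le_sin (x := π * |x|) (by positivity) (by nlinarith [Real.pi_pos])
    have h6 : 2 / π * (π * |x|) = 2 * |x| := by field_simp
    rwa [h6] at h5
  have h5 : (2 * |x|) ^ 2 ≤ sin (π * |x|) ^ 2 := pow_le_pow_left₀ (by positivity) h4 2
  rw [h2]
  nlinarith

/-- the Gaussian is dominated by the characteristic function of a sparse sign -/
lemma exp_le_sparse (t : UnitAddCircle) (u κ : ℝ) (hu0 : 0 ≤ u) (hu : u ≤ 1) (hκ0 : 0 ≤ κ)
    (hκ : 4 * π ^ 2 * κ ≤ u) : exp (-(u * ‖t‖ ^ 2)) ≤ 1 - κ + κ * cr t := by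
  have h1 := one_sub_cr_le t
  have h2 := norm_le_half t
  have h3 := norm_nonneg t
  have h4 : ‖t‖ ^ 2 ≤ 1 := by nlinarith
  set z := u * ‖t‖ ^ 2 with hz
  have hz0 : 0 ≤ z := by positivity
  have hz1 : z ≤ 1 := by
    rw [hz]
    nlinarith [sq_nonneg ‖t‖]
  have h5 : exp (-z) ≤ 1 - z / 2 := by
    have h6 : exp (-z) = (exp z)⁻¹ := Real.exp_neg z
    have h7 := Real.add_one_le_exp z
    have h8 : (exp z)⁻¹ ≤ (z + 1)⁻¹ := inv_anti₀ (by linarith) h7
    have h9 : (z + 1)⁻¹ ≤ 1 - z / 2 := by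
      rw [inv_le_iff_one_le_mul₀ (by linarith)]
      nlinarith
    linarith
  have h6 : κ * (1 - cr t) ≤ z / 2 := by
    calc κ * (1 - cr t) ≤ κ * (2 * π ^ 2 * ‖t‖ ^ 2) := mul_le_mul_of_nonneg_left h1 hκ0
      _ = (4 * π ^ 2 * κ) * ‖t‖ ^ 2 / 2 := by ring
      _ ≤ u * ‖t‖ ^ 2 / 2 := by
          apply div_le_div_of_nonneg_right _ (by norm_num)
          exact mul_le_mul_of_nonneg_right hκ (sq_nonneg _)
  linarith

end Pool.Agent.Lib.MP_938ce2_ag_u6
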