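import Mathlib
import Pool.Agent.Lib.MP_938ce2_ag_u5.TwoCode
import Pool.Agent.Lib.MP_938ce2_ag_u6.Circ

/-!
The chain inequality for one prime.
-/

set_option autoImplicit false
set_option linter.unusedSectionVars false

namespace Pool.Agent.Lib.MP_938ce2_ag_u6

open Finset Real Module
open Pool.Agent.Lib.MP_938ce2_ag_u5 (sum_zmod sum_code_gen)

section Num

/-- the sum of a Gaussian over the residues, precise form -/
theorem gauss_fine {q : ℕ} [Fact q.Prime] (β N : ℝ) (hN : 1 ≤ N) (hβ : log (9 * N) ≤ β) :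
    ∑ w : ZMod q, exp (-(β * (w.valMinAbs : ℝ) ^ 2)) ≤ 1 + 1 / (4 * N) := by
  have hq0 : 0 < q := (Fact.out : q.Prime).pos
  set r := exp (-β) with hr
  have hr0 : 0 < r := exp_pos _
  have hr1 : r ≤ 1 / (9 * N) := by
    have h1 : exp (-β) ≤ exp (-(log (9 * N))) := exp_le_exp.mpr (by linarith)
    have h2 : exp (-(log (9 * N))) = 1 / (9 * N) := by
      rw [Real.exp_neg, Real.exp_log (by linarith), one_div]
    rw [hr, ← h2]
    exact h1
  have hr9 : r ≤ 1 / 9 := by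
    refine hr1.trans ?_
    apply one_div_le_one_div_of_le (by norm_num)
    linarith
  have hβ0 : 0 ≤ β := le_trans (Real.log_nonneg (by linarith)) hβ
  let F : ℕ → ℝ := fun k => if k = 0 then 1 else r ^ k + r ^ (q - k)
  have h1 : ∀ w : ZMod q, exp (-(β * (w.valMinAbs : ℝ) ^ 2)) ≤ F w.val := by
    intro w
    by_cases h0 : w.val = 0
    · have h2 : F w.val = 1 := if_pos h0
      rw [h2, Real.exp_le_one_iff, neg_nonpos]
      positivity
    · have h2 : F w.val = r ^ w.val + r ^ (q - w.val) := if_neg h0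
      have h3 : (w.valMinAbs : ℝ) ^ 2 = ((min w.val (q - w.val) : ℕ) : ℝ) ^ 2 := by
        rw [← ZMod.valMinAbs_natAbs_eq_min, ← sq_abs, ← Int.cast_abs, Int.abs_eq_natAbs]
        rfl
      have h4 : ∀ k : ℕ, exp (-(β * (k : ℝ) ^ 2)) ≤ r ^ k := by
        intro k
        rw [hr, ← Real.exp_nat_mul]
        apply exp_le_exp.mpr
        have h5 : (k : ℝ) ≤ (k : ℝ) ^ 2 := by
          rcases Nat.eq_zero_or_pos k with h | h
          · subst h
            norm_num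
          · have h6 : (1 : ℝ) ≤ k := by exact_mod_cast h
            nlinarith
        nlinarith
      rw [h2, h3]
      rcases min_choice w.val (q - w.val) with h | h
      · rw [h]
        exact (h4 _).trans (le_add_of_nonneg_right (by positivity))
      · rw [h]
        exact (h4 _).trans (le_add_of_nonneg_left (by positivity))
  refine (Finset.sum_le_sum fun w _ => h1 w).trans ?_
  rw [sum_zmod (q := q) F]
  obtain ⟨k, hk⟩ := Nat.exists_eq_succ_of_ne_zero hq0.ne'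
  rw [hk, Finset.sum_range_succ']
  have h2 : F 0 = 1 := if_pos rfl
  have h3 : ∀ i ∈ range k, F (i + 1) = r * r ^ i + r * r ^ (k - 1 - i) := by
    intro i hi
    have hi' := Finset.mem_range.mp hi
    have h4 : F (i + 1) = r ^ (i + 1) + r ^ (q - (i + 1)) := if_neg (by omega)
    rw [h4, ← pow_succ', ← pow_succ']
    congr 2
    omega
  have h4 : ∑ i ∈ range k, r ^ i ≤ 1 / (1 - r) := by
    have h5 := geom_sum_eq (by linarith : r ≠ 1) k
    rw [h5]
    have h6 : (r ^ k - 1) / (r - 1) = (1 - r ^ k) / (1 - r) := by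
      rw [← neg_sub, ← neg_sub 1 r, neg_div_neg_eq]
    rw [h6]
    apply div_le_div_of_nonneg_right _ (by linarith)
    have : 0 < r ^ k := by positivity
    linarith
  have h5 : ∑ i ∈ range k, r ^ (k - 1 - i) = ∑ i ∈ range k, r ^ i :=
    Finset.sum_range_reflect (fun i => r ^ i) k
  rw [h2, Finset.sum_congr rfl h3, Finset.sum_add_distrib, ← Finset.mul_sum, ← Finset.mul_sum, h5]
  have h6 : r * (1 / (1 - r)) ≤ 1 / (8 * N) := by
    rw [mul_one_div, div_le_div_iff₀ (by linarith) (by linarith), one_mul]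
    have h7 : r * (9 * N) ≤ 1 := by
      rw [le_div_iff₀ (by linarith)] at hr1
      exact hr1
    nlinarith
  have h7 : r * ∑ i ∈ range k, r ^ i ≤ r * (1 / (1 - r)) := mul_le_mul_of_nonneg_left h4 hr0.le
  have h8 : 1 / (4 * N) = 1 / (8 * N) + 1 / (8 * N) := by
    field_simp
    ring
  linarith

lemma norm_toAddCircle {q : ℕ} [NeZero q] (t : ZMod q) :
    ‖ZMod.toAddCircle t‖ = |(t.valMinAbs : ℝ)| / q := by
  have hq0 : (0 : ℝ) < q := by exact_mod_cast Nat.pos_of_ne_zero (NeZero.ne q)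
  have h1 : ZMod.toAddCircle t = (((t.valMinAbs : ℝ) / q : ℝ) : UnitAddCircle) := by
    have h2 := ZMod.toAddCircle_intCast (N := q) t.valMinAbs
    rw [ZMod.coe_valMinAbs] at h2
    rw [h2]
  have h3 : |(t.valMinAbs : ℝ) / q| = |(t.valMinAbs : ℝ)| / q := by
    rw [abs_div, abs_of_pos hq0]
  rw [h1, ← h3]
  apply (AddCircle.norm_coe_eq_abs_iff (p := (1 : ℝ)) one_ne_zero).mpr
  rw [h3, abs_one, div_le_iff₀ hq0]
  have h4 := ZMod.natAbs_valMinAbs_le t
  have h5 : |(t.valMinAbs : ℝ)| = (t.valMinAbs.natAbs : ℝ) := by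
    rw [← Int.cast_abs, Int.abs_eq_natAbs]
    rfl
  rw [h5]
  have h6 : 2 * t.valMinAbs.natAbs ≤ q := by omega
  have h7 : (2 : ℝ) * (t.valMinAbs.natAbs : ℝ) ≤ q := by exact_mod_cast h6
  linarith

end Num

section Chain

variable {P : Type} [Group P] [Fintype P] {Ω : Type} [Fintype Ω] [MulAction P Ω]
  [MulAction.IsPretransitive P Ω] {q : ℕ} [Fact q.Prime]

/-- the product of the cosines -/
noncomputable def FF (Θ : Ω → UnitAddCircle) (y : Ω → ZMod q) : ℝ :=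
  ∏ x, |cr (ZMod.toAddCircle (y x) + Θ x)| ^ (1 / 2 : ℝ)

lemma FF_nonneg (Θ : Ω → UnitAddCircle) (y : Ω → ZMod q) : 0 ≤ FF Θ y :=
  Finset.prod_nonneg fun _ _ => Real.rpow_nonneg (abs_nonneg _) _

lemma factor_le (t : UnitAddCircle) : |cr t| ^ (1 / 2 : ℝ) ≤ exp (-(‖(2 : ℕ) • t‖ ^ 2)) := by
  have h1 := Real.rpow_le_rpow (abs_nonneg _) (abs_cr_le t) (by norm_num : (0 : ℝ) ≤ 1 / 2)
  rw [← Real.exp_mul] at h1
  refine h1.trans (le_of_eq ?_)
  congr 1
  ring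

lemma FF_le (Θ : Ω → UnitAddCircle) (y : Ω → ZMod q) :
    FF Θ y ≤ exp (-(∑ x, ‖(2 : ℕ) • (ZMod.toAddCircle (y x) + Θ x)‖ ^ 2)) := by
  rw [← Finset.sum_neg_distrib, Real.exp_sum]
  exact Finset.prod_le_prod (fun _ _ => Real.rpow_nonneg (abs_nonneg _) _)
    fun x _ => factor_le _

lemma FF_mul_le (Θ : Ω → UnitAddCircle) (y y' : Ω → ZMod q) :
    FF Θ y * FF Θ y'
      ≤ exp (-(1 / 2 * ∑ x, ‖(2 : ℕ) • ZMod.toAddCircle ((y - y') x)‖ ^ 2)) := by
  refine (mul_le_mul (FF_le Θ y) (FF_le Θ y') (FF_nonneg _ _) (exp_pos _).le).trans ?_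
  rw [← Real.exp_add]
  apply exp_le_exp.mpr
  rw [← neg_add, neg_le_neg_iff, ← Finset.sum_add_distrib, Finset.mul_sum]
  refine Finset.sum_le_sum fun x _ => ?_
  set a := (2 : ℕ) • (ZMod.toAddCircle (y x) + Θ x) with ha
  set b := (2 : ℕ) • (ZMod.toAddCircle (y' x) + Θ x) with hb
  have h1 : (2 : ℕ) • ZMod.toAddCircle ((y - y') x) = a - b := by
    rw [ha, hb, Pi.sub_apply, map_sub, ← smul_sub]
    congr 1
    abel
  rw [h1]
  have h2 := norm_sub_le a b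
  have h3 := norm_nonneg (a - b)
  have h4 := norm_nonneg a
  have h5 := norm_nonneg b
  nlinarith [sq_nonneg (‖a‖ - ‖b‖)]

lemma FF_le_theta (Θ : Ω → UnitAddCircle) (y : Ω → ZMod q) :
    FF Θ y ≤ exp (-(1 / (q : ℝ) ^ 2 * ∑ x, ‖(2 * q : ℕ) • Θ x‖ ^ 2)) := by
  refine (FF_le Θ y).trans ?_
  have hq0 : (0 : ℝ) < q := by exact_mod_cast (Fact.out : q.Prime).pos
  apply exp_le_exp.mpr
  rw [neg_le_neg_iff, Finset.mul_sum]
  refine Finset.sum_le_sum fun x _ => ?_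
  have h1 : (2 * q : ℕ) • Θ x = q • ((2 : ℕ) • (ZMod.toAddCircle (y x) + Θ x)) := by
    have h2 : q • ZMod.toAddCircle (y x) = 0 := by
      rw [← map_nsmul, nsmul_eq_mul, ZMod.natCast_self, zero_mul, map_zero]
    rw [smul_smul, smul_add, mul_comm q 2, mul_smul 2 q (ZMod.toAddCircle (y x)), h2, smul_zero,
      zero_add]
  have h3 : ‖(2 * q : ℕ) • Θ x‖ ≤ q * ‖(2 : ℕ) • (ZMod.toAddCircle (y x) + Θ x)‖ := by
    rw [h1]
    exact norm_nsmul_le
  rw [one_div, inv_mul_le_iff₀ (by positivity), ← mul_pow]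
  exact pow_le_pow_left₀ (norm_nonneg _) h3 2

/-- the sum over a code around a point -/
theorem code_gauss (C : Submodule (ZMod q) (Ω → ZMod q)) [Fintype C] (hq2 : q ≠ 2)
    (hC : ∀ σ : P, ∀ y ∈ C, (fun x => y (σ • x)) ∈ C) (N : ℕ) (hN1 : 1 ≤ N)
    (hN : finrank (ZMod q) C ≤ N)
    (hg : 8 * N * (q : ℝ) ^ 2 * log (9 * N) ≤ Fintype.card Ω) :
    ∑ d : C, exp (-(1 / 8 * ∑ x, ‖(2 : ℕ) • ZMod.toAddCircle ((d : Ω → ZMod q) x)‖ ^ 2)) ≤ 2 := by
  classical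
  have hq0 : (0 : ℝ) < q := by exact_mod_cast (Fact.out : q.Prime).pos
  have hNR : (1 : ℝ) ≤ N := by exact_mod_cast hN1
  rcases Nat.eq_zero_or_pos (finrank (ZMod q) C) with h0 | hpos
  · have h1 : Fintype.card C = 1 := by
      rw [Module.card_eq_pow_finrank (K := ZMod q) (V := C), h0, pow_zero]
    have h2 : ∀ d : C, exp (-(1 / 8 * ∑ x, ‖(2 : ℕ) • ZMod.toAddCircle ((d : Ω → ZMod q) x)‖ ^ 2))
        ≤ 1 := by
      intro d
      rw [Real.exp_le_one_iff, neg_nonpos]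
      positivity
    refine (Finset.sum_le_sum fun d _ => h2 d).trans ?_
    rw [Finset.sum_const, Finset.card_univ, h1]
    norm_num
  · set ν := finrank (ZMod q) C with hν
    have hνR : (0 : ℝ) < ν := by exact_mod_cast hpos
    let h : ZMod q → ℝ := fun t => exp (-(1 / 8 * ‖(2 : ℕ) • ZMod.toAddCircle t‖ ^ 2))
    have hh : ∀ t, 0 < h t := fun t => exp_pos _
    have h1 := sum_code_gen (P := P) h hh C hC hpos 1 one_pos
    have h2 : ∑ y : C, ∏ x, h ((y : Ω → ZMod q) x) ^ (1 : ℝ)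
        = ∑ d : C, exp (-(1 / 8 * ∑ x, ‖(2 : ℕ) • ZMod.toAddCircle ((d : Ω → ZMod q) x)‖ ^ 2)) := by
      refine Finset.sum_congr rfl fun d _ => ?_
      rw [Finset.mul_sum, ← Finset.sum_neg_distrib, Real.exp_sum]
      refine Finset.prod_congr rfl fun x _ => ?_
      rw [Real.rpow_one]
    rw [h2] at h1
    refine h1.trans ?_
    set β : ℝ := (Fintype.card Ω : ℝ) / (8 * ν * (q : ℝ) ^ 2) with hβ
    have h3 : ∀ t : ZMod q, h t ^ (1 * (Fintype.card Ω : ℝ) / ν)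
        = exp (-(β * ((2 * t).valMinAbs : ℝ) ^ 2)) := by
      intro t
      have h4 : (2 : ℕ) • ZMod.toAddCircle t = ZMod.toAddCircle (2 * t) := by
        rw [← map_nsmul, nsmul_eq_mul, Nat.cast_ofNat]
      show (exp (-(1 / 8 * ‖(2 : ℕ) • ZMod.toAddCircle t‖ ^ 2))) ^ _ = _
      rw [h4, norm_toAddCircle, ← Real.exp_mul, div_pow, sq_abs, hβ]
      congr 1
      field_simp
    rw [Finset.sum_congr rfl fun t _ => h3 t]
    have h2q : (2 : ZMod q) ≠ 0 := Pool.Agent.Lib.MP_938ce2_ag_u5.two_ne_zero_of_odd hq2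
    have h4 : ∑ t : ZMod q, exp (-(β * ((2 * t).valMinAbs : ℝ) ^ 2))
        = ∑ w : ZMod q, exp (-(β * (w.valMinAbs : ℝ) ^ 2)) :=
      Fintype.sum_equiv (Equiv.mulLeft₀ (2 : ZMod q) h2q) _ _ fun v => rfl
    rw [h4]
    have hlog : 0 ≤ log (9 * N) := Real.log_nonneg (by linarith)
    have hβ1 : log (9 * N) ≤ β := by
      rw [hβ, le_div_iff₀ (by positivity)]
      refine le_trans ?_ hg
      have h5 : (ν : ℝ) ≤ N := by exact_mod_cast hN
      have h6 : log (9 * N) * (8 * ν * (q : ℝ) ^ 2) = 8 * ν * (q : ℝ) ^ 2 * log (9 * N) := by ring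
      rw [h6]
      apply mul_le_mul_of_nonneg_right _ hlog
      apply mul_le_mul_of_nonneg_right _ (by positivity)
      linarith
    have h5 := gauss_fine (q := q) β N hNR hβ1
    have h6 : 0 ≤ ∑ w : ZMod q, exp (-(β * (w.valMinAbs : ℝ) ^ 2)) :=
      Finset.sum_nonneg fun _ _ => (exp_pos _).le
    refine (pow_le_pow_left₀ h6 h5 ν).trans ?_
    have h7 : 1 + 1 / (4 * (N : ℝ)) ≤ exp (1 / (4 * N)) := by
      have := Real.add_one_le_exp (1 / (4 * (N : ℝ)))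
      linarith
    refine (pow_le_pow_left₀ (by positivity) h7 ν).trans ?_
    rw [← Real.exp_nat_mul]
    have h8 : (ν : ℝ) * (1 / (4 * N)) ≤ 1 / 4 := by
      rw [mul_one_div, div_le_div_iff₀ (by positivity) (by norm_num)]
      have h9 : (ν : ℝ) ≤ N := by exact_mod_cast hN
      linarith
    refine (exp_le_exp.mpr h8).trans ?_
    have h9 : exp (1 / 4 : ℝ) ^ 4 = exp 1 := by
      rw [← Real.exp_nat_mul]
      norm_num
    have h10 := Real.exp_one_lt_d9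
    by_contra hcon
    push Not at hcon
    have h11 : (2 : ℝ) ^ 4 < exp (1 / 4 : ℝ) ^ 4 := pow_lt_pow_left₀ hcon (by norm_num) (by norm_num)
    rw [h9] at h11
    linarith

/-- the chain inequality -/
theorem chain_ineq (C : Submodule (ZMod q) (Ω → ZMod q)) [Fintype C] (hq2 : q ≠ 2)
    (hC : ∀ σ : P, ∀ y ∈ C, (fun x => y (σ • x)) ∈ C) (N : ℕ) (hN1 : 1 ≤ N)
    (hN : finrank (ZMod q) C ≤ N)
    (hg : 8 * N * (q : ℝ) ^ 2 * log (9 * N) ≤ Fintype.card Ω) (Θ : Ω → UnitAddCircle) (κ : ℝ)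
    (hκ0 : 0 ≤ κ) (hκ : 8 * π ^ 2 * κ * (q : ℝ) ^ 2 ≤ 1) :
    ∑ y : C, FF Θ (y : Ω → ZMod q) ≤ 2 * ∏ x, (1 - κ + κ * cr ((2 * q : ℕ) • Θ x)) := by
  classical
  have hq0 : (0 : ℝ) < q := by exact_mod_cast (Fact.out : q.Prime).pos
  have hq1 : (1 : ℝ) ≤ q := by exact_mod_cast (Fact.out : q.Prime).one_le
  obtain ⟨y₀, h0⟩ := Finite.exists_max (fun y : C => FF Θ (y : Ω → ZMod q))
  set S := ∑ x, ‖(2 * q : ℕ) • Θ x‖ ^ 2 with hS
  have h1 : ∀ y : C, FF Θ (y : Ω → ZMod q) ≤ exp (-(1 / (2 * (q : ℝ) ^ 2) * S))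
      * exp (-(1 / 8 * ∑ x, ‖(2 : ℕ) • ZMod.toAddCircle (((y - y₀ : C) : Ω → ZMod q) x)‖ ^ 2)) := by
    intro y
    have h2 := FF_nonneg Θ (y : Ω → ZMod q)
    have h3 := FF_mul_le Θ (y : Ω → ZMod q) (y₀ : Ω → ZMod q)
    have h4 := FF_le_theta Θ (y : Ω → ZMod q)
    rw [← hS] at h4
    set T := ∑ x, ‖(2 : ℕ) • ZMod.toAddCircle (((y : Ω → ZMod q) - y₀) x)‖ ^ 2 with hT
    have h5 : FF Θ (y : Ω → ZMod q) ^ 2 ≤ exp (-(1 / 4 * T)) ^ 2 := by
      have h6 : exp (-(1 / 4 * T)) ^ 2 = exp (-(1 / 2 * T)) := by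
        rw [← Real.exp_nat_mul]
        congr 1
        push_cast
        ring
      rw [h6, sq]
      exact (mul_le_mul_of_nonneg_left (h0 y) h2).trans h3
    have h6 : FF Θ (y : Ω → ZMod q) ≤ exp (-(1 / 4 * T)) := le_of_sq_le_sq h5 (exp_pos _).le
    refine le_of_sq_le_sq ?_ (mul_nonneg (exp_pos _).le (exp_pos _).le)
    have h7 : (exp (-(1 / (2 * (q : ℝ) ^ 2) * S)) * exp (-(1 / 8 * T))) ^ 2
        = exp (-(1 / (q : ℝ) ^ 2 * S)) * exp (-(1 / 4 * T)) := by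
      rw [mul_pow, ← Real.exp_nat_mul, ← Real.exp_nat_mul]
      congr 1
      · congr 1
        push_cast
        field_simp
      · congr 1
        push_cast
        ring
    have h8 : ((y - y₀ : C) : Ω → ZMod q) = (y : Ω → ZMod q) - y₀ := rfl
    rw [h8, ← hT, h7, sq]
    exact mul_le_mul h4 h6 h2 (exp_pos _).le
  have h2 : ∑ y : C, exp (-(1 / 8 * ∑ x,
      ‖(2 : ℕ) • ZMod.toAddCircle (((y - y₀ : C) : Ω → ZMod q) x)‖ ^ 2)) ≤ 2 := by
    have h3 := code_gauss C hq2 hC N hN1 hN hg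
    refine le_trans (le_of_eq ?_) h3
    exact Fintype.sum_equiv (Equiv.subRight y₀) _ _ fun y => rfl
  have h3 : exp (-(1 / (2 * (q : ℝ) ^ 2) * S)) ≤ ∏ x, (1 - κ + κ * cr ((2 * q : ℕ) • Θ x)) := by
    rw [hS, Finset.mul_sum, ← Finset.sum_neg_distrib, Real.exp_sum]
    refine Finset.prod_le_prod (fun _ _ => (exp_pos _).le) fun x _ => ?_
    refine exp_le_sparse _ _ κ (by positivity) ?_ hκ0 ?_
    · rw [div_le_one (by positivity)]
      nlinarith
    · rw [le_div_iff₀ (by positivity)]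
      nlinarith
  calc ∑ y : C, FF Θ (y : Ω → ZMod q) ≤ ∑ y : C, exp (-(1 / (2 * (q : ℝ) ^ 2) * S))
      * exp (-(1 / 8 * ∑ x, ‖(2 : ℕ) • ZMod.toAddCircle (((y - y₀ : C) : Ω → ZMod q) x)‖ ^ 2)) :=
        Finset.sum_le_sum fun y _ => h1 y
    _ = exp (-(1 / (2 * (q : ℝ) ^ 2) * S)) * ∑ y : C, exp (-(1 / 8 * ∑ x,
      ‖(2 : ℕ) • ZMod.toAddCircle (((y - y₀ : C) : Ω → ZMod q) x)‖ ^ 2)) :=
        (Finset.mul_sum _ _ _).symm
    _ ≤ exp (-(1 / (2 * (q : ℝ) ^ 2) * S)) * 2 := mul_le_mul_of_nonneg_left h2 (exp_pos _).le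
    _ ≤ (∏ x, (1 - κ + κ * cr ((2 * q : ℕ) • Θ x))) * 2 :=
        mul_le_mul_of_nonneg_right h3 (by norm_num)
    _ = _ := mul_comm _ _

end Chain

end Pool.Agent.Lib.MP_938ce2_ag_u6
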