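import Mathlib
import Pool.Agent.Lib.MP_938ce2_ag_h67.Cos
import Pool.Agent.Lib.MP_938ce2_ag_u6.Circ

/-!
Random weights orthogonal to a finite group of functions with values in the circle.
-/

set_option autoImplicit false
set_option linter.unusedSectionVars false

namespace Pool.Agent.Lib.MP_938ce2_ag_u6

open Finset Real
open Pool.Agent.Lib.MP_938ce2_ag_h67 (sg)

section Gen

variable {A : Type} [AddCommGroup A] [Fintype A] {Ω : Type} [Fintype Ω] [DecidableEq Ω]

open Classical in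
/-- the sum of the values of the characters -/
lemma sum_char_circ (φ : A →+ UnitAddCircle) :
    ∑ a, (e1 (φ a) : ℂ) = if (∀ a, φ a = 0) then (Fintype.card A : ℂ) else 0 := by
  let χ : AddChar A ℂ := e1.compAddMonoidHom φ
  have h1 : ∑ a, χ a = if χ = 0 then (Fintype.card A : ℂ) else 0 := AddChar.sum_eq_ite _
  have h2 : χ = 0 ↔ ∀ a, φ a = 0 := by
    constructor
    · intro h a
      have h3 : χ a = 1 := by rw [h]; rfl
      have h4 : ((AddCircle.toCircle (φ a) : Circle) : ℂ) = 1 := h3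
      have h5 : AddCircle.toCircle (φ a) = AddCircle.toCircle (0 : UnitAddCircle) := by
        rw [AddCircle.toCircle_zero]
        exact Circle.coe_injective (by rw [h4]; rfl)
      exact AddCircle.injective_toCircle one_ne_zero h5
    · intro h
      ext a
      show e1 (φ a) = 1
      rw [h a, AddChar.map_zero_eq_one]
  have h3 : ∑ a, (e1 (φ a) : ℂ) = ∑ a, χ a := rfl
  rw [h3, h1]
  by_cases h4 : χ = 0
  · rw [if_pos h4, if_pos (h2.mp h4)]
  · rw [if_neg h4, if_neg (fun h => h4 (h2.mpr h))]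

/-- pairing of a weight with the functions -/
def pr (θ : A →+ (Ω → UnitAddCircle)) (w : Ω → ℤ) : A →+ UnitAddCircle where
  toFun a := ∑ x, w x • θ a x
  map_zero' := by simp
  map_add' a b := by
    simp only [map_add, Pi.add_apply, smul_add, Finset.sum_add_distrib]

lemma pr_apply (θ : A →+ (Ω → UnitAddCircle)) (w : Ω → ℤ) (a : A) :
    pr θ w a = ∑ x, w x • θ a x := rfl

lemma e1_sum {I : Type} (s : Finset I) (f : I → UnitAddCircle) :
    e1 (∑ i ∈ s, f i) = ∏ i ∈ s, e1 (f i) := by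
  classical
  induction s using Finset.induction_on with
  | empty => simp
  | insert i s hi ih => rw [Finset.sum_insert hi, Finset.prod_insert hi, AddChar.map_add_eq_mul, ih]

open Classical in
/-- signs -/
theorem card_sign (θ : A →+ (Ω → UnitAddCircle)) :
    ((univ.filter fun η : Finset Ω => ∀ a, ∑ x, sg η x • θ a x = 0).card : ℝ) * Fintype.card A
      = 2 ^ Fintype.card Ω * ∑ a, ∏ x, cr (θ a x) := by
  have h1 : ((univ.filter fun η : Finset Ω => ∀ a, ∑ x, sg η x • θ a x = 0).card : ℂ)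
      * Fintype.card A = ∑ η : Finset Ω, ∑ a, (e1 (pr θ (sg η) a) : ℂ) := by
    rw [Finset.sum_congr rfl fun η _ => sum_char_circ (pr θ (sg η)), ← Finset.sum_filter,
      Finset.sum_const, nsmul_eq_mul]
    rfl
  have h2 : ∀ a, ∑ η : Finset Ω, (e1 (pr θ (sg η) a) : ℂ)
      = ((2 ^ Fintype.card Ω * ∏ x, cr (θ a x) : ℝ) : ℂ) := by
    intro a
    have h3 : ∀ η : Finset Ω, (e1 (pr θ (sg η) a) : ℂ)
        = (∏ x ∈ η, e1 (θ a x)) * ∏ x ∈ univ \ η, e1 (-(θ a x)) := by
      intro η
      rw [pr_apply, e1_sum, ← Finset.prod_sdiff (Finset.subset_univ η), mul_comm]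
      congr 1
      · refine Finset.prod_congr rfl fun x hx => ?_
        simp [sg, hx]
      · refine Finset.prod_congr rfl fun x hx => ?_
        have : x ∉ η := (Finset.mem_sdiff.mp hx).2
        simp [sg, this]
    have h4 : ∑ η : Finset Ω, (e1 (pr θ (sg η) a) : ℂ)
        = ∏ x, (e1 (θ a x) + e1 (-(θ a x))) := by
      rw [Finset.prod_add, Finset.powerset_univ]
      exact Finset.sum_congr rfl fun η _ => h3 η
    rw [h4, Finset.prod_congr rfl fun x _ => e1_add_neg (θ a x)]
    push_cast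
    rw [Finset.prod_mul_distrib, Finset.prod_const, Finset.card_univ]
  rw [Finset.sum_comm, Finset.sum_congr rfl fun a _ => h2 a, ← Complex.ofReal_sum,
    ← Finset.mul_sum] at h1
  exact_mod_cast h1

/-- the values of a sparse sign -/
def zt (m : ℕ) (b : Fin m) : ℤ := if b.val = 0 then 1 else if b.val = 1 then -1 else 0

lemma zt_abs (m : ℕ) (b : Fin m) : |zt m b| ≤ 1 := by
  unfold zt
  split_ifs <;> norm_num

lemma sum_zt (m : ℕ) (hm : 2 ≤ m) (f : ℤ → ℂ) :
    ∑ b : Fin m, f (zt m b) = f 1 + f (-1) + (m - 2 : ℕ) * f 0 := by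
  obtain ⟨k, rfl⟩ := Nat.exists_eq_add_of_le' hm
  rw [Fin.sum_univ_succ, Fin.sum_univ_succ]
  have h1 : ∀ i : Fin k, f (zt (k + 2) i.succ.succ) = f 0 := by
    intro i
    unfold zt
    simp
  rw [Finset.sum_congr rfl fun i _ => h1 i, Finset.sum_const, Finset.card_univ, Fintype.card_fin,
    nsmul_eq_mul]
  have h2 : zt (k + 2) 0 = 1 := by unfold zt; simp
  have h3 : zt (k + 2) (Fin.succ 0) = -1 := by unfold zt; simp
  rw [h2, h3, Nat.add_sub_cancel, add_assoc]

open Classical in
/-- sparse signs -/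
theorem card_sparse (θ : A →+ (Ω → UnitAddCircle)) (m : ℕ) (hm : 2 ≤ m) :
    ((univ.filter fun b : Ω → Fin m => ∀ a, ∑ x, zt m (b x) • θ a x = 0).card : ℝ)
        * Fintype.card A
      = (m : ℝ) ^ Fintype.card Ω * ∑ a, ∏ x, (1 - 2 / m + 2 / m * cr (θ a x)) := by
  have h1 : ((univ.filter fun b : Ω → Fin m => ∀ a, ∑ x, zt m (b x) • θ a x = 0).card : ℂ)
      * Fintype.card A = ∑ b : Ω → Fin m, ∑ a, (e1 (pr θ (fun x => zt m (b x)) a) : ℂ) := by
    rw [Finset.sum_congr rfl fun b _ => sum_char_circ (pr θ (fun x => zt m (b x))),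
      ← Finset.sum_filter, Finset.sum_const, nsmul_eq_mul]
    rfl
  have hm0 : (m : ℝ) ≠ 0 := by
    have : (2 : ℝ) ≤ m := by exact_mod_cast hm
    linarith
  have h2 : ∀ a, ∑ b : Ω → Fin m, (e1 (pr θ (fun x => zt m (b x)) a) : ℂ)
      = (((m : ℝ) ^ Fintype.card Ω * ∏ x, (1 - 2 / m + 2 / m * cr (θ a x)) : ℝ) : ℂ) := by
    intro a
    have h3 : ∀ b : Ω → Fin m, (e1 (pr θ (fun x => zt m (b x)) a) : ℂ)
        = ∏ x, e1 (zt m (b x) • θ a x) := by
      intro b
      rw [pr_apply, e1_sum]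
    have h4 : ∀ x, ∑ t : Fin m, e1 (zt m t • θ a x)
        = (((m : ℝ) * (1 - 2 / m + 2 / m * cr (θ a x)) : ℝ) : ℂ) := by
      intro x
      have h5 := sum_zt m hm (fun z => e1 (z • θ a x))
      rw [h5]
      simp only [one_smul, neg_smul, zero_smul, AddChar.map_zero_eq_one, mul_one]
      rw [e1_add_neg, Nat.cast_sub hm]
      have h6 : (m : ℝ) * (1 - 2 / m + 2 / m * cr (θ a x)) = 2 * cr (θ a x) + (m - 2) := by
        field_simp
        ring
      rw [h6]
      push_cast
      ring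
    have h5 : ∑ b : Ω → Fin m, ∏ x, e1 (zt m (b x) • θ a x)
        = ∏ x, ∑ t : Fin m, e1 (zt m t • θ a x) := by
      rw [Finset.prod_univ_sum, Fintype.piFinset_univ]
    rw [Finset.sum_congr rfl fun b _ => h3 b, h5, Finset.prod_congr rfl fun x _ => h4 x,
      ← Complex.ofReal_prod, Finset.prod_mul_distrib, Finset.prod_const, Finset.card_univ]
  rw [Finset.sum_comm, Finset.sum_congr rfl fun a _ => h2 a, ← Complex.ofReal_sum,
    ← Finset.mul_sum] at h1
  exact_mod_cast h1

/-- multiples prime to the order do not matter -/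
lemma mult_iff (φ : A →+ UnitAddCircle) (k : ℕ) (hk : Nat.Coprime k (Fintype.card A)) :
    (∀ a, k • φ a = 0) ↔ ∀ a, φ a = 0 := by
  constructor
  · intro h a
    have h1 : Fintype.card A • φ a = 0 := by
      rw [← map_nsmul, card_nsmul_eq_zero, map_zero]
    have h2 := h a
    rw [← addOrderOf_dvd_iff_nsmul_eq_zero] at h1 h2
    have h3 : addOrderOf (φ a) ∣ 1 := by
      rw [← hk]
      exact Nat.dvd_gcd h2 h1
    exact AddMonoid.addOrderOf_eq_one_iff.mp (Nat.dvd_one.mp h3)
  · intro h a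
    rw [h a, smul_zero]

end Gen

end Pool.Agent.Lib.MP_938ce2_ag_u6
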