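import Mathlib
import Pool.Agent.Lib.MP_938ce2_ag_u5.TwoMod
import Pool.Agent.Lib.MP_938ce2_ag_u5.TwoSum
import Pool.Agent.Lib.MP_938ce2_ag_u6.Walk
import Pool.Agent.Lib.MP_938ce2_ag_u6.Chain

/-!
The chain inequality, counting form: one prime is removed.
-/

set_option autoImplicit false
set_option linter.unusedSectionVars false

namespace Pool.Agent.Lib.MP_938ce2_ag_u6

open Finset Real Module MonoidAlgebra
open Pool.Agent.Lib.MP_938ce2_ag_h67 (sg VV ev mkV Orb red kerM QD code mem_code code_inv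
  finrank_code ev_ext finrank_hom_top_mod finrank_red_mod)
open Pool.Agent.Lib.MP_938ce2_ag_h60 (CMType)
open Pool.Agent.Lib.MP_938ce2_ag_u2 (Act OddM exists_cm cmExt sum_cmExt card_cm_filter card_cm)
open Pool.Agent.Lib.MP_938ce2_ag_u2.TypeCAux (odd_of_iso)
open Pool.Agent.Lib.MP_938ce2_ag_u5 (UU)

section Iso

variable {F R A V : Type} [Field F] [Ring R] [Algebra F R] [AddCommGroup A] [Module F A]
  [Module R A] [IsScalarTower F R A] [AddCommGroup V] [Module F V] [Module R V]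
  [IsScalarTower F R V] [Module.Finite F A] [Module.Finite F V] [Module.Finite F (A →ₗ[R] V)]

theorem exists_isotypic : ∃ V1 : Submodule R V, (∀ f : A →ₗ[R] V, LinearMap.range f ≤ V1) ∧
    finrank F V1 ≤ finrank F (A →ₗ[R] V) * finrank F A := by
  let B : (A →ₗ[R] V) →ₗ[F] A →ₗ[F] V :=
    { toFun := fun f => f.restrictScalars F
      map_add' := fun f f' => rfl
      map_smul' := fun a f => rfl }
  let L : TensorProduct F (A →ₗ[R] V) A →ₗ[F] V := TensorProduct.lift B
  let V1 : Submodule R V :=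
    { carrier := LinearMap.range L
      zero_mem' := Submodule.zero_mem _
      add_mem' := fun {a b} ha hb => Submodule.add_mem _ ha hb
      smul_mem' := by
        rintro r _ ⟨t, rfl⟩
        induction t using TensorProduct.induction_on with
        | zero =>
          rw [map_zero, smul_zero]
          exact Submodule.zero_mem _
        | tmul f a =>
          refine ⟨f ⊗ₜ (r • a), ?_⟩
          show f (r • a) = r • f a
          exact map_smul f r a
        | add s t hs ht =>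
          rw [map_add, smul_add]
          exact Submodule.add_mem _ hs ht }
  refine ⟨V1, ?_, ?_⟩
  · rintro f _ ⟨a, rfl⟩
    exact ⟨f ⊗ₜ a, rfl⟩
  · have h1 : finrank F V1 = finrank F (LinearMap.range L) := rfl
    rw [h1, ← finrank_tensorProduct]
    exact LinearMap.finrank_range_le L

end Iso

section Def

variable {G X : Type} [Group G] [MulAction G X] [Fintype X] [DecidableEq X]
  {A : Type} [AddCommGroup A] [Fintype A]

/-- the weight `w` is orthogonal to the functions -/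
def Ort (θ : A →+ (X → UnitAddCircle)) (w : X → ℤ) : Prop := ∀ a, ∑ x, w x • θ a x = 0

open Classical in
/-- the share of the CM types orthogonal to `θ` -/
noncomputable def PC (c : G) (g : ℕ) (θ : A →+ (X → UnitAddCircle)) : ℝ :=
  ((univ.filter fun Φ : Finset X => CMType c Φ ∧ Ort θ (sg Φ)).card : ℝ) / 2 ^ g

open Classical in
/-- the probability that a sparse sign vector is orthogonal to `θ` -/
noncomputable def PS (m : ℕ) (θ : A →+ (X → UnitAddCircle)) : ℝ :=
  ((univ.filter fun b : X → Fin m => Ort θ (fun x => zt m (b x))).card : ℝ)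
    / (m : ℝ) ^ Fintype.card X

omit [Fintype A] in
lemma PC_nonneg (c : G) (g : ℕ) (θ : A →+ (X → UnitAddCircle)) : 0 ≤ PC c g θ := by
  unfold PC
  positivity

omit [Fintype A] in
lemma PS_nonneg (m : ℕ) (θ : A →+ (X → UnitAddCircle)) : 0 ≤ PS m θ := by
  unfold PS
  positivity

omit [Fintype A] in
lemma ort_coprod {B : Type} [AddCommGroup B] (θ : A →+ (X → UnitAddCircle))
    (η : B →+ (X → UnitAddCircle)) (w : X → ℤ) :
    Ort (θ.coprod η) w ↔ Ort θ w ∧ Ort η w := by
  have h1 : ∀ (a : A) (b : B), ∑ x, w x • (θ.coprod η) (a, b) x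
      = ∑ x, w x • θ a x + ∑ x, w x • η b x := by
    intro a b
    rw [← Finset.sum_add_distrib]
    refine Finset.sum_congr rfl fun x _ => ?_
    rw [AddMonoidHom.coprod_apply, Pi.add_apply, smul_add]
  constructor
  · intro h
    refine ⟨fun a => ?_, fun b => ?_⟩
    · have h2 := h (a, 0)
      rw [h1, map_zero] at h2
      simpa using h2
    · have h2 := h (0, b)
      rw [h1, map_zero] at h2
      simpa using h2
  · rintro ⟨h2, h3⟩ ⟨a, b⟩
    rw [h1, h2 a, h3 b, add_zero]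

lemma ort_mul (θ : A →+ (X → UnitAddCircle)) (w : X → ℤ) (k : ℕ)
    (hk : Nat.Coprime k (Fintype.card A)) :
    (∀ a, ∑ x, w x • (k • θ a x) = 0) ↔ Ort θ w := by
  have h1 := mult_iff (pr θ w) k hk
  have h2 : ∀ a, ∑ x, w x • (k • θ a x) = k • pr θ w a := by
    intro a
    rw [pr_apply, Finset.smul_sum]
    exact Finset.sum_congr rfl fun x _ => smul_comm _ _ _
  simp only [h2]
  exact h1

/-- the sum of the products for sparse signs -/
theorem PS_eq (m : ℕ) (hm : 2 ≤ m) (θ : A →+ (X → UnitAddCircle)) (k : ℕ)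
    (hk : Nat.Coprime k (Fintype.card A)) :
    ∑ a, ∏ x, (1 - 2 / m + 2 / m * cr (k • θ a x)) = PS m θ * Fintype.card A := by
  classical
  have hm0 : (0 : ℝ) < m := by
    have : (2 : ℝ) ≤ m := by exact_mod_cast hm
    linarith
  let θ' : A →+ (X → UnitAddCircle) :=
    { toFun := fun a x => k • θ a x
      map_zero' := by
        funext x
        rw [map_zero]
        exact smul_zero _
      map_add' := fun a b => by
        funext x
        rw [map_add]
        exact smul_add _ _ _ }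
  have h1 := card_sparse θ' m hm
  have h2 : (univ.filter fun b : X → Fin m => ∀ a, ∑ x, zt m (b x) • θ' a x = 0)
      = univ.filter fun b : X → Fin m => Ort θ (fun x => zt m (b x)) := by
    refine Finset.filter_congr fun b _ => ?_
    exact ort_mul θ (fun x => zt m (b x)) k hk
  have h3 : ((univ.filter fun b : X → Fin m => ∀ a, ∑ x, zt m (b x) • θ' a x = 0).card : ℝ)
      = PS m θ * (m : ℝ) ^ Fintype.card X := by
    unfold PS
    rw [div_mul_cancel₀ _ (by positivity)]
    norm_cast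
    convert congrArg Finset.card h2
  rw [h3] at h1
  have h4 : (0 : ℝ) < (m : ℝ) ^ Fintype.card X := by positivity
  have h5 : (m : ℝ) ^ Fintype.card X * (PS m θ * Fintype.card A)
      = (m : ℝ) ^ Fintype.card X * ∑ a, ∏ x, (1 - 2 / m + 2 / m * cr (k • θ a x)) := by
    rw [← mul_assoc, mul_comm ((m : ℝ) ^ Fintype.card X) (PS m θ)]
    exact h1
  exact (mul_left_cancel₀ h4.ne' h5).symm

/-- the sum of the products for CM types -/
theorem PC_eq {c : G} {g : ℕ} (hA : Act G X c g) {Φ₀ : Finset X} (h₀ : CMType c Φ₀)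
    (θ : A →+ (X → UnitAddCircle)) (hodd : ∀ a x, θ a (c • x) = - θ a x)
    (hk : Nat.Coprime 2 (Fintype.card A)) :
    ∑ a, ∏ x ∈ Φ₀, cr (θ a x) = PC c g θ * Fintype.card A := by
  classical
  let θ' : A →+ ({x // x ∈ Φ₀} → UnitAddCircle) :=
    { toFun := fun a x => θ a x.1
      map_zero' := by
        funext x
        rw [map_zero]
        rfl
      map_add' := fun a b => by
        funext x
        rw [map_add]
        rfl }
  have h1 := card_sign θ'
  rw [card_cm hA h₀] at h1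
  have h2 : (Finset.univ.filter fun Φ : Finset X => CMType c Φ ∧ Ort θ (sg Φ)).card
      = (univ.filter fun η : Finset {x // x ∈ Φ₀} => ∀ a, ∑ x, sg η x • θ' a x = 0).card := by
    rw [card_cm_filter hA h₀ (fun Φ => Ort θ (sg Φ))]
    congr 1
    refine Finset.filter_congr fun η _ => ?_
    have h3 : ∀ a, ∑ x, sg (cmExt c Φ₀ η) x • θ a x = 2 • pr θ' (sg η) a := fun a =>
      sum_cmExt hA h₀ η (θ a) (hodd a)
    show (∀ a, ∑ x, sg (cmExt c Φ₀ η) x • θ a x = 0) ↔ _
    simp only [h3]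
    exact mult_iff (pr θ' (sg η)) 2 hk
  have h4 : ((univ.filter fun η : Finset {x // x ∈ Φ₀} =>
      ∀ a, ∑ x, sg η x • θ' a x = 0).card : ℝ) = PC c g θ * 2 ^ g := by
    unfold PC
    rw [div_mul_cancel₀ _ (by positivity)]
    norm_cast
    rw [← h2]
  have h5 : (∑ a, ∏ x : {x // x ∈ Φ₀}, cr (θ' a x)) = ∑ a, ∏ x ∈ Φ₀, cr (θ a x) := by
    refine Finset.sum_congr rfl fun a _ => ?_
    exact Finset.prod_coe_sort Φ₀ (fun x => cr (θ a x))
  have h6 : (2 : ℝ) ^ g * (PC c g θ * Fintype.card A)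
      = 2 ^ g * ∑ a, ∏ x ∈ Φ₀, cr (θ a x) := by
    rw [← h5, ← mul_assoc, mul_comm ((2 : ℝ) ^ g) (PC c g θ), ← h4]
    convert h1
  exact (mul_left_cancel₀ (by positivity : (2 : ℝ) ^ g ≠ 0) h6).symm

/-- products over a CM type and over all points -/
lemma prod_half [Fintype G] [MulAction.IsPretransitive G X] {c : G} {g : ℕ} (hA : Act G X c g) {Φ₀ : Finset X} (h₀ : CMType c Φ₀)
    (t : X → UnitAddCircle) (ht : ∀ x, t (c • x) = - t x) :
    ∏ x ∈ Φ₀, |cr (t x)| = ∏ x, |cr (t x)| ^ (1 / 2 : ℝ) := by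
  rw [← Pool.Agent.Lib.MP_938ce2_ag_u3.prod_type hA h₀ (fun x => |cr (t x)| ^ (1 / 2 : ℝ)),
    ← Finset.prod_mul_distrib]
  refine Finset.prod_congr rfl fun x _ => ?_
  rw [ht, cr_neg, ← sq, ← Real.rpow_natCast, ← Real.rpow_mul (abs_nonneg _)]
  norm_num

end Def

section Main

variable {G Q X X' : Type} [Group G] [Fintype G] [Group Q] [Fintype Q] [MulAction G X]
  [MulAction Q X'] [Fintype X] [DecidableEq X] [Fintype X'] [DecidableEq X'] {c : G} {g : ℕ}
  [MulAction.IsPretransitive G X] (D : QD G Q X X') {q : ℕ} [Fact q.Prime]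
  {A : Type} [AddCommGroup A] [Fintype A]

/-- the functions with values in the circle given by a submodule of functions on the quotient -/
noncomputable def jc (U : Submodule (MonoidAlgebra (ZMod q) Q) (VV (ZMod q) Q X')) :
    U →+ (X → UnitAddCircle) where
  toFun u x := ZMod.toAddCircle (ev u.1 (D.π x))
  map_zero' := by
    funext x
    exact map_zero _
  map_add' u v := by
    funext x
    exact map_add _ _ _

lemma jc_apply (U : Submodule (MonoidAlgebra (ZMod q) Q) (VV (ZMod q) Q X')) (u : U) (x : X) :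
    jc D U u x = ZMod.toAddCircle (ev u.1 (D.π x)) := rfl

lemma ort_jc (U : Submodule (MonoidAlgebra (ZMod q) Q) (VV (ZMod q) Q X')) (w : X → ℤ) :
    Ort (jc D U) w ↔ ∀ u ∈ U, ∑ x, (w x : ZMod q) * ev u (D.π x) = 0 := by
  have h1 : ∀ u : U, ∑ x, w x • jc D U u x
      = ZMod.toAddCircle (∑ x, (w x : ZMod q) * ev u.1 (D.π x)) := by
    intro u
    rw [map_sum]
    refine Finset.sum_congr rfl fun x _ => ?_
    rw [jc_apply, ← map_zsmul, zsmul_eq_mul]
  unfold Ort
  simp only [h1, ZMod.toAddCircle_eq_zero]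
  exact ⟨fun h u hu => h ⟨u, hu⟩, fun h u => h u.1 u.2⟩

/-- the chain inequality, counting form -/
theorem chain_mu (hA : Act G X c g) (N : Submodule (MonoidAlgebra ℚ Q) (VV ℚ Q X'))
    (hodd : OddM (D.φ c) N) (hq2 : q ≠ 2) (hqQ : ¬ q ∣ Fintype.card Q) (N₀ : ℕ) (hN1 : 1 ≤ N₀)
    (hN₀ : finrank ℚ (N →ₗ[MonoidAlgebra ℚ Q] VV ℚ Q X') * finrank ℚ N ≤ N₀)
    (hg : 4 * N₀ * (q : ℝ) ^ 2 * log (9 * N₀) ≤ g)
    (μ : ℕ) (hμ : ∀ v : VV (ZMod q) Q X', v ≠ 0 → Nat.card {U : UU N q // v ∈ U.1} ≤ μ)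
    (θ : A →+ (X → UnitAddCircle)) (hθ : ∀ a x, θ a (c • x) = - θ a x)
    (hcop : Nat.Coprime (2 * q) (Fintype.card A)) [Fintype (UU N q)] :
    ∑ U : UU N q, PC c g (θ.coprod (jc D U.1))
      ≤ (Nat.card (UU N q) * PC c g θ + 2 * μ * PS (160 * q ^ 2) θ) / (q : ℝ) ^ finrank ℚ N := by
  classical
  obtain ⟨Φ₀, h₀⟩ := exists_cm hA
  have hq0 : 0 < q := (Fact.out : q.Prime).pos
  have hq0R : (0 : ℝ) < q := by exact_mod_cast hq0
  let _ : ∀ U : UU N q, Fintype U.1 := fun U => Fintype.ofFinite _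
  have hfr : ∀ U : UU N q, finrank (ZMod q) U.1 = finrank ℚ N := fun U =>
    Pool.Agent.Lib.MP_938ce2_ag_u5.finrank_UU N q hqQ U
  have hcard : ∀ U : UU N q, Fintype.card U.1 = q ^ finrank ℚ N := by
    intro U
    have h3 := Module.card_eq_pow_finrank (K := ZMod q) (V := U.1)
    rw [h3, ZMod.card, hfr]
  have hcA : (0 : ℝ) < Fintype.card A := by exact_mod_cast Fintype.card_pos
  have hop : ∀ U : UU N q, ∀ (u : U.1) (x : X), jc D U.1 u (c • x) = - jc D U.1 u x := by
    intro U u x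
    have h3 := odd_of_iso D N hodd hA.sq q U.1 U.2 u.1 u.2 (D.π x)
    rw [← D.comm] at h3
    rw [jc_apply, jc_apply, h3, map_neg]
  have hcop2 : Nat.Coprime 2 (Fintype.card A) := Nat.Coprime.coprime_dvd_left (Dvd.intro q rfl) hcop
  -- the code
  have hfinH : Module.Finite (ZMod q) (red N (ZMod q) →ₗ[MonoidAlgebra (ZMod q) Q] VV (ZMod q) Q X') :=
    Pool.Agent.Lib.MP_938ce2_ag_h85d.finite_hom
  obtain ⟨V1, hV1, hV1r⟩ := exists_isotypic (F := ZMod q) (R := MonoidAlgebra (ZMod q) Q)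
    (A := red N (ZMod q)) (V := VV (ZMod q) Q X')
  rw [finrank_hom_top_mod N q hqQ, finrank_red_mod N q hqQ] at hV1r
  have hUV : ∀ U : UU N q, U.1 ≤ V1 := by
    rintro ⟨U, ⟨e⟩⟩ u hu
    refine hV1 (U.subtype.comp e.toLinearMap) ⟨e.symm ⟨u, hu⟩, ?_⟩
    show (e (e.symm ⟨u, hu⟩) : VV (ZMod q) Q X') = u
    rw [LinearEquiv.apply_symm_apply]
  let L : (X' → ZMod q) →ₗ[ZMod q] (X → ZMod q) := LinearMap.funLeft (ZMod q) (ZMod q) D.π
  have hL : Function.Injective L := LinearMap.funLeft_injective_of_surjective _ _ _ D.hπ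
  let C : Submodule (ZMod q) (X → ZMod q) := (code V1).map L
  have hCinv : ∀ σ : G, ∀ y ∈ C, (fun x => y (σ • x)) ∈ C := by
    rintro σ _ ⟨u, hu, rfl⟩
    refine ⟨fun z => u (D.φ σ • z), code_inv V1 (D.φ σ) u hu, ?_⟩
    funext x
    show u (D.φ σ • D.π x) = u (D.π (σ • x))
    rw [D.comm]
  have hCr : finrank (ZMod q) C ≤ N₀ := by
    refine le_trans (le_of_eq ?_) (hV1r.trans hN₀)
    rw [← finrank_code V1]
    exact (Submodule.equivMapOfInjective L hL (code V1)).finrank_eq.symm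
  let _ : Fintype C := Fintype.ofFinite _
  have hgX : 8 * N₀ * (q : ℝ) ^ 2 * log (9 * N₀) ≤ Fintype.card X := by
    rw [hA.card]
    push_cast
    linarith
  -- the identity for one submodule
  have hid : ∀ U : UU N q, PC c g (θ.coprod (jc D U.1)) * (Fintype.card A * (q : ℝ) ^ finrank ℚ N)
      = ∑ a, ∑ u : U.1, ∏ x ∈ Φ₀, cr (θ a x + jc D U.1 u x) := by
    intro U
    have h1 := PC_eq hA h₀ (θ.coprod (jc D U.1)) (by
      rintro ⟨a, u⟩ x
      rw [AddMonoidHom.coprod_apply, Pi.add_apply, Pi.add_apply, hθ, hop, neg_add]) (by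
      rw [Fintype.card_prod, hcard]
      refine Nat.Coprime.mul_right hcop2 (Nat.Coprime.pow_right _ ?_)
      rw [Nat.coprime_primes Nat.prime_two (Fact.out : q.Prime)]
      exact hq2.symm)
    rw [Fintype.card_prod, hcard] at h1
    push_cast at h1
    rw [← h1, Fintype.sum_prod_type]
    rfl
  -- the terms
  have hterm : ∀ (U : UU N q) (a : A) (u : U.1), ∏ x ∈ Φ₀, cr (θ a x + jc D U.1 u x)
      ≤ FF (θ a) (fun x => ev u.1 (D.π x)) := by
    intro U a u
    calc ∏ x ∈ Φ₀, cr (θ a x + jc D U.1 u x) ≤ |∏ x ∈ Φ₀, cr (θ a x + jc D U.1 u x)| :=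
          le_abs_self _
      _ = ∏ x ∈ Φ₀, |cr (θ a x + jc D U.1 u x)| := Finset.abs_prod _ _
      _ = ∏ x, |cr (θ a x + jc D U.1 u x)| ^ (1 / 2 : ℝ) :=
          prod_half hA h₀ (fun x => θ a x + jc D U.1 u x) fun x => by rw [hθ, hop, neg_add]
      _ = FF (θ a) (fun x => ev u.1 (D.π x)) := by
          unfold FF
          refine Finset.prod_congr rfl fun x _ => ?_
          rw [jc_apply, add_comm]
  -- the sum over all submodules
  have hsumU : ∀ a : A, ∑ U : UU N q, ∑ u ∈ (univ : Finset U.1).erase 0,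
      FF (θ a) (fun x => ev u.1 (D.π x)) ≤ μ * ∑ y : C, FF (θ a) (y : X → ZMod q) := by
    intro a
    rw [Finset.sum_sigma']
    have hmap : ∀ p ∈ ((univ : Finset (UU N q)).sigma fun U => (univ : Finset U.1).erase 0),
        (⟨fun x => ev p.2.1 (D.π x), ⟨ev p.2.1, (mem_code V1 _).mpr (hUV p.1 p.2.2), rfl⟩⟩ : C)
          ∈ (univ : Finset C) := fun p _ => Finset.mem_univ _
    rw [← Finset.sum_fiberwise_of_maps_to hmap, Finset.mul_sum]
    refine Finset.sum_le_sum fun y _ => ?_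
    have h1 : ∀ p ∈ ((univ : Finset (UU N q)).sigma fun U => (univ : Finset U.1).erase 0).filter
        (fun p => (⟨fun x => ev p.2.1 (D.π x), ⟨ev p.2.1, (mem_code V1 _).mpr (hUV p.1 p.2.2),
          rfl⟩⟩ : C) = y), FF (θ a) (fun x => ev p.2.1 (D.π x)) = FF (θ a) (y : X → ZMod q) := by
      intro p hp
      have h2 := congrArg Subtype.val (Finset.mem_filter.mp hp).2
      rw [← h2]
    rw [Finset.sum_congr rfl h1, Finset.sum_const, nsmul_eq_mul]
    apply mul_le_mul_of_nonneg_right _ (FF_nonneg _ _)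
    norm_cast
    obtain ⟨y, u₀, hu₀, rfl⟩ := y
    by_cases h0 : (mkV Q u₀ : VV (ZMod q) Q X') = 0
    · refine le_trans (le_of_eq (Finset.card_eq_zero.mpr ?_)) (Nat.zero_le _)
      rw [Finset.filter_eq_empty_iff]
      rintro ⟨U, u⟩ hp h2
      have h3 := congrArg Subtype.val h2
      have h4 : (ev u.1 : X' → ZMod q) = u₀ := hL h3
      have h5 : u ≠ 0 := Finset.ne_of_mem_erase (Finset.mem_sigma.mp hp).2
      apply h5
      apply Subtype.ext
      show u.1 = 0
      rw [← h0, ← h4]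
      rfl
    · have h2 := hμ (mkV Q u₀) h0
      refine le_trans ?_ h2
      rw [Nat.card_eq_fintype_card, Fintype.card_subtype]
      refine Finset.card_le_card_of_injOn (fun p => p.1) ?_ ?_
      · rintro ⟨U, u⟩ hp
        have h3 := congrArg Subtype.val (Finset.mem_filter.mp (Finset.mem_coe.mp hp)).2
        have h4 : (ev u.1 : X' → ZMod q) = u₀ := hL h3
        rw [Finset.mem_coe, Finset.mem_filter]
        refine ⟨Finset.mem_univ _, ?_⟩
        show (mkV Q u₀ : VV (ZMod q) Q X') ∈ U.1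
        rw [← h4]
        exact u.2
      · rintro ⟨U, u⟩ hp ⟨U', u'⟩ hp' h
        have h3 := congrArg Subtype.val (Finset.mem_filter.mp (Finset.mem_coe.mp hp)).2
        have h4 : (ev u.1 : X' → ZMod q) = u₀ := hL h3
        have h3' := congrArg Subtype.val (Finset.mem_filter.mp (Finset.mem_coe.mp hp')).2
        have h4' : (ev u'.1 : X' → ZMod q) = u₀ := hL h3'
        have h5 : U = U' := h
        subst h5
        have h6 : u = u' := by
          apply Subtype.ext
          apply ev_ext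
          intro x
          rw [h4, h4']
        rw [h6]
  have hchain : ∀ a : A, ∑ y : C, FF (θ a) (y : X → ZMod q)
      ≤ 2 * ∏ x, (1 - 2 / (160 * q ^ 2 : ℕ) + 2 / (160 * q ^ 2 : ℕ) * cr ((2 * q : ℕ) • θ a x)) := by
    intro a
    refine chain_ineq (P := G) C hq2 hCinv N₀ hN1 hCr hgX (θ a) (2 / (160 * q ^ 2 : ℕ))
      (by positivity) ?_
    push_cast
    have h1 : 8 * π ^ 2 * (2 / (160 * (q : ℝ) ^ 2)) * (q : ℝ) ^ 2 = π ^ 2 / 10 := by
      field_simp
      ring
    rw [h1]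
    have := Real.pi_lt_d2
    have := Real.pi_pos
    nlinarith
  have hPS := PS_eq (160 * q ^ 2) (by nlinarith) θ (2 * q) hcop
  have hPC := PC_eq hA h₀ θ hθ hcop2
  -- the total
  have htot : ∑ U : UU N q, ∑ a, ∑ u : U.1, ∏ x ∈ Φ₀, cr (θ a x + jc D U.1 u x)
      ≤ (Nat.card (UU N q) * PC c g θ + 2 * μ * PS (160 * q ^ 2) θ) * Fintype.card A := by
    calc ∑ U : UU N q, ∑ a, ∑ u : U.1, ∏ x ∈ Φ₀, cr (θ a x + jc D U.1 u x)
        ≤ ∑ U : UU N q, ∑ a, (∏ x ∈ Φ₀, cr (θ a x)
          + ∑ u ∈ (univ : Finset U.1).erase 0, FF (θ a) (fun x => ev u.1 (D.π x))) := by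
          refine Finset.sum_le_sum fun U _ => Finset.sum_le_sum fun a _ => ?_
          rw [← Finset.add_sum_erase _ _ (Finset.mem_univ (0 : U.1))]
          refine add_le_add (le_of_eq ?_) (Finset.sum_le_sum fun u _ => hterm U a u)
          refine Finset.prod_congr rfl fun x _ => ?_
          rw [map_zero, Pi.zero_apply, add_zero]
      _ = Nat.card (UU N q) * ∑ a, ∏ x ∈ Φ₀, cr (θ a x)
          + ∑ a, ∑ U : UU N q, ∑ u ∈ (univ : Finset U.1).erase 0,
            FF (θ a) (fun x => ev u.1 (D.π x)) := by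
          simp only [Finset.sum_add_distrib]
          rw [Finset.sum_const, Finset.card_univ, nsmul_eq_mul, Nat.card_eq_fintype_card,
            Finset.sum_comm (s := (univ : Finset (UU N q)))]
      _ ≤ Nat.card (UU N q) * ∑ a, ∏ x ∈ Φ₀, cr (θ a x)
          + ∑ a, μ * (2 * ∏ x, (1 - 2 / (160 * q ^ 2 : ℕ)
            + 2 / (160 * q ^ 2 : ℕ) * cr ((2 * q : ℕ) • θ a x))) := by
          refine add_le_add le_rfl (Finset.sum_le_sum fun a _ => (hsumU a).trans ?_)
          exact mul_le_mul_of_nonneg_left (hchain a) (Nat.cast_nonneg _)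
      _ = _ := by
          rw [← Finset.mul_sum, ← Finset.mul_sum, hPS, hPC]
          ring
  have hfin : (∑ U : UU N q, PC c g (θ.coprod (jc D U.1)))
      * (Fintype.card A * (q : ℝ) ^ finrank ℚ N)
      ≤ (Nat.card (UU N q) * PC c g θ + 2 * μ * PS (160 * q ^ 2) θ) * Fintype.card A := by
    rw [Finset.sum_mul, Finset.sum_congr rfl fun U _ => hid U]
    exact htot
  rw [le_div_iff₀ (by positivity)]
  have h9 : (∑ U : UU N q, PC c g (θ.coprod (jc D U.1))) * (q : ℝ) ^ finrank ℚ N * Fintype.card A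
      ≤ (Nat.card (UU N q) * PC c g θ + 2 * μ * PS (160 * q ^ 2) θ) * Fintype.card A := by
    refine le_trans (le_of_eq ?_) hfin
    ring
  exact le_of_mul_le_mul_right h9 hcA

/-- absolutely simple modules -/
theorem chain_count (hA : Act G X c g) (N : Submodule (MonoidAlgebra ℚ Q) (VV ℚ Q X'))
    (hodd : OddM (D.φ c) N) (hE : finrank ℚ (N →ₗ[MonoidAlgebra ℚ Q] N) = 1)
    (hq2 : q ≠ 2) (hqQ : ¬ q ∣ Fintype.card Q) (N₀ : ℕ) (hN1 : 1 ≤ N₀)
    (hN₀ : finrank ℚ (N →ₗ[MonoidAlgebra ℚ Q] VV ℚ Q X') * finrank ℚ N ≤ N₀)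
    (hg : 4 * N₀ * (q : ℝ) ^ 2 * log (9 * N₀) ≤ g)
    (θ : A →+ (X → UnitAddCircle)) (hθ : ∀ a x, θ a (c • x) = - θ a x)
    (hcop : Nat.Coprime (2 * q) (Fintype.card A)) [Fintype (UU N q)] :
    ∑ U : UU N q, PC c g (θ.coprod (jc D U.1))
      ≤ (Nat.card (UU N q) * PC c g θ + 2 * PS (160 * q ^ 2) θ) / (q : ℝ) ^ finrank ℚ N := by
  have h1 := chain_mu D hA N hodd hq2 hqQ N₀ hN1 hN₀ hg 1 (by
    intro v hv
    have hfin : Finite {U : UU N q // v ∈ U.1} := inferInstance
    rw [Finite.card_le_one_iff_subsingleton]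
    refine ⟨fun U U' => ?_⟩
    apply Subtype.ext
    exact Pool.Agent.Lib.MP_938ce2_ag_u5.uu_eq N q hqQ hE U.1 U'.1 v U.2 U'.2 hv) θ hθ hcop
  rw [Nat.cast_one, mul_one] at h1
  exact h1

end Main

end Pool.Agent.Lib.MP_938ce2_ag_u6
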