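import Mathlib
import Pool.Agent.Lib.MP_938ce2_ag_u6.ChainCount

/-!
Sparse sign vectors orthogonal to a code.
-/

set_option autoImplicit false
set_option linter.unusedSectionVars false

namespace Pool.Agent.Lib.MP_938ce2_ag_u6

open Finset Real Module MonoidAlgebra
open Pool.Agent.Lib.MP_938ce2_ag_h67 (sg VV ev mkV Orb red kerM QD code mem_code code_inv
  finrank_code ev_ext finrank_hom_top_mod finrank_red_mod)
open Pool.Agent.Lib.MP_938ce2_ag_h60 (CMType)
open Pool.Agent.Lib.MP_938ce2_ag_u2 (Act OddM exists_cm cmExt sum_cmExt card_cm_filter card_cm)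
open Pool.Agent.Lib.MP_938ce2_ag_u5 (UU gauss_zmod sum_code_gen)

section

variable {q : ℕ} [Fact q.Prime]

/-- the factor of a sparse sign -/
noncomputable def hs (m : ℕ) (t : ZMod q) : ℝ := 1 - 2 / m + 2 / m * cr (ZMod.toAddCircle t)

lemma hs_pos (m : ℕ) (hm : 5 ≤ m) (t : ZMod q) : 0 < hs m t := by
  have h1 := abs_le.mp (abs_cr_le_one (ZMod.toAddCircle t))
  have hm0 : (5 : ℝ) ≤ m := by exact_mod_cast hm
  have h2 : (2 : ℝ) / m ≤ 2 / 5 := div_le_div_of_nonneg_left (by norm_num) (by norm_num) hm0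
  have h3 : (0 : ℝ) ≤ 2 / m := by positivity
  unfold hs
  nlinarith

lemma hs_rpow_le (m : ℕ) (hm : 5 ≤ m) (t : ZMod q) (ρ : ℝ) (hρ : 0 ≤ ρ) :
    hs m t ^ ρ ≤ exp (-(16 * ρ / (m * (q : ℝ) ^ 2) * (t.valMinAbs : ℝ) ^ 2)) := by
  have hm0 : (5 : ℝ) ≤ m := by exact_mod_cast hm
  have hq0 : (0 : ℝ) < q := by exact_mod_cast (Fact.out : q.Prime).pos
  have h1 := le_one_sub_cr (ZMod.toAddCircle t)
  have h2 : hs m t ≤ exp (-(16 / m * ‖ZMod.toAddCircle t‖ ^ 2)) := by
    have h3 := Real.add_one_le_exp (-(2 / m * (1 - cr (ZMod.toAddCircle t))))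
    have h4 : hs m t = -(2 / m * (1 - cr (ZMod.toAddCircle t))) + 1 := by
      unfold hs
      ring
    rw [h4]
    refine h3.trans (exp_le_exp.mpr ?_)
    rw [neg_le_neg_iff]
    have h5 : (0 : ℝ) ≤ 2 / m := by positivity
    calc 16 / m * ‖ZMod.toAddCircle t‖ ^ 2 = 2 / m * (8 * ‖ZMod.toAddCircle t‖ ^ 2) := by ring
      _ ≤ _ := mul_le_mul_of_nonneg_left h1 h5
  refine (Real.rpow_le_rpow (hs_pos m hm t).le h2 hρ).trans (le_of_eq ?_)
  rw [← Real.exp_mul, norm_toAddCircle, div_pow, sq_abs]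
  congr 1
  field_simp

/-- coarse sum of Gaussians -/
theorem gauss_coarse (α : ℝ) (h0 : 0 < α) :
    ∑ w : ZMod q, exp (-(α * (w.valMinAbs : ℝ) ^ 2)) ≤ 12 + 6 / √α := by
  rcases le_or_gt α (1 / 4) with h | h
  · have := gauss_zmod (q := q) α h0 h
    linarith
  · have h1 := gauss_zmod (q := q) (1 / 4) (by norm_num) le_rfl
    have h2 : √(1 / 4 : ℝ) = 1 / 2 := by
      rw [show (1 / 4 : ℝ) = (1 / 2) ^ 2 by norm_num, Real.sqrt_sq (by norm_num)]
    rw [h2] at h1
    have h3 : ∑ w : ZMod q, exp (-(α * (w.valMinAbs : ℝ) ^ 2))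
        ≤ ∑ w : ZMod q, exp (-(1 / 4 * (w.valMinAbs : ℝ) ^ 2)) := by
      refine Finset.sum_le_sum fun w _ => exp_le_exp.mpr ?_
      rw [neg_le_neg_iff]
      exact mul_le_mul_of_nonneg_right h.le (sq_nonneg _)
    have h4 : 0 ≤ 6 / √α := by positivity
    linarith

end

section Main

variable {G Q X X' : Type} [Group G] [Fintype G] [Group Q] [Fintype Q] [MulAction G X]
  [MulAction Q X'] [Fintype X] [DecidableEq X] [Fintype X'] [DecidableEq X'] {c : G} {g : ℕ}
  [MulAction.IsPretransitive G X] (D : QD G Q X X') {q : ℕ} [Fact q.Prime]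

/-- sparse sign vectors orthogonal to a submodule -/
theorem ps_gen (m : ℕ) (hm : 5 ≤ m)
    (U : Submodule (MonoidAlgebra (ZMod q) Q) (VV (ZMod q) Q X')) [Fintype U]
    (hpos : 0 < finrank (ZMod q) U) :
    PS m (jc D U) ≤ ((∑ t : ZMod q, exp (-(16 * ((Fintype.card X : ℝ) / finrank (ZMod q) U)
      / (m * (q : ℝ) ^ 2) * (t.valMinAbs : ℝ) ^ 2))) / q) ^ finrank (ZMod q) U := by
  classical
  have hq0 : (0 : ℝ) < q := by exact_mod_cast (Fact.out : q.Prime).pos
  have h1 := PS_eq m (by omega) (jc D U) 1 (Nat.coprime_one_left _)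
  have hcard : Fintype.card U = q ^ finrank (ZMod q) U := by
    have h3 := Module.card_eq_pow_finrank (K := ZMod q) (V := U)
    rw [h3, ZMod.card]
  rw [hcard] at h1
  let L : (X' → ZMod q) →ₗ[ZMod q] (X → ZMod q) := LinearMap.funLeft (ZMod q) (ZMod q) D.π
  have hL : Function.Injective L := LinearMap.funLeft_injective_of_surjective _ _ _ D.hπ
  let C : Submodule (ZMod q) (X → ZMod q) := (code U).map L
  have hCinv : ∀ σ : G, ∀ y ∈ C, (fun x => y (σ • x)) ∈ C := by
    rintro σ _ ⟨u, hu, rfl⟩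
    refine ⟨fun z => u (D.φ σ • z), code_inv U (D.φ σ) u hu, ?_⟩
    funext x
    show u (D.φ σ • D.π x) = u (D.π (σ • x))
    rw [D.comm]
  have hCr : finrank (ZMod q) C = finrank (ZMod q) U := by
    rw [← finrank_code U]
    exact (Submodule.equivMapOfInjective L hL (code U)).finrank_eq.symm
  let _ : Fintype C := Fintype.ofFinite _
  have h2 := sum_code_gen (P := G) (hs m) (hs_pos m hm) C hCinv (by rw [hCr]; exact hpos) 1 one_pos
  rw [hCr] at h2
  have h3 : ∑ a, ∏ x, (1 - 2 / m + 2 / m * cr ((1 : ℕ) • jc D U a x))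
      = ∑ y : C, ∏ x, hs m ((y : X → ZMod q) x) ^ (1 : ℝ) := by
    let e : U ≃ C :=
      { toFun := fun u => ⟨fun x => ev u.1 (D.π x), ⟨ev u.1, (mem_code U _).mpr u.2, rfl⟩⟩
        invFun := fun y => ⟨mkV Q y.2.choose, (mem_code U _).mp y.2.choose_spec.1⟩
        left_inv := fun u => by
          apply Subtype.ext
          apply ev_ext
          intro y'
          obtain ⟨x, rfl⟩ := D.hπ y'
          have hy : (⟨fun x => ev u.1 (D.π x), ⟨ev u.1, (mem_code U _).mpr u.2, rfl⟩⟩ : C).2.choose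
              = ev u.1 := by
            apply hL
            exact (⟨fun x => ev u.1 (D.π x), ⟨ev u.1, (mem_code U _).mpr u.2, rfl⟩⟩
              : C).2.choose_spec.2
          show (⟨fun x => ev u.1 (D.π x), ⟨ev u.1, (mem_code U _).mpr u.2, rfl⟩⟩ : C).2.choose
            (D.π x) = _
          rw [hy]
        right_inv := fun y => by
          apply Subtype.ext
          exact y.2.choose_spec.2 }
    refine Fintype.sum_equiv e _ _ fun u => ?_
    refine Finset.prod_congr rfl fun x _ => ?_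
    rw [one_smul, Real.rpow_one]
    rfl
  rw [h3] at h1
  have h4 : PS m (jc D U) * (q : ℝ) ^ finrank (ZMod q) U
      ≤ (∑ t : ZMod q, exp (-(16 * ((Fintype.card X : ℝ) / finrank (ZMod q) U)
      / (m * (q : ℝ) ^ 2) * (t.valMinAbs : ℝ) ^ 2))) ^ finrank (ZMod q) U := by
    push_cast at h1
    rw [← h1]
    refine h2.trans ?_
    refine pow_le_pow_left₀ (Finset.sum_nonneg fun t _ => Real.rpow_nonneg (hs_pos m hm t).le _)
      (Finset.sum_le_sum fun t _ => ?_) _
    have h5 := hs_rpow_le m hm t (1 * (Fintype.card X : ℝ) / finrank (ZMod q) U) (by positivity)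
    rw [one_mul] at h5 ⊢
    exact h5
  rw [div_pow, le_div_iff₀ (by positivity)]
  exact h4

/-- coarse bound -/
theorem ps_coarse (hA : Act G X c g) (m : ℕ) (hm : 5 ≤ m)
    (U : Submodule (MonoidAlgebra (ZMod q) Q) (VV (ZMod q) Q X')) (ν : ℕ)
    (hν : finrank (ZMod q) U = ν) (hpos : 0 < ν) :
    PS m (jc D U) ≤ (12 / q + 2 * √(m * ν / g)) ^ ν := by
  have hq0 : (0 : ℝ) < q := by exact_mod_cast (Fact.out : q.Prime).pos
  have hg0 : (0 : ℝ) < g := by exact_mod_cast hA.pos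
  have hm0 : (0 : ℝ) < m := by exact_mod_cast (by omega : 0 < m)
  have hν0 : (0 : ℝ) < ν := by exact_mod_cast hpos
  let _ : Fintype U := Fintype.ofFinite _
  have h1 := ps_gen D m hm U (by omega)
  rw [hν, hA.card] at h1
  refine h1.trans ?_
  apply pow_le_pow_left₀ (by positivity)
  set α : ℝ := 16 * (((2 * g : ℕ) : ℝ) / ν) / (m * (q : ℝ) ^ 2) with hα
  have hα0 : 0 < α := by
    rw [hα]
    push_cast
    positivity
  have h2 := gauss_coarse (q := q) α hα0
  rw [div_le_iff₀ hq0]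
  refine h2.trans ?_
  have h3 : 6 / √α ≤ 2 * √(m * ν / g) * q := by
    have h4 : α = (√(g / (m * ν)) * (√32 / q)) ^ 2 := by
      rw [mul_pow, Real.sq_sqrt (by positivity), div_pow, Real.sq_sqrt (by norm_num), hα]
      push_cast
      field_simp
      norm_num
    have h5 : √α = √(g / (m * ν)) * (√32 / q) := by
      rw [h4, Real.sqrt_sq (by positivity)]
    have h6 : √((m : ℝ) * ν / g) = (√(g / (m * ν)))⁻¹ := by
      rw [← Real.sqrt_inv, inv_div]
    have h7 : 0 < √((g : ℝ) / (m * ν)) := Real.sqrt_pos.mpr (by positivity)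
    have h8 : (3 : ℝ) ≤ √32 := by
      rw [Real.le_sqrt' (by norm_num : (0 : ℝ) < 3)]
      norm_num
    rw [h5, h6, div_le_iff₀ (by positivity)]
    have h9 : 2 * (√((g : ℝ) / (m * ν)))⁻¹ * q * (√(g / (m * ν)) * (√32 / q)) = 2 * √32 := by
      field_simp
    rw [h9]
    linarith
  have h4 : (12 / (q : ℝ) + 2 * √(m * ν / g)) * q = 12 + 2 * √(m * ν / g) * q := by
    field_simp
  rw [h4]
  linarith

/-- fine bound -/
theorem ps_fine (hA : Act G X c g) (m : ℕ) (hm : 5 ≤ m)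
    (U : Submodule (MonoidAlgebra (ZMod q) Q) (VV (ZMod q) Q X')) (ν : ℕ)
    (hν : finrank (ZMod q) U = ν) (hpos : 0 < ν)
    (h : (m : ℝ) * ν * (q : ℝ) ^ 2 * log (9 * ν) ≤ 32 * g) :
    PS m (jc D U) ≤ 2 / (q : ℝ) ^ ν := by
  have hq0 : (0 : ℝ) < q := by exact_mod_cast (Fact.out : q.Prime).pos
  have hg0 : (0 : ℝ) < g := by exact_mod_cast hA.pos
  have hm0 : (0 : ℝ) < m := by exact_mod_cast (by omega : 0 < m)
  have hν0 : (0 : ℝ) < ν := by exact_mod_cast hpos
  have hν1 : (1 : ℝ) ≤ ν := by exact_mod_cast hpos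
  let _ : Fintype U := Fintype.ofFinite _
  have h1 := ps_gen D m hm U (by omega)
  rw [hν, hA.card] at h1
  refine h1.trans ?_
  rw [div_pow]
  apply div_le_div_of_nonneg_right _ (by positivity)
  set α : ℝ := 16 * (((2 * g : ℕ) : ℝ) / ν) / (m * (q : ℝ) ^ 2) with hα
  have h2 := gauss_fine (q := q) α ν hν1 (by
    rw [hα, le_div_iff₀ (by positivity), mul_div_assoc', le_div_iff₀ (by positivity)]
    push_cast
    nlinarith)
  have h3 : 1 + 1 / (4 * (ν : ℝ)) ≤ exp (1 / (4 * ν)) := by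
    have := Real.add_one_le_exp (1 / (4 * (ν : ℝ)))
    linarith
  calc _ ≤ (exp (1 / (4 * ν))) ^ ν := by
        apply pow_le_pow_left₀ (Finset.sum_nonneg fun _ _ => (exp_pos _).le)
        exact h2.trans h3
    _ = exp (1 / 4) := by
        rw [← Real.exp_nat_mul]
        congr 1
        field_simp
    _ ≤ 2 := by
        have h9 : exp (1 / 4 : ℝ) ^ 4 = exp 1 := by
          rw [← Real.exp_nat_mul]
          norm_num
        have h10 := Real.exp_one_lt_d9
        by_contra hcon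
        push Not at hcon
        have h11 : (2 : ℝ) ^ 4 < exp (1 / 4 : ℝ) ^ 4 :=
          pow_lt_pow_left₀ hcon (by norm_num) (by norm_num)
        rw [h9] at h11
        linarith

end Main

end Pool.Agent.Lib.MP_938ce2_ag_u6
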