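import Mathlib
import Pool.Agent.Lib.MP_938ce2_ag_u3.CountCs
import Pool.Agent.Lib.MP_938ce2_ag_u6.PSLe

/-!
Two primes for absolutely simple modules.
-/

set_option autoImplicit false
set_option linter.unusedSectionVars false

namespace Pool.Agent.Lib.MP_938ce2_ag_u6

open Finset Real Module MonoidAlgebra
open Pool.Agent.Lib.MP_938ce2_ag_h67 (sg VV ev mkV Orb red kerM QD code mem_code code_inv fw sum_fw
  finrank_code ev_ext finrank_hom_top_mod finrank_red_mod down Fac down_iso finrank_down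
  finrank_hom_down_le mem_down red_iso csum)
open Pool.Agent.Lib.MP_938ce2_ag_h60 (CMType)
open Pool.Agent.Lib.MP_938ce2_ag_u2 (Act OddM badC mem_badC dM dE dH exists_cm cmExt sum_cmExt
  card_cm_filter card_cm)
open Pool.Agent.Lib.MP_938ce2_ag_u2.TypeCAux (QP DD DD_ker DD_fac odd_of_iso odd_down)
open Pool.Agent.Lib.MP_938ce2_ag_u5 (UU finrank_end_down card_UU)

/-- Bertrand in `k` dyadic intervals -/
theorem exists_prime_k (k : ℕ) : ∀ (n o : ℕ), 1 ≤ n → 1 ≤ o → o < n ^ k →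
    ∃ q : ℕ, q.Prime ∧ n < q ∧ q ≤ 2 ^ k * n ∧ ¬ q ∣ o := by
  induction k with
  | zero =>
    intro n o hn ho h
    rw [pow_zero] at h
    omega
  | succ k ih =>
    intro n o hn ho h
    obtain ⟨p, hp, l, u⟩ := Nat.exists_prime_lt_and_le_two_mul n (by omega)
    by_cases hd : p ∣ o
    · obtain ⟨o', rfl⟩ := hd
      have ho' : 1 ≤ o' := by
        rcases Nat.eq_zero_or_pos o' with h0 | h0
        · subst h0
          omega
        · exact h0
      have h1 : o' < n ^ k := by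
        have h2 : n * o' < n * n ^ k := by
          calc n * o' ≤ p * o' := Nat.mul_le_mul_right _ l.le
            _ < n ^ (k + 1) := h
            _ = n * n ^ k := by ring
        exact Nat.lt_of_mul_lt_mul_left h2
      obtain ⟨q, hq, l2, u2, hnd⟩ := ih (2 * n) o' (by omega) ho'
        (h1.trans_le (Nat.pow_le_pow_left (by omega) k))
      refine ⟨q, hq, by omega, by rw [pow_succ]; linarith, fun hdvd => ?_⟩
      rcases hq.dvd_mul.mp hdvd with h2 | h2
      · have := (Nat.prime_dvd_prime_iff_eq hq hp).mp h2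
        omega
      · exact hnd h2
    · refine ⟨p, hp, l, u.trans ?_, hd⟩
      apply Nat.mul_le_mul_right
      calc 2 = 2 ^ 1 := (pow_one 2).symm
        _ ≤ 2 ^ (k + 1) := Nat.pow_le_pow_right (by norm_num) (by omega)

section

variable {G X : Type} [Group G] [Fintype G] [MulAction G X] [Fintype X] [DecidableEq X] {c : G}
  {g : ℕ} [MulAction.IsPretransitive G X]

/-- the number of submodules isomorphic to the reduction -/
theorem card_UU_le6 {Q X' : Type} [Group Q] [Fintype Q] [MulAction Q X'] [Fintype X']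
    [DecidableEq X'] (D : QD G Q X X') (M : Submodule (MonoidAlgebra ℚ G) (VV ℚ G X))
    (hMfac : Fac D M) (hE : dE M = 1) (hH : dH M ≤ dM M) (hm : 0 < dM M)
    (q : ℕ) [Fact q.Prime] (hq3 : 3 ≤ q) (hq : ¬ q ∣ Fintype.card Q) :
    (Nat.card (UU (down D M) q) : ℝ) ≤ 2 * (q : ℝ) ^ (dM M - 1) := by
  have h1 := card_UU (down D M) q hq3 hq
  rw [finrank_end_down D hMfac] at h1
  have h2 : finrank ℚ (M →ₗ[MonoidAlgebra ℚ G] M) = 1 := hE
  rw [h2, pow_one] at h1
  have hq3R : (3 : ℝ) ≤ q := by exact_mod_cast hq3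
  have h3 : (q : ℝ) ^ finrank ℚ (down D M →ₗ[MonoidAlgebra ℚ Q] VV ℚ Q X') ≤ (q : ℝ) ^ dM M :=
    pow_le_pow_right₀ (by linarith) ((finrank_hom_down_le D hMfac).trans hH)
  have h4 : (q : ℝ) ^ dM M = (q : ℝ) ^ (dM M - 1) * q := by
    rw [← pow_succ]
    congr 1
    omega
  have h5 : 0 < (q : ℝ) ^ (dM M - 1) := by positivity
  have h6 : (Nat.card (UU (down D M) q) : ℝ) ≤ (q : ℝ) ^ dM M / ((q : ℝ) - 1) := by
    rw [le_div_iff₀ (by linarith)]
    exact h1.trans h3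
  refine h6.trans ?_
  rw [div_le_iff₀ (by linarith), h4]
  nlinarith

/-- the bad CM types and two primes -/
theorem cover_two {Q X' : Type} [Group Q] [Fintype Q] [MulAction Q X'] [Fintype X']
    [DecidableEq X'] (D : QD G Q X X') (M : Submodule (MonoidAlgebra ℚ G) (VV ℚ G X))
    (hfac : ∀ M' : Submodule (MonoidAlgebra ℚ G) (VV ℚ G X),
      Nonempty (M ≃ₗ[MonoidAlgebra ℚ G] M') → Fac D M') {q₁ q₂ : ℕ} [Fact q₁.Prime]
    [Fact q₂.Prime] (hq₁ : ¬ q₁ ∣ Fintype.card Q) (hq₂ : ¬ q₂ ∣ Fintype.card Q)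
    [Fintype (UU (down D M) q₁)] [Fintype (UU (down D M) q₂)] :
    ((badC c M).card : ℝ) / 2 ^ g ≤ ∑ U₂ : UU (down D M) q₂, ∑ U₁ : UU (down D M) q₁,
      PC c g ((jc D U₂.1).coprod (jc D U₁.1)) := by
  classical
  have hMfac : Fac D M := hfac M ⟨LinearEquiv.refl _ _⟩
  have h4 : badC c M ⊆ (Finset.univ : Finset (UU (down D M) q₂)).biUnion fun U₂ =>
      (Finset.univ : Finset (UU (down D M) q₁)).biUnion fun U₁ =>
        (Finset.univ.filter fun Φ : Finset X =>
          CMType c Φ ∧ Ort ((jc D U₂.1).coprod (jc D U₁.1)) (sg Φ)) := by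
    intro Φ hΦ
    obtain ⟨hcm, M', hM', hv⟩ := (mem_badC c M Φ).mp hΦ
    have hiso := down_iso D hMfac (hfac M' hM') hM'
    rw [Finset.mem_biUnion]
    refine ⟨⟨red (down D M') (ZMod q₂), red_iso (down D M) (down D M') q₂ hq₂ hiso⟩,
      Finset.mem_univ _, ?_⟩
    rw [Finset.mem_biUnion]
    refine ⟨⟨red (down D M') (ZMod q₁), red_iso (down D M) (down D M') q₁ hq₁ hiso⟩,
      Finset.mem_univ _, ?_⟩
    rw [Finset.mem_filter]
    have hw : ∀ v ∈ down D M', ∑ y, ((fw D Φ y : ℤ) : ℚ) * ev v y = 0 := by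
      intro u hu
      rw [sum_fw]
      exact hv _ ((mem_down D M' u).mp hu)
    refine ⟨Finset.mem_univ _, hcm, (ort_coprod _ _ _).mpr ⟨?_, ?_⟩⟩
    · rw [ort_jc]
      intro u hu
      have h5 := Pool.Agent.Lib.MP_938ce2_ag_u5.orth_red q₂ (down D M') (fw D Φ) hw u hu
      rw [sum_fw] at h5
      exact h5
    · rw [ort_jc]
      intro u hu
      have h5 := Pool.Agent.Lib.MP_938ce2_ag_u5.orth_red q₁ (down D M') (fw D Φ) hw u hu
      rw [sum_fw] at h5
      exact h5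
  have h5 : ((badC c M).card : ℝ) ≤ ∑ U₂ : UU (down D M) q₂, ∑ U₁ : UU (down D M) q₁,
      ((Finset.univ.filter fun Φ : Finset X =>
          CMType c Φ ∧ Ort ((jc D U₂.1).coprod (jc D U₁.1)) (sg Φ)).card : ℝ) := by
    exact_mod_cast (Finset.card_le_card h4).trans (Finset.card_biUnion_le.trans
      (Finset.sum_le_sum fun U₂ _ => Finset.card_biUnion_le))
  rw [div_le_iff₀ (by positivity), Finset.sum_mul]
  refine h5.trans (le_of_eq (Finset.sum_congr rfl fun U₂ _ => ?_))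
  rw [Finset.sum_mul]
  refine Finset.sum_congr rfl fun U₁ _ => ?_
  unfold PC
  rw [div_mul_cancel₀ _ (by positivity)]

theorem PC_cs {Q X' : Type} [Group Q] [Fintype Q] [MulAction Q X'] [Fintype X']
    [DecidableEq X'] (D : QD G Q X X') (hA : Act G X c g) {q : ℕ} [Fact q.Prime] (hq : Odd q)
    (U : Submodule (MonoidAlgebra (ZMod q) Q) (VV (ZMod q) Q X'))
    (hU : OddM (D.φ c) U) (ν : ℕ) (hν : finrank (ZMod q) U = ν) (hpos : 0 < ν) :
    PC c g (jc D U) ≤ csum q ((g : ℝ) / ν) ^ ν / (q : ℝ) ^ ν := by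
  classical
  have hq0 : (0 : ℝ) < q := by exact_mod_cast (Fact.out : q.Prime).pos
  let L : (X' → ZMod q) →ₗ[ZMod q] (X → ZMod q) := LinearMap.funLeft (ZMod q) (ZMod q) D.π
  have hL : Function.Injective L := LinearMap.funLeft_injective_of_surjective _ _ _ D.hπ
  let C : Submodule (ZMod q) (X → ZMod q) := (code U).map L
  have hCinv : ∀ σ : G, ∀ y ∈ C, (fun x => y (σ • x)) ∈ C := by
    rintro σ _ ⟨u, hu, rfl⟩
    refine ⟨fun z => u (D.φ σ • z), code_inv U (D.φ σ) u hu, ?_⟩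
    funext x
    show u (D.φ σ • D.π x) = u (D.π (σ • x))
    rw [D.comm]
  have hCodd : ∀ y ∈ C, ∀ x, y (c • x) = - y x := by
    rintro _ ⟨u, hu, rfl⟩ x
    show u (D.π (c • x)) = - u (D.π x)
    rw [D.comm]
    exact hU _ ((mem_code U u).mp hu) (D.π x)
  have hCr : finrank (ZMod q) C = ν := by
    rw [← hν, ← finrank_code U]
    exact (Submodule.equivMapOfInjective L hL (code U)).finrank_eq.symm
  have h1 := Pool.Agent.Lib.MP_938ce2_ag_u3.card_orth_cs hA hq C hCodd hCinv (by omega)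
  rw [hCr] at h1
  have h2 : (Finset.univ.filter fun Φ : Finset X =>
        CMType c Φ ∧ ∀ y ∈ C, ∑ x, (sg Φ x : ZMod q) * y x = 0)
      = Finset.univ.filter fun Φ : Finset X => CMType c Φ ∧ Ort (jc D U) (sg Φ) := by
    refine Finset.filter_congr fun Φ _ => ?_
    rw [ort_jc]
    refine and_congr_right fun _ => ?_
    constructor
    · intro h u hu
      exact h _ ⟨ev u, (mem_code U _).mpr hu, rfl⟩
    · rintro h _ ⟨u, hu, rfl⟩
      exact h (mkV Q u) ((mem_code U u).mp hu)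
  unfold PC
  rw [div_le_div_iff₀ (by positivity) (by positivity)]
  rw [h2] at h1
  refine le_trans (le_of_eq ?_) (h1.trans (le_of_eq (mul_comm _ _)))
  congr!

/-- two primes -/
theorem two_gen (hA : Act G X c g) (M : Submodule (MonoidAlgebra ℚ G) (VV ℚ G X))
    (hodd : OddM c M) (hm : 0 < dM M) (hE : dE M = 1) (hH : dH M ≤ dM M) (q₁ q₂ : ℕ)
    (hp₁ : q₁.Prime) (hp₂ : q₂.Prime) (h3₁ : 3 ≤ q₁) (h3₂ : 3 ≤ q₂) (hne : q₁ ≠ q₂)
    (hq₁ : ¬ q₁ ∣ (kerM M).index) (hq₂ : ¬ q₂ ∣ (kerM M).index)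
    (hg : 4 * (dM M * dM M : ℕ) * (q₁ : ℝ) ^ 2 * log (9 * (dM M * dM M : ℕ)) ≤ g) :
    have : Fact q₂.Prime := ⟨hp₂⟩
    ((badC c M).card : ℝ) / 2 ^ g
      ≤ 4 * csum q₂ ((g : ℝ) / dM M) ^ dM M / (q₁ * q₂)
        + 4 / q₂ * (12 / q₁ + 26 * q₂ * √(dM M / g)) ^ dM M := by
  classical
  have hf1 : Fact q₁.Prime := ⟨hp₁⟩
  have hf2 : Fact q₂.Prime := ⟨hp₂⟩
  intro _
  have hft : Finite (Orb (kerM M) X) := Finite.of_surjective _
    (Pool.Agent.Lib.MP_938ce2_ag_h67.Orb.mk_surj (kerM M))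
  let _ : Fintype (Orb (kerM M) X) := Fintype.ofFinite _
  let _ : Fintype (QP (X := X) (kerM M)) := Fintype.ofFinite _
  let D := DD (X := X) (kerM M)
  have hcard : Fintype.card (QP (X := X) (kerM M)) = (kerM M).index := by
    have h0 : (DD (X := X) (kerM M)).φ.ker.index = (kerM M).index := by rw [DD_ker M]
    rw [← Nat.card_eq_fintype_card, ← h0, Subgroup.index_ker]
    have h1 : (DD (X := X) (kerM M)).φ.range = ⊤ :=
      MonoidHom.range_eq_top.mpr (DD (X := X) (kerM M)).hφ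
    rw [h1]
    exact Subgroup.card_top.symm
  rw [← hcard] at hq₁ hq₂
  have hMfac : Fac D M := DD_fac M M ⟨LinearEquiv.refl _ _⟩
  set n := dM M with hn
  set N := down D M with hN
  have hNr : finrank ℚ N = n := finrank_down D hMfac
  have hNE : finrank ℚ (N →ₗ[MonoidAlgebra ℚ (QP (X := X) (kerM M))] N) = 1 := by
    rw [hN, finrank_end_down D hMfac]
    exact hE
  have hNodd : OddM (D.φ c) N := odd_down D M hodd
  have hNH : finrank ℚ (N →ₗ[MonoidAlgebra ℚ (QP (X := X) (kerM M))]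
      VV ℚ (QP (X := X) (kerM M)) (Orb (kerM M) X)) ≤ n := (finrank_hom_down_le D hMfac).trans hH
  let _ : Fintype (UU N q₁) := Fintype.ofFinite _
  let _ : Fintype (UU N q₂) := Fintype.ofFinite _
  have hnR : (0 : ℝ) < n := by exact_mod_cast hm
  have hq1R : (3 : ℝ) ≤ q₁ := by exact_mod_cast h3₁
  have hq2R : (3 : ℝ) ≤ q₂ := by exact_mod_cast h3₂
  have hq10 : (0 : ℝ) < q₁ := by linarith
  have hq20 : (0 : ℝ) < q₂ := by linarith
  have hg0 : (0 : ℝ) < g := by exact_mod_cast hA.pos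
  have hfr₂ : ∀ U : UU N q₂, finrank (ZMod q₂) U.1 = n := fun U =>
    (Pool.Agent.Lib.MP_938ce2_ag_u5.finrank_UU N q₂ hq₂ U).trans hNr
  have hodd₂ : ∀ U : UU N q₂, OddM (D.φ c) U.1 := fun U => odd_of_iso D N hNodd hA.sq q₂ U.1 U.2
  have hu1 := card_UU_le6 D M hMfac hE hH hm q₁ h3₁ hq₁
  have hu2 := card_UU_le6 D M hMfac hE hH hm q₂ h3₂ hq₂
  set u₁ : ℝ := (Nat.card (UU N q₁) : ℝ) with hu₁
  set u₂ : ℝ := (Nat.card (UU N q₂) : ℝ) with hu₂
  have hcov := cover_two (g := g) (c := c) D M (DD_fac M) hq₁ hq₂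
  refine hcov.trans ?_
  set B := csum q₂ ((g : ℝ) / n) ^ n / (q₂ : ℝ) ^ n with hB
  set R : ℝ := (12 / q₂ + 26 * q₁ * √(n / g)) ^ n with hR
  have hB0 : 0 ≤ B := by
    have := Pool.Agent.Lib.MP_938ce2_ag_h67.csum_nonneg (q := q₂) ((g : ℝ) / n)
    positivity
  have hR0 : 0 ≤ R := by positivity
  have hterm : ∀ U₂ : UU N q₂, ∑ U₁ : UU N q₁, PC c g ((jc D U₂.1).coprod (jc D U₁.1))
      ≤ (u₁ * B + 2 * R) / (q₁ : ℝ) ^ n := by
    intro U₂
    let _ : Fintype U₂.1 := Fintype.ofFinite _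
    have hc2 : Fintype.card U₂.1 = q₂ ^ n := by
      have h3 := Module.card_eq_pow_finrank (K := ZMod q₂) (V := U₂.1)
      rw [h3, ZMod.card, hfr₂]
    have h1 := chain_count D hA N hNodd hNE (by omega : q₁ ≠ 2) hq₁ (n * n)
      (Nat.mul_pos hm hm) (by rw [hNr]; exact Nat.mul_le_mul_right _ hNH) hg (jc D U₂.1)
      (fun a x => by
        have h3 := hodd₂ U₂ a.1 a.2 (D.π x)
        rw [← D.comm] at h3
        rw [jc_apply, jc_apply, h3, map_neg])
      (by
        rw [hc2]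
        apply Nat.Coprime.pow_right
        apply Nat.Coprime.mul_left
        · rw [Nat.coprime_primes Nat.prime_two hp₂]
          omega
        · rw [Nat.coprime_primes hp₁ hp₂]
          exact hne)
    rw [hNr] at h1
    refine h1.trans ?_
    apply div_le_div_of_nonneg_right _ (by positivity)
    have h2 := PC_cs D hA (hp₂.odd_of_ne_two (by omega)) U₂.1 (hodd₂ U₂) n (hfr₂ U₂) hm
    have h3 := ps_coarse D hA (160 * q₁ ^ 2) (by nlinarith) U₂.1 n (hfr₂ U₂) hm
    have h4 : (12 / (q₂ : ℝ) + 2 * √((160 * q₁ ^ 2 : ℕ) * n / g)) ^ n ≤ R := by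
      rw [hR]
      apply pow_le_pow_left₀ (by positivity)
      have h5 : √(((160 * q₁ ^ 2 : ℕ) : ℝ) * n / g) = √160 * q₁ * √(n / g) := by
        push_cast
        rw [mul_div_assoc, Real.sqrt_mul (by positivity), Real.sqrt_mul (by norm_num),
          Real.sqrt_sq hq10.le]
      have h6 : √(160 : ℝ) ≤ 13 := by
        rw [Real.sqrt_le_left (by norm_num)]
        norm_num
      rw [h5]
      have h7 : 0 ≤ (q₁ : ℝ) * √((n : ℝ) / g) := by positivity
      nlinarith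
    have h5 := h3.trans h4
    have h6 : 0 ≤ u₁ := Nat.cast_nonneg _
    have h7 : u₁ * PC c g (jc D U₂.1) ≤ u₁ * B := mul_le_mul_of_nonneg_left h2 h6
    linarith
  calc ∑ U₂ : UU N q₂, ∑ U₁ : UU N q₁, PC c g ((jc D U₂.1).coprod (jc D U₁.1))
      ≤ ∑ _U₂ : UU N q₂, (u₁ * B + 2 * R) / (q₁ : ℝ) ^ n :=
        Finset.sum_le_sum fun U₂ _ => hterm U₂
    _ = u₂ * ((u₁ * B + 2 * R) / (q₁ : ℝ) ^ n) := by
        rw [Finset.sum_const, Finset.card_univ, nsmul_eq_mul, hu₂, Nat.card_eq_fintype_card]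
    _ ≤ (2 * (q₂ : ℝ) ^ (n - 1)) * ((2 * (q₁ : ℝ) ^ (n - 1) * B + 2 * R) / (q₁ : ℝ) ^ n) := by
        have h6 : 0 ≤ u₁ := Nat.cast_nonneg _
        apply mul_le_mul hu2 _ (by positivity) (by positivity)
        apply div_le_div_of_nonneg_right _ (by positivity)
        have := mul_le_mul_of_nonneg_right hu1 hB0
        linarith
    _ = 4 * csum q₂ ((g : ℝ) / n) ^ n / (q₁ * q₂)
        + 4 / q₂ * (12 / q₁ + 26 * q₂ * √(n / g)) ^ n := by
        have e1 : (q₁ : ℝ) ^ n = (q₁ : ℝ) ^ (n - 1) * q₁ := by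
          rw [← pow_succ]
          congr 1
          omega
        have e2 : (q₂ : ℝ) ^ n = (q₂ : ℝ) ^ (n - 1) * q₂ := by
          rw [← pow_succ]
          congr 1
          omega
        have e3 : (12 / (q₁ : ℝ) + 26 * q₂ * √(n / g)) ^ n * (q₁ : ℝ) ^ n
            = R * (q₂ : ℝ) ^ n := by
          rw [hR, ← mul_pow, ← mul_pow]
          congr 1
          field_simp
        have e4 : (12 / (q₁ : ℝ) + 26 * q₂ * √(n / g)) ^ n = R * (q₂ : ℝ) ^ n / (q₁ : ℝ) ^ n := by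
          rw [eq_div_iff (by positivity)]
          exact e3
        rw [e4, hB, e1, e2]
        field_simp
        ring

end

end Pool.Agent.Lib.MP_938ce2_ag_u6
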