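import Mathlib
import Pool.Agent.Lib.MP_938ce2_ag_u4.Main4
import Pool.Agent.Lib.MP_938ce2_ag_u6.TwoGen

/-!
Absolutely simple modules of large dimension: the bound `ε n² / g`.
-/

set_option autoImplicit false
set_option linter.unusedSectionVars false

namespace Pool.Agent.Lib.MP_938ce2_ag_u6

open Finset Real Module MonoidAlgebra
open Pool.Agent.Lib.MP_938ce2_ag_h67 (sg VV ev mkV Orb red kerM csum csum_le_refined csum_nonneg)
open Pool.Agent.Lib.MP_938ce2_ag_h60 (CMType)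
open Pool.Agent.Lib.MP_938ce2_ag_u2 (Act OddM badC mem_badC dM dE dH index_eq)

/-- logarithms against powers -/
theorem log_small (C a : ℝ) (hC : 0 ≤ C) (ha : 0 < a) : ∃ x₀ : ℝ, 1 ≤ x₀ ∧ ∀ x : ℝ, x₀ ≤ x →
    C * (1 + log x) ≤ x ^ a := by
  have h1 : Filter.Tendsto (fun x : ℝ => x ^ (a / 2)) Filter.atTop Filter.atTop :=
    tendsto_rpow_atTop (by linarith)
  obtain ⟨x₁, h2⟩ := Filter.eventually_atTop.1 (h1.eventually_ge_atTop (C * (1 + 2 / a)))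
  refine ⟨max 1 x₁, le_max_left _ _, fun x hx => ?_⟩
  have hx1 : 1 ≤ x := (le_max_left _ _).trans hx
  have hx0 : 0 < x := by linarith
  have h3 := h2 x ((le_max_right _ _).trans hx)
  have h4 := Real.log_le_rpow_div hx0.le (by linarith : 0 < a / 2)
  have h5 : 1 ≤ x ^ (a / 2) := Real.one_le_rpow hx1 (by linarith)
  have h6 : x ^ a = x ^ (a / 2) * x ^ (a / 2) := by
    rw [← Real.rpow_add hx0]
    congr 1
    ring
  have h7 : x ^ (a / 2) / (a / 2) = 2 / a * x ^ (a / 2) := by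
    field_simp
  rw [h7] at h4
  calc C * (1 + log x) ≤ C * (x ^ (a / 2) + 2 / a * x ^ (a / 2)) := by
        apply mul_le_mul_of_nonneg_left _ hC
        linarith
    _ = (C * (1 + 2 / a)) * x ^ (a / 2) := by ring
    _ ≤ x ^ (a / 2) * x ^ (a / 2) := mul_le_mul_of_nonneg_right h3 (by positivity)
    _ = x ^ a := h6.symm

/-- conditions on the dimension -/
theorem cond_n (ε : ℝ) (hε : 0 < ε) : ∃ x₀ : ℝ, 1 ≤ x₀ ∧ ∀ n : ℝ, x₀ ≤ n →
    64 ≤ n ^ (5 / 100 : ℝ) ∧ 3 * n * exp (-(n ^ (9 / 10 : ℝ))) ≤ 1 / 2 ∧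
    2 ^ 21 * √(log (9 * (n * n))) ≤ ε / 2 * n ^ (5 / 100 : ℝ) ∧
    26 * n ^ (-(45 / 100) : ℝ) ≤ 1 / 4 := by
  obtain ⟨x₁, hx₁, h1⟩ := log_small ((2 ^ 21) ^ 2 * 3 / (ε / 2) ^ 2) (10 / 100) (by positivity)
    (by norm_num)
  have t1 : Filter.Tendsto (fun x : ℝ => x ^ (5 / 100 : ℝ)) Filter.atTop Filter.atTop :=
    tendsto_rpow_atTop (by norm_num)
  obtain ⟨x₂, h2⟩ := Filter.eventually_atTop.1 (t1.eventually_ge_atTop 64)
  have t2 : Filter.Tendsto (fun x : ℝ => x ^ (8 / 10 : ℝ)) Filter.atTop Filter.atTop :=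
    tendsto_rpow_atTop (by norm_num)
  obtain ⟨x₃, h3⟩ := Filter.eventually_atTop.1 (t2.eventually_ge_atTop 12)
  have t3 : Filter.Tendsto (fun x : ℝ => x ^ (45 / 100 : ℝ)) Filter.atTop Filter.atTop :=
    tendsto_rpow_atTop (by norm_num)
  obtain ⟨x₄, h4⟩ := Filter.eventually_atTop.1 (t3.eventually_ge_atTop 104)
  refine ⟨max (max x₁ x₂) (max x₃ x₄), hx₁.trans ((le_max_left _ _).trans (le_max_left _ _)), ?_⟩
  intro n hn
  have g1 : x₁ ≤ n := ((le_max_left _ _).trans (le_max_left _ _)).trans hn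
  have g2 : x₂ ≤ n := ((le_max_right _ _).trans (le_max_left _ _)).trans hn
  have g3 : x₃ ≤ n := ((le_max_left _ _).trans (le_max_right _ _)).trans hn
  have g4 : x₄ ≤ n := ((le_max_right _ _).trans (le_max_right _ _)).trans hn
  have hn1 : 1 ≤ n := hx₁.trans g1
  have hn0 : 0 < n := by linarith
  refine ⟨h2 n g2, ?_, ?_, ?_⟩
  · set y := n ^ (9 / 10 : ℝ) with hy
    have hy0 : 0 < y := by positivity
    have h5 := Real.quadratic_le_exp_of_nonneg hy0.le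
    have h6 : y ^ 2 / 2 ≤ exp y := by nlinarith
    have h7 : y ^ 2 = n * n ^ (8 / 10 : ℝ) := by
      rw [hy, ← Real.rpow_natCast, ← Real.rpow_mul hn0.le]
      nth_rewrite 2 [← Real.rpow_one n]
      rw [← Real.rpow_add hn0]
      norm_num
    have h8 := h3 n g3
    have h9 : 6 * n ≤ exp y := by
      refine le_trans ?_ h6
      rw [h7]
      nlinarith
    rw [Real.exp_neg, mul_inv_le_iff₀ (exp_pos _)]
    linarith
  · have h5 := h1 n g1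
    have h6 : log (9 * (n * n)) ≤ 3 * (1 + log n) := by
      rw [Real.log_mul (by norm_num) (by positivity), Real.log_mul hn0.ne' hn0.ne']
      have h7 : log 9 ≤ 3 := by
        have h8 : (9 : ℝ) = 3 ^ 2 := by norm_num
        rw [h8, Real.log_pow]
        have h9 : log 3 ≤ 3 / 2 := by
          rw [Real.log_le_iff_le_exp (by norm_num)]
          have h10 := Real.quadratic_le_exp_of_nonneg (by norm_num : (0 : ℝ) ≤ 3 / 2)
          nlinarith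
        push_cast
        linarith
      have h8 := Real.log_nonneg hn1
      linarith
    have h7 : (2 ^ 21) ^ 2 * log (9 * (n * n)) ≤ (ε / 2) ^ 2 * n ^ (10 / 100 : ℝ) := by
      calc (2 ^ 21) ^ 2 * log (9 * (n * n)) ≤ (2 ^ 21) ^ 2 * (3 * (1 + log n)) :=
            mul_le_mul_of_nonneg_left h6 (by positivity)
        _ = (ε / 2) ^ 2 * ((2 ^ 21) ^ 2 * 3 / (ε / 2) ^ 2 * (1 + log n)) := by
            field_simp
        _ ≤ (ε / 2) ^ 2 * n ^ (10 / 100 : ℝ) := mul_le_mul_of_nonneg_left h5 (by positivity)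
    have h8 : 0 ≤ log (9 * (n * n)) := Real.log_nonneg (by nlinarith)
    refine le_of_sq_le_sq ?_ (by positivity)
    rw [mul_pow, mul_pow, Real.sq_sqrt h8]
    have h9 : (n ^ (5 / 100 : ℝ)) ^ 2 = n ^ (10 / 100 : ℝ) := by
      rw [← Real.rpow_natCast, ← Real.rpow_mul hn0.le]
      norm_num
    rw [h9]
    exact h7
  · have h5 := h4 n g4
    rw [Real.rpow_neg hn0.le, ← div_eq_mul_inv, div_le_iff₀ (by positivity)]
    linarith

/-- conditions on `g` -/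
theorem cond_g (ε : ℝ) (hε : 0 < ε) : ∃ x₀ : ℝ, 1 ≤ x₀ ∧ ∀ g : ℝ, x₀ ≤ g →
    (g ^ (13 / 100 : ℝ) + 1) * (2 ^ 10 * √(log (9 * g))) ≤ g ^ (16 / 100 : ℝ) ∧
    (g ^ (13 / 100 : ℝ) + 1) * 2 ^ 8 ≤ g ^ (17 / 100 : ℝ) ∧
    48 ≤ g ^ (13 / 100 : ℝ) ∧ 2 * g < g ^ (104 / 100 : ℝ) ∧
    ∀ n : ℕ, g ^ (1 / 100 : ℝ) ≤ n → 8 * g * (1 / 2) ^ n ≤ ε := by
  obtain ⟨x₁, hx₁, h1⟩ := log_small ((2 ^ 11) ^ 2 * 3) (6 / 100) (by positivity)
    (by norm_num)
  obtain ⟨x₂, hx₂, h2⟩ := log_small ((1 + |log (8 / ε)|) / log 2) (1 / 100)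
    (div_nonneg (by positivity) (Real.log_nonneg (by norm_num))) (by norm_num)
  have t1 : Filter.Tendsto (fun x : ℝ => x ^ (4 / 100 : ℝ)) Filter.atTop Filter.atTop :=
    tendsto_rpow_atTop (by norm_num)
  obtain ⟨x₃, h3⟩ := Filter.eventually_atTop.1 (t1.eventually_ge_atTop (2 ^ 9))
  refine ⟨max x₁ (max x₂ x₃), hx₁.trans (le_max_left _ _), ?_⟩
  intro g hg
  have g1 : x₁ ≤ g := (le_max_left _ _).trans hg
  have g2 : x₂ ≤ g := ((le_max_left _ _).trans (le_max_right _ _)).trans hg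
  have g3 : x₃ ≤ g := ((le_max_right _ _).trans (le_max_right _ _)).trans hg
  have hg1 : 1 ≤ g := hx₁.trans g1
  have hg0 : 0 < g := by linarith
  have hb : (2 : ℝ) ^ 9 ≤ g ^ (4 / 100 : ℝ) := h3 g g3
  have hp : (1 : ℝ) ≤ g ^ (13 / 100 : ℝ) := Real.one_le_rpow hg1 (by norm_num)
  have hlog9 : log (9 * g) ≤ 3 * (1 + log g) := by
    rw [Real.log_mul (by norm_num) hg0.ne']
    have h7 : log 9 ≤ 3 := by
      have h8 : (9 : ℝ) = 3 ^ 2 := by norm_num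
      rw [h8, Real.log_pow]
      have h9 : log 3 ≤ 3 / 2 := by
        rw [Real.log_le_iff_le_exp (by norm_num)]
        have h10 := Real.quadratic_le_exp_of_nonneg (by norm_num : (0 : ℝ) ≤ 3 / 2)
        nlinarith
      push_cast
      linarith
    have h8 := Real.log_nonneg hg1
    linarith
  have hlog0 : 0 ≤ log (9 * g) := Real.log_nonneg (by linarith)
  refine ⟨?_, ?_, ?_, ?_, ?_⟩
  · have h4 : 2 ^ 11 * √(log (9 * g)) ≤ g ^ (3 / 100 : ℝ) := by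
      refine le_of_sq_le_sq ?_ (by positivity)
      rw [mul_pow, Real.sq_sqrt hlog0]
      have h9 : (g ^ (3 / 100 : ℝ)) ^ 2 = g ^ (6 / 100 : ℝ) := by
        rw [← Real.rpow_natCast, ← Real.rpow_mul hg0.le]
        norm_num
      rw [h9]
      refine le_trans ?_ (h1 g g1)
      nlinarith
    have h5 : g ^ (16 / 100 : ℝ) = g ^ (13 / 100 : ℝ) * g ^ (3 / 100 : ℝ) := by
      rw [← Real.rpow_add hg0]
      norm_num
    rw [h5]
    have h6 : 0 ≤ √(log (9 * g)) := Real.sqrt_nonneg _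
    calc (g ^ (13 / 100 : ℝ) + 1) * (2 ^ 10 * √(log (9 * g)))
        ≤ (2 * g ^ (13 / 100 : ℝ)) * (2 ^ 10 * √(log (9 * g))) := by
          apply mul_le_mul_of_nonneg_right _ (by positivity)
          linarith
      _ = g ^ (13 / 100 : ℝ) * (2 ^ 11 * √(log (9 * g))) := by ring
      _ ≤ _ := mul_le_mul_of_nonneg_left h4 (by positivity)
  · have h5 : g ^ (17 / 100 : ℝ) = g ^ (13 / 100 : ℝ) * g ^ (4 / 100 : ℝ) := by
      rw [← Real.rpow_add hg0]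
      norm_num
    rw [h5]
    nlinarith
  · have h5 : g ^ (4 / 100 : ℝ) ≤ g ^ (13 / 100 : ℝ) :=
      Real.rpow_le_rpow_of_exponent_le hg1 (by norm_num)
    linarith
  · have h5 : g ^ (104 / 100 : ℝ) = g * g ^ (4 / 100 : ℝ) := by
      nth_rewrite 2 [← Real.rpow_one g]
      rw [← Real.rpow_add hg0]
      norm_num
    rw [h5]
    nlinarith
  · intro n hn
    have h4 := (h2 g g2).trans hn
    have hl2 : 0 < log 2 := Real.log_pos (by norm_num)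
    rw [div_mul_eq_mul_div, div_le_iff₀ hl2] at h4
    have h5 : log (8 / ε) + log g ≤ n * log 2 := by
      refine le_trans ?_ h4
      have h6 := le_abs_self (log (8 / ε))
      have h7 := Real.log_nonneg hg1
      have h8 := abs_nonneg (log (8 / ε))
      nlinarith
    have h6 : 8 / ε * g ≤ 2 ^ n := by
      have h7 := exp_le_exp.mpr h5
      rw [Real.exp_add, Real.exp_log (by positivity), Real.exp_log hg0, mul_comm (n : ℝ) (log 2),
        Real.exp_mul, Real.exp_log (by norm_num), Real.rpow_natCast] at h7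
      exact h7
    rw [div_pow, one_pow, mul_one_div, div_le_iff₀ (by positivity)]
    rw [div_mul_eq_mul_div, div_le_iff₀ hε] at h6
    linarith

/-- the numeric part -/
theorem num_two (ε : ℝ) (hε : 0 < ε) : ∃ g₀ : ℕ, ∀ (g n o : ℕ) (N : ℝ), g₀ ≤ g → 1 ≤ g →
    (g : ℝ) ^ (1 / 100 : ℝ) ≤ n → (n : ℝ) ≤ (g : ℝ) ^ (34 / 100 : ℝ) → 1 ≤ o → o ≤ 2 * g →
    (∀ (q₁ q₂ : ℕ) (hp₁ : q₁.Prime) (hp₂ : q₂.Prime), 3 ≤ q₁ → 3 ≤ q₂ → q₁ ≠ q₂ →
      ¬ q₁ ∣ o → ¬ q₂ ∣ o → 4 * (n * n : ℕ) * (q₁ : ℝ) ^ 2 * log (9 * (n * n : ℕ)) ≤ g →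
      have : Fact q₂.Prime := ⟨hp₂⟩
      N ≤ 4 * csum q₂ ((g : ℝ) / n) ^ n / (q₁ * q₂)
        + 4 / q₂ * (12 / q₁ + 26 * q₂ * √(n / g)) ^ n) →
    N ≤ ε * ((n : ℝ) ^ 2 / g) := by
  obtain ⟨x₁, hx₁, h1⟩ := cond_n ε hε
  obtain ⟨x₂, hx₂, h2⟩ := cond_g ε hε
  have t1 : Filter.Tendsto (fun x : ℕ => (x : ℝ) ^ (1 / 100 : ℝ)) Filter.atTop Filter.atTop :=
    (tendsto_rpow_atTop (by norm_num)).comp tendsto_natCast_atTop_atTop
  obtain ⟨g₁, h3⟩ := Filter.eventually_atTop.1 (t1.eventually_ge_atTop x₁)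
  refine ⟨max g₁ ⌈x₂⌉₊, ?_⟩
  intro g n o N hg hg1 hn hn2 ho1 ho2 H
  have hgx : x₂ ≤ g := by
    have h4 := Nat.le_ceil x₂
    have h5 : ((⌈x₂⌉₊ : ℕ) : ℝ) ≤ g := by exact_mod_cast (le_max_right _ _).trans hg
    linarith
  have hgR : (1 : ℝ) ≤ g := by exact_mod_cast hg1
  have hg0 : (0 : ℝ) < g := by linarith
  have hnx : x₁ ≤ n := (h3 g ((le_max_left _ _).trans hg)).trans hn
  have hn1 : (1 : ℝ) ≤ n := hx₁.trans hnx
  have hn0 : (0 : ℝ) < n := by linarith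
  obtain ⟨a1, a2, a3, a4⟩ := h1 n hnx
  obtain ⟨b1, b2, b3, b4, b5⟩ := h2 g hgx
  set s : ℝ := √(g : ℝ) with hs
  have hss : s ^ 2 = g := Real.sq_sqrt hg0.le
  have hs0 : 0 < s := Real.sqrt_pos.mpr hg0
  have hsr : s = (g : ℝ) ^ (1 / 2 : ℝ) := Real.sqrt_eq_rpow _
  set L : ℝ := log (9 * ((n : ℝ) * n)) with hL
  have hL1 : 1 ≤ L := by
    rw [hL, Real.le_log_iff_exp_le (by positivity)]
    have := Real.exp_one_lt_d9
    nlinarith
  have hLg : L ≤ log (9 * g) := by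
    rw [hL]
    apply Real.log_le_log (by positivity)
    have h4 : (n : ℝ) * n ≤ g := by
      calc (n : ℝ) * n ≤ (g : ℝ) ^ (34 / 100 : ℝ) * (g : ℝ) ^ (34 / 100 : ℝ) :=
            mul_le_mul hn2 hn2 hn0.le (by positivity)
        _ = (g : ℝ) ^ (68 / 100 : ℝ) := by
            rw [← Real.rpow_add hg0]
            norm_num
        _ ≤ (g : ℝ) ^ (1 : ℝ) := Real.rpow_le_rpow_of_exponent_le hgR (by norm_num)
        _ = g := Real.rpow_one _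
    linarith
  have hsL : 1 ≤ √L := by
    rw [Real.one_le_sqrt]
    exact hL1
  have hsL0 : 0 < √L := by linarith
  have hsLg : √L ≤ √(log (9 * g)) := Real.sqrt_le_sqrt hLg
  set z₁ : ℝ := s / (2 ^ 10 * n * √L) with hz₁
  set z₂ : ℝ := s * (n : ℝ) ^ (-(95 / 100) : ℝ) / 2 ^ 8 with hz₂
  have hz1a : (g : ℝ) ^ (13 / 100 : ℝ) + 1 ≤ z₁ := by
    rw [hz₁, le_div_iff₀ (by positivity)]
    have h5 : s = (g : ℝ) ^ (16 / 100 : ℝ) * (g : ℝ) ^ (34 / 100 : ℝ) := by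
      rw [hsr, ← Real.rpow_add hg0]
      norm_num
    rw [h5]
    calc ((g : ℝ) ^ (13 / 100 : ℝ) + 1) * (2 ^ 10 * n * √L)
        = (((g : ℝ) ^ (13 / 100 : ℝ) + 1) * (2 ^ 10 * √L)) * n := by ring
      _ ≤ (((g : ℝ) ^ (13 / 100 : ℝ) + 1) * (2 ^ 10 * √(log (9 * g)))) * n := by
          apply mul_le_mul_of_nonneg_right _ hn0.le
          apply mul_le_mul_of_nonneg_left _ (by positivity)
          linarith
      _ ≤ (g : ℝ) ^ (16 / 100 : ℝ) * (g : ℝ) ^ (34 / 100 : ℝ) :=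
          mul_le_mul b1 hn2 hn0.le (by positivity)
  have hz2a : (g : ℝ) ^ (13 / 100 : ℝ) + 1 ≤ z₂ := by
    rw [hz₂, le_div_iff₀ (by positivity)]
    refine b2.trans ?_
    have h5 : s = (g : ℝ) ^ (17 / 100 : ℝ) * (g : ℝ) ^ (33 / 100 : ℝ) := by
      rw [hsr, ← Real.rpow_add hg0]
      norm_num
    have h6 : (n : ℝ) ^ (95 / 100 : ℝ) ≤ (g : ℝ) ^ (33 / 100 : ℝ) := by
      calc (n : ℝ) ^ (95 / 100 : ℝ) ≤ ((g : ℝ) ^ (34 / 100 : ℝ)) ^ (95 / 100 : ℝ) :=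
            Real.rpow_le_rpow hn0.le hn2 (by norm_num)
        _ = (g : ℝ) ^ (34 / 100 * (95 / 100) : ℝ) := by rw [← Real.rpow_mul hg0.le]
        _ ≤ (g : ℝ) ^ (33 / 100 : ℝ) := Real.rpow_le_rpow_of_exponent_le hgR (by norm_num)
    rw [Real.rpow_neg hn0.le, ← div_eq_mul_inv, le_div_iff₀ (by positivity), h5]
    exact mul_le_mul_of_nonneg_left h6 (by positivity)
  have hfl : ∀ z : ℝ, (g : ℝ) ^ (13 / 100 : ℝ) + 1 ≤ z → ∃ q : ℕ, q.Prime ∧ ¬ q ∣ o ∧ 3 ≤ q ∧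
      z ≤ q ∧ (q : ℝ) ≤ 2 ^ 8 * z := by
    intro z hz
    have hz0 : 0 ≤ z := by
      have : 0 ≤ (g : ℝ) ^ (13 / 100 : ℝ) := by positivity
      linarith
    have h4 : (g : ℝ) ^ (13 / 100 : ℝ) ≤ (⌊z⌋₊ : ℝ) := by
      have := Nat.lt_floor_add_one z
      linarith
    have h5 : (48 : ℝ) ≤ (⌊z⌋₊ : ℝ) := b3.trans h4
    have h5' : 48 ≤ ⌊z⌋₊ := by exact_mod_cast h5
    have h6 : o < ⌊z⌋₊ ^ 8 := by
      have h7 : (o : ℝ) < (⌊z⌋₊ : ℝ) ^ 8 := by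
        calc (o : ℝ) ≤ 2 * g := by exact_mod_cast ho2
          _ < (g : ℝ) ^ (104 / 100 : ℝ) := b4
          _ = ((g : ℝ) ^ (13 / 100 : ℝ)) ^ 8 := by
              rw [← Real.rpow_natCast, ← Real.rpow_mul hg0.le]
              norm_num
          _ ≤ (⌊z⌋₊ : ℝ) ^ 8 := pow_le_pow_left₀ (by positivity) h4 8
      exact_mod_cast h7
    obtain ⟨q, hq, hl, hu, hnd⟩ := exists_prime_k 8 ⌊z⌋₊ o (by omega) ho1 h6
    refine ⟨q, hq, hnd, by omega, ?_, ?_⟩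
    · have h7 := Nat.lt_floor_add_one z
      have h8 : ((⌊z⌋₊ : ℕ) : ℝ) + 1 ≤ q := by exact_mod_cast hl
      linarith
    · have h7 : (q : ℝ) ≤ 2 ^ 8 * (⌊z⌋₊ : ℝ) := by exact_mod_cast hu
      have h8 := Nat.floor_le hz0
      nlinarith
  obtain ⟨q₁, hp₁, hnd₁, h3₁, hl₁, hu₁⟩ := hfl z₁ hz1a
  obtain ⟨q₂, hp₂, hnd₂, h3₂, hl₂, hu₂⟩ := hfl z₂ hz2a
  have hu₁' : (q₁ : ℝ) ≤ s / (4 * n * √L) := by
    refine hu₁.trans (le_of_eq ?_)
    rw [hz₁]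
    field_simp
    norm_num
  have hu₂' : (q₂ : ℝ) ≤ s * (n : ℝ) ^ (-(95 / 100) : ℝ) := by
    refine hu₂.trans (le_of_eq ?_)
    rw [hz₂]
    field_simp
  have hq10 : (0 : ℝ) < q₁ := by exact_mod_cast hp₁.pos
  have hq20 : (0 : ℝ) < q₂ := by exact_mod_cast hp₂.pos
  have hn95 : (n : ℝ) ^ (95 / 100 : ℝ) * (n : ℝ) ^ (5 / 100 : ℝ) = n := by
    rw [← Real.rpow_add hn0]
    norm_num
  have hne : q₁ ≠ q₂ := by
    intro h
    rw [h] at hu₁'
    have h4 : z₂ ≤ s / (4 * n * √L) := hl₂.trans hu₁'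
    rw [hz₂, Real.rpow_neg hn0.le, ← div_eq_mul_inv, div_div,
      div_le_div_iff_of_pos_left hs0 (by positivity) (by positivity)] at h4
    have h5 : 0 < (n : ℝ) ^ (95 / 100 : ℝ) := by positivity
    have h6 : (n : ℝ) ^ (95 / 100 : ℝ) * 2 ^ 8 < 4 * n * √L := by
      calc (n : ℝ) ^ (95 / 100 : ℝ) * 2 ^ 8
          = 4 * ((n : ℝ) ^ (95 / 100 : ℝ) * 64) := by ring
        _ ≤ 4 * ((n : ℝ) ^ (95 / 100 : ℝ) * (n : ℝ) ^ (5 / 100 : ℝ)) := by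
            apply mul_le_mul_of_nonneg_left _ (by norm_num)
            exact mul_le_mul_of_nonneg_left a1 h5.le
        _ = 4 * n := by rw [hn95]
        _ < 4 * n * √L := by
            have h7 : 1 < √L := by
              rw [Real.lt_sqrt (by norm_num), one_pow, hL, Real.lt_log_iff_exp_lt (by positivity)]
              have := Real.exp_one_lt_d9
              nlinarith
            nlinarith
    linarith
  have hcond : 4 * (n * n : ℕ) * (q₁ : ℝ) ^ 2 * log (9 * (n * n : ℕ)) ≤ g := by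
    push_cast
    rw [← hL]
    have h4 : (q₁ : ℝ) ^ 2 ≤ (s / (4 * n * √L)) ^ 2 := pow_le_pow_left₀ hq10.le hu₁' 2
    have h5 : (s / (4 * n * √L)) ^ 2 = g / (16 * (n * n) * L) := by
      rw [div_pow, mul_pow, mul_pow, hss, Real.sq_sqrt (by linarith : (0 : ℝ) ≤ L)]
      ring
    rw [h5] at h4
    calc 4 * ((n : ℝ) * n) * (q₁ : ℝ) ^ 2 * L ≤ 4 * ((n : ℝ) * n) * (g / (16 * (n * n) * L)) * L := by
          apply mul_le_mul_of_nonneg_right _ (by linarith)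
          exact mul_le_mul_of_nonneg_left h4 (by positivity)
      _ = g / 4 := by
          field_simp
          norm_num
      _ ≤ g := by linarith
  have hf2 : Fact q₂.Prime := ⟨hp₂⟩
  have hN := H q₁ q₂ hp₁ hp₂ h3₁ h3₂ hne hnd₁ hnd₂ hcond
  refine hN.trans ?_
  -- the first term
  have hq2sq : (q₂ : ℝ) ^ 2 * (n : ℝ) ^ (9 / 10 : ℝ) ≤ (g : ℝ) / n := by
    have h4 : (q₂ : ℝ) ^ 2 ≤ (s * (n : ℝ) ^ (-(95 / 100) : ℝ)) ^ 2 :=
      pow_le_pow_left₀ hq20.le hu₂' 2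
    have h5 : (s * (n : ℝ) ^ (-(95 / 100) : ℝ)) ^ 2 = g * (n : ℝ) ^ (-(19 / 10) : ℝ) := by
      rw [mul_pow, hss, ← Real.rpow_natCast, ← Real.rpow_mul hn0.le]
      norm_num
    have h6 : (n : ℝ) ^ (-(19 / 10) : ℝ) * (n : ℝ) ^ (9 / 10 : ℝ) = (n : ℝ)⁻¹ := by
      rw [← Real.rpow_add hn0, ← Real.rpow_neg_one]
      norm_num
    rw [h5] at h4
    calc (q₂ : ℝ) ^ 2 * (n : ℝ) ^ (9 / 10 : ℝ)
        ≤ (g * (n : ℝ) ^ (-(19 / 10) : ℝ)) * (n : ℝ) ^ (9 / 10 : ℝ) :=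
          mul_le_mul_of_nonneg_right h4 (by positivity)
      _ = g * ((n : ℝ) ^ (-(19 / 10) : ℝ) * (n : ℝ) ^ (9 / 10 : ℝ)) := by ring
      _ = g / n := by rw [h6, div_eq_mul_inv]
  have hn9 : 1 ≤ (n : ℝ) ^ (9 / 10 : ℝ) := Real.one_le_rpow hn1 (by norm_num)
  have hcs : csum q₂ ((g : ℝ) / n) ^ n ≤ 2 := by
    have h4 := csum_le_refined (q := q₂) (hp₂.odd_of_ne_two (by omega))
      (ρ := (g : ℝ) / n) (by nlinarith [sq_nonneg (q₂ : ℝ)])
    have h5 : exp (-((g : ℝ) / n / (q₂ : ℝ) ^ 2)) ≤ exp (-((n : ℝ) ^ (9 / 10 : ℝ))) := by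
      apply exp_le_exp.mpr
      rw [neg_le_neg_iff, le_div_iff₀ (by positivity)]
      linarith
    have h6 : csum q₂ ((g : ℝ) / n) ≤ exp (3 * exp (-((n : ℝ) ^ (9 / 10 : ℝ)))) := by
      have h7 := Real.add_one_le_exp (3 * exp (-((n : ℝ) ^ (9 / 10 : ℝ))))
      linarith
    refine (pow_le_pow_left₀ (csum_nonneg _) h6 n).trans ?_
    rw [← Real.exp_nat_mul]
    have h7 : (n : ℝ) * (3 * exp (-((n : ℝ) ^ (9 / 10 : ℝ)))) ≤ 1 / 2 := by
      refine le_trans (le_of_eq ?_) a2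
      ring
    refine (exp_le_exp.mpr h7).trans ?_
    have h8 : exp (1 / 2 : ℝ) ^ 2 = exp 1 := by
      rw [← Real.exp_nat_mul]
      norm_num
    have h9 := Real.exp_one_lt_d9
    have h10 := exp_pos (1 / 2 : ℝ)
    nlinarith
  have hT1 : 4 * csum q₂ ((g : ℝ) / n) ^ n / (q₁ * q₂) ≤ ε / 2 * ((n : ℝ) ^ 2 / g) := by
    have h4 : z₁ * z₂ ≤ q₁ * q₂ := mul_le_mul hl₁ hl₂ (by positivity) hq10.le
    have h5 : 0 < z₁ * z₂ := by positivity
    have h6 : 8 / (z₁ * z₂) = 2 ^ 21 * √L * (n ^ (95 / 100 : ℝ) * n) / g := by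
      rw [hz₁, hz₂, Real.rpow_neg hn0.le, ← hss]
      field_simp
      norm_num
    calc 4 * csum q₂ ((g : ℝ) / n) ^ n / (q₁ * q₂) ≤ 8 / (q₁ * q₂) := by
          apply div_le_div_of_nonneg_right _ (by positivity)
          linarith
      _ ≤ 8 / (z₁ * z₂) := div_le_div_of_nonneg_left (by norm_num) h5 h4
      _ = 2 ^ 21 * √L * (n ^ (95 / 100 : ℝ) * n) / g := h6
      _ ≤ (ε / 2 * n ^ (5 / 100 : ℝ)) * (n ^ (95 / 100 : ℝ) * n) / g := by
          apply div_le_div_of_nonneg_right _ hg0.le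
          exact mul_le_mul_of_nonneg_right a3 (by positivity)
      _ = ε / 2 * ((n : ℝ) ^ 2 / g) := by
          have h7 : (ε / 2 * (n : ℝ) ^ (5 / 100 : ℝ)) * (n ^ (95 / 100 : ℝ) * n)
              = ε / 2 * ((n ^ (95 / 100 : ℝ) * n ^ (5 / 100 : ℝ)) * n) := by ring
          rw [h7, hn95]
          ring
  have hT2 : 4 / (q₂ : ℝ) * (12 / q₁ + 26 * q₂ * √(n / g)) ^ n ≤ ε / 2 * ((n : ℝ) ^ 2 / g) := by
    have h4 : 26 * (q₂ : ℝ) * √((n : ℝ) / g) ≤ 1 / 4 := by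
      have h5 : √((n : ℝ) / g) = (n : ℝ) ^ (1 / 2 : ℝ) / s := by
        rw [Real.sqrt_div hn0.le, Real.sqrt_eq_rpow (n : ℝ)]
      rw [h5]
      have h6 : (n : ℝ) ^ (-(95 / 100) : ℝ) * (n : ℝ) ^ (1 / 2 : ℝ) = (n : ℝ) ^ (-(45 / 100) : ℝ) := by
        rw [← Real.rpow_add hn0]
        norm_num
      calc 26 * (q₂ : ℝ) * ((n : ℝ) ^ (1 / 2 : ℝ) / s)
          ≤ 26 * (s * (n : ℝ) ^ (-(95 / 100) : ℝ)) * ((n : ℝ) ^ (1 / 2 : ℝ) / s) := by
            apply mul_le_mul_of_nonneg_right _ (by positivity)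
            linarith
        _ = 26 * ((n : ℝ) ^ (-(95 / 100) : ℝ) * (n : ℝ) ^ (1 / 2 : ℝ)) := by
            field_simp
        _ ≤ 1 / 4 := by rw [h6]; exact a4
    have h5 : 12 / (q₁ : ℝ) ≤ 1 / 4 := by
      rw [div_le_div_iff₀ hq10 (by norm_num)]
      have h6 : (48 : ℝ) ≤ q₁ := by linarith
      linarith
    have h6 : (12 / (q₁ : ℝ) + 26 * q₂ * √(n / g)) ^ n ≤ (1 / 2) ^ n := by
      apply pow_le_pow_left₀ (by positivity)
      linarith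
    have h7 : 4 / (q₂ : ℝ) ≤ 4 := by
      rw [div_le_iff₀ hq20]
      have h8 : (3 : ℝ) ≤ q₂ := by exact_mod_cast h3₂
      linarith
    have h8 := b5 n hn
    calc 4 / (q₂ : ℝ) * (12 / q₁ + 26 * q₂ * √(n / g)) ^ n ≤ 4 * (1 / 2) ^ n :=
          mul_le_mul h7 h6 (by positivity) (by norm_num)
      _ ≤ ε / 2 * (1 / g) := by
          rw [mul_one_div, le_div_iff₀ hg0]
          linarith
      _ ≤ ε / 2 * ((n : ℝ) ^ 2 / g) := by
          apply mul_le_mul_of_nonneg_left _ (by positivity)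
          apply div_le_div_of_nonneg_right _ hg0.le
          nlinarith
  linarith

/-- very large dimension -/
theorem num_sharp (C₀ ε : ℝ) (hC : 0 < C₀) (hε : 0 < ε) : ∃ g₀ : ℕ, ∀ (g n : ℕ) (N : ℝ), g₀ ≤ g →
    1 ≤ g → (g : ℝ) ^ (34 / 100 : ℝ) ≤ n → n * n ≤ 4 * g →
    N ≤ C₀ * √(n * (1 + log n) / g) → N ≤ ε * ((n : ℝ) ^ 2 / g) := by
  obtain ⟨x₁, hx₁, h1⟩ := log_small (4 * (C₀ / ε) ^ 2) (2 / 100) (by positivity) (by norm_num)
  refine ⟨⌈x₁⌉₊, ?_⟩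
  intro g n N hg hg1 hn hnn hN
  have hgx : x₁ ≤ g := by
    have h4 := Nat.le_ceil x₁
    have h5 : ((⌈x₁⌉₊ : ℕ) : ℝ) ≤ g := by exact_mod_cast hg
    linarith
  have hgR : (1 : ℝ) ≤ g := by exact_mod_cast hg1
  have hg0 : (0 : ℝ) < g := by linarith
  have hn1 : (1 : ℝ) ≤ n := (Real.one_le_rpow hgR (by norm_num)).trans hn
  have hn0 : (0 : ℝ) < n := by linarith
  refine hN.trans ?_
  have h2 := h1 g hgx
  have hlg := Real.log_nonneg hgR
  have h3 : 1 + log n ≤ 4 * (1 + log g) := by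
    have h4 : (n : ℝ) ≤ 4 * g := by
      have h5 : (n : ℝ) * n ≤ 4 * g := by exact_mod_cast hnn
      nlinarith
    have h5 := Real.log_le_log hn0 h4
    rw [Real.log_mul (by norm_num) hg0.ne'] at h5
    have h6 : log 4 ≤ 2 := by
      have h7 : (4 : ℝ) = 2 ^ 2 := by norm_num
      rw [h7, Real.log_pow]
      have := Real.log_two_lt_d9
      push_cast
      linarith
    linarith
  have h4 : (C₀ / ε) ^ 2 * (1 + log n) ≤ (g : ℝ) ^ (2 / 100 : ℝ) := by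
    refine le_trans ?_ h2
    calc (C₀ / ε) ^ 2 * (1 + log n) ≤ (C₀ / ε) ^ 2 * (4 * (1 + log g)) :=
          mul_le_mul_of_nonneg_left h3 (by positivity)
      _ = 4 * (C₀ / ε) ^ 2 * (1 + log g) := by ring
  have h5 : (g : ℝ) ^ (2 / 100 : ℝ) * g ≤ (n : ℝ) ^ 3 := by
    calc (g : ℝ) ^ (2 / 100 : ℝ) * g = (g : ℝ) ^ (102 / 100 : ℝ) := by
          nth_rewrite 2 [← Real.rpow_one (g : ℝ)]
          rw [← Real.rpow_add hg0]
          norm_num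
      _ = ((g : ℝ) ^ (34 / 100 : ℝ)) ^ 3 := by
          rw [← Real.rpow_natCast, ← Real.rpow_mul hg0.le]
          norm_num
      _ ≤ (n : ℝ) ^ 3 := pow_le_pow_left₀ (by positivity) hn 3
  have h6 : 0 ≤ 1 + log n := by
    have := Real.log_nonneg hn1
    linarith
  have h7 : √((n : ℝ) * (1 + log n) / g) ≤ ε / C₀ * ((n : ℝ) ^ 2 / g) := by
    refine Real.sqrt_le_iff.mpr ⟨by positivity, ?_⟩
    rw [div_le_iff₀ hg0]
    have h8 : (ε / C₀ * ((n : ℝ) ^ 2 / g)) ^ 2 * g = (ε / C₀) ^ 2 * n * ((n : ℝ) ^ 3 / g) := by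
      field_simp
    rw [h8]
    have h9 : (C₀ / ε) ^ 2 * (1 + log n) ≤ (n : ℝ) ^ 3 / g := by
      rw [le_div_iff₀ hg0]
      exact (mul_le_mul_of_nonneg_right h4 hg0.le).trans h5
    calc (n : ℝ) * (1 + log n) = (ε / C₀) ^ 2 * n * ((C₀ / ε) ^ 2 * (1 + log n)) := by
          field_simp
      _ ≤ _ := mul_le_mul_of_nonneg_left h9 (by positivity)
  calc C₀ * √((n : ℝ) * (1 + log n) / g) ≤ C₀ * (ε / C₀ * ((n : ℝ) ^ 2 / g)) :=
        mul_le_mul_of_nonneg_left h7 hC.le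
    _ = ε * ((n : ℝ) ^ 2 / g) := by
        field_simp

open Pool.Agent.Lib.MP_938ce2_ag_u4 (card_orb_le sharp_bad sharp) in
/-- large dimension -/
theorem big_n (ε : ℝ) (hε : 0 < ε) : ∃ g₀ : ℕ, ∀ (G X : Type) [Group G] [Fintype G]
    [MulAction G X] [Fintype X] [DecidableEq X] [MulAction.IsPretransitive G X] (c : G) (g : ℕ),
    Act G X c g → g₀ ≤ g → ∀ M : Submodule (MonoidAlgebra ℚ G) (VV ℚ G X),
    IsSimpleModule (MonoidAlgebra ℚ G) M → OddM c M → dE M = 1 → dH M = dM M →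
    dM M * dM M ≤ 2 * g → (g : ℝ) ^ (1 / 100 : ℝ) ≤ dM M →
    ((badC c M).card : ℝ) / 2 ^ g ≤ ε * ((dM M : ℝ) ^ 2 / g) := by
  obtain ⟨C₀, hC0, g₁, hC⟩ := sharp
  obtain ⟨g₂, h2⟩ := num_two ε hε
  obtain ⟨g₃, h3⟩ := num_sharp C₀ ε hC0 hε
  refine ⟨max g₁ (max g₂ g₃), ?_⟩
  intro G X _ _ _ _ _ _ c g hA hg M hs hodd hE hH hmm hn
  have hg1 : g₁ ≤ g := (le_max_left _ _).trans hg
  have hg2 : g₂ ≤ g := ((le_max_left _ _).trans (le_max_right _ _)).trans hg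
  have hg3 : g₃ ≤ g := ((le_max_right _ _).trans (le_max_right _ _)).trans hg
  have hm : 0 < dM M := Pool.Agent.Lib.MP_938ce2_ag_u3.dM_pos M hs
  rcases le_or_gt (dM M : ℝ) ((g : ℝ) ^ (34 / 100 : ℝ)) with h | h
  · have hidx : (kerM M).index ≤ 2 * g := by
      rw [index_eq hA M hm hH]
      exact card_orb_le hA (kerM M)
    refine h2 g (dM M) (kerM M).index _ hg2 hA.pos hn h
      (Nat.one_le_iff_ne_zero.mpr Subgroup.index_ne_zero_of_finite) hidx ?_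
    intro q₁ q₂ hp₁ hp₂ h3₁ h3₂ hne hnd₁ hnd₂ hcond
    exact two_gen hA M hodd hm hE hH.le q₁ q₂ hp₁ hp₂ h3₁ h3₂ hne hnd₁ hnd₂ hcond
  · refine h3 g (dM M) _ hg3 hA.pos h.le (by omega) ?_
    have h4 := sharp_bad hC hg1 hA M hs hodd hH.le (by omega) (by omega)
    have h5 : dE M + dM M - dH M = 1 := by omega
    rw [h5, pow_one] at h4
    exact h4

end Pool.Agent.Lib.MP_938ce2_ag_u6
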