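import Mathlib

/-!
The number of submodules isomorphic to a module with two dimensional endomorphism ring which
contain a given point.
-/

set_option autoImplicit false
set_option linter.unusedSectionVars false

namespace Pool.Agent.Lib.MP_938ce2_ag_u6

open Finset Module

section HomZero

variable {F R A : Type} [Field F] [Ring R] [Algebra F R] [AddCommGroup A] [Module F A] [Module R A]
  [IsScalarTower F R A] [Module.Finite F (A →ₗ[R] A)]

/-- there are no homomorphisms between complementary summands -/
theorem hom_zero (Y Z : Submodule R A) (h : IsCompl Y Z) (hZ : Z ≠ ⊥)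
    (hE : finrank F (A →ₗ[R] A) = 2) (g : Y →ₗ[R] Z) : g = 0 := by
  by_contra hg
  obtain ⟨y, hy⟩ : ∃ y, g y ≠ 0 := by
    by_contra hcon
    push Not at hcon
    exact hg (LinearMap.ext hcon)
  obtain ⟨z, hz, hz0⟩ := Z.ne_bot_iff.mp hZ
  have hy0 : (y : A) ≠ 0 := by
    intro h0
    apply hy
    have h1 : y = 0 := Subtype.ext h0
    rw [h1, map_zero]
  have hgy : (g y : A) ≠ 0 := fun h0 => hy (Subtype.ext h0)
  let pY := Submodule.projectionOnto Y Z h
  let pZ := Submodule.projectionOnto Z Y h.symm
  let p : A →ₗ[R] A := Y.subtype.comp pY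
  let r : A →ₗ[R] A := Z.subtype.comp pZ
  let s : A →ₗ[R] A := Z.subtype.comp (g.comp pY)
  have hpYy : pY y = y := Submodule.projectionOnto_apply_left h y
  have hpYz : pY z = 0 := (Submodule.projectionOnto_apply_eq_zero_iff h).mpr hz
  have hpZz : pZ z = ⟨z, hz⟩ := Submodule.projectionOnto_apply_left h.symm ⟨z, hz⟩
  have hpZy : pZ y = 0 := (Submodule.projectionOnto_apply_eq_zero_iff h.symm).mpr y.2
  have hli : LinearIndependent F ![p, r, s] := by
    rw [Fintype.linearIndependent_iff]
    intro a ha
    rw [Fin.sum_univ_three] at ha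
    simp only [Matrix.cons_val_zero, Matrix.cons_val_one, Matrix.cons_val_two, Matrix.head_cons,
      Matrix.tail_cons] at ha
    have h1 : a 1 • z = 0 := by
      have h2 := congrArg (fun f : A →ₗ[R] A => f z) ha
      have h3 : a 0 • ((pY z : Y) : A) + a 1 • ((pZ z : Z) : A)
          + a 2 • ((g (pY z) : Z) : A) = 0 := h2
      rw [hpYz, hpZz, map_zero] at h3
      simpa using h3
    have h2 : a 0 • (y : A) + a 2 • ((g y : Z) : A) = 0 := by
      have h2 := congrArg (fun f : A →ₗ[R] A => f y) ha
      have h3 : a 0 • ((pY y : Y) : A) + a 1 • ((pZ y : Z) : A)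
          + a 2 • ((g (pY y) : Z) : A) = 0 := h2
      rw [hpYy, hpZy] at h3
      simpa using h3
    have ha1 : a 1 = 0 := (smul_eq_zero.mp h1).resolve_right hz0
    have h3 : ∀ (W : Submodule R A) (b : F) (w : A), w ∈ W → b • w ∈ W := by
      intro W b w hw
      have : b • w = (algebraMap F R b) • w := by rw [algebraMap_smul]
      rw [this]
      exact W.smul_mem _ hw
    have h4 : a 0 • (y : A) ∈ Y ⊓ Z := by
      refine ⟨h3 Y _ _ y.2, ?_⟩
      rw [eq_neg_of_add_eq_zero_left h2]
      exact Z.neg_mem (h3 Z _ _ (g y).2)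
    rw [h.inf_eq_bot, Submodule.mem_bot] at h4
    have ha0 : a 0 = 0 := (smul_eq_zero.mp h4).resolve_right hy0
    rw [h4, zero_add] at h2
    have ha2 : a 2 = 0 := (smul_eq_zero.mp h2).resolve_right hgy
    intro i
    fin_cases i
    · exact ha0
    · exact ha1
    · exact ha2
  have h5 := hli.fintype_card_le_finrank
  rw [Fintype.card_fin, hE] at h5
  omega

end HomZero

section Mult

variable {F R V : Type} [Field F] [Ring R] [Algebra F R] [AddCommGroup V] [Module F V]
  [Module R V] [IsScalarTower F R V] [Module.Finite F V] [IsSemisimpleModule R V]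

theorem mult_count [Finite V] (A : Submodule R V) (v : V) (hv : v ≠ 0)
    (hE : finrank F (A →ₗ[R] A) = 2)
    (h2 : ∀ U : Submodule R V, Nonempty (A ≃ₗ[R] U) → ∀ Y : Submodule R V, Y ≤ U → Y ≠ ⊥ →
      2 ≤ finrank F Y)
    (k : ℕ) (hk1 : 1 ≤ k)
    (hk : ∀ Z : Submodule R V, Z ≠ ⊥ → finrank F Z + 2 ≤ finrank F A →
      Nat.card {Z' : Submodule R V // Nonempty (Z ≃ₗ[R] Z')} ≤ k) :
    Nat.card {U : Submodule R V // Nonempty (A ≃ₗ[R] U) ∧ v ∈ U} ≤ k := by
  classical
  have hfinS : Finite (Submodule R V) := Finite.of_injective (fun U : Submodule R V => (U : Set V))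
    SetLike.coe_injective
  have hfin : ∀ U : Submodule R V, Module.Finite F U := fun U =>
    Module.Finite.of_injective (U.subtype.restrictScalars F) Subtype.val_injective
  have hfinH : ∀ U : Submodule R V, Module.Finite F (U →ₗ[R] U) := by
    intro U
    have := hfin U
    let L : (U →ₗ[R] U) →ₗ[F] (U →ₗ[F] U) :=
      { toFun := fun f => f.restrictScalars F
        map_add' := fun f f' => rfl
        map_smul' := fun a f => rfl }
    refine Module.Finite.of_injective L fun f f' h => ?_
    ext x
    exact congrArg Subtype.val (congrArg (fun t : U →ₗ[F] U => t x) h)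
  have hmono : ∀ U W : Submodule R V, U ≤ W → finrank F U ≤ finrank F W := by
    intro U W h
    have := hfin W
    exact LinearMap.finrank_le_finrank_of_injective (f := (Submodule.inclusion h).restrictScalars F)
      (Submodule.inclusion_injective h)
  have heq : ∀ U W : Submodule R V, U ≤ W → finrank F U = finrank F W → U = W := by
    intro U W h h1
    have h3 : U.restrictScalars F = W.restrictScalars F := by
      apply Submodule.eq_of_le_of_finrank_eq
      · exact h
      · exact h1
    exact Submodule.restrictScalars_injective F R V h3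
  have hfr : ∀ U : Submodule R V, Nonempty (A ≃ₗ[R] U) → finrank F U = finrank F A := by
    rintro U ⟨e⟩
    exact (e.restrictScalars F).finrank_eq.symm
  set Y : Submodule R V := Submodule.span R {v} with hYdef
  have hY0 : Y ≠ ⊥ := by
    rw [hYdef, Ne, Submodule.span_singleton_eq_bot]
    exact hv
  have hYU : ∀ U : Submodule R V, v ∈ U → Y ≤ U := by
    intro U hU
    rw [hYdef, Submodule.span_singleton_le_iff_mem]
    exact hU
  by_cases hex : ∃ U : Submodule R V, Nonempty (A ≃ₗ[R] U) ∧ v ∈ U
  · obtain ⟨U₀, hU₀, hvU₀⟩ := hex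
    by_cases hfull : finrank F Y = finrank F A
    · have hss : Subsingleton {U : Submodule R V // Nonempty (A ≃ₗ[R] U) ∧ v ∈ U} := by
        refine ⟨fun U U' => Subtype.ext ?_⟩
        rw [← heq Y U.1 (hYU U.1 U.2.2) (hfull.trans (hfr U.1 U.2.1).symm),
          ← heq Y U'.1 (hYU U'.1 U'.2.2) (hfull.trans (hfr U'.1 U'.2.1).symm)]
      exact (Finite.card_le_one_iff_subsingleton.mpr hss).trans hk1
    · -- the complement in the reference module
      let Y₀ : Submodule R U₀ := Y.comap U₀.subtype
      have hY₀map : Y₀.map U₀.subtype = Y := by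
        rw [Submodule.map_comap_subtype]
        exact inf_eq_right.mpr (hYU U₀ hvU₀)
      obtain ⟨Z₀, hZ₀⟩ := exists_isCompl Y₀
      have hZ₀bot : Z₀ ≠ ⊥ := by
        intro h0
        have h3 := hZ₀.sup_eq_top
        rw [h0, sup_bot_eq] at h3
        have h4 : Y = U₀ := by
          rw [← hY₀map, h3, Submodule.map_top, Submodule.range_subtype]
        exact hfull (by rw [h4]; exact hfr U₀ hU₀)
      have hE₀ : finrank F (U₀ →ₗ[R] U₀) = 2 := by
        obtain ⟨e⟩ := hU₀
        rw [← hE]
        have hconj : (A →ₗ[R] A) ≃ₗ[F] (U₀ →ₗ[R] U₀) :=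
          { toFun := fun f => e.toLinearMap.comp (f.comp e.symm.toLinearMap)
            invFun := fun f => e.symm.toLinearMap.comp (f.comp e.toLinearMap)
            left_inv := fun f => by ext x; simp
            right_inv := fun f => by ext x; simp
            map_add' := fun f f' => by ext x; simp
            map_smul' := fun a f => by
              ext x
              show ((e (a • f (e.symm x)) : U₀) : V) = ((a • e (f (e.symm x)) : U₀) : V)
              have h3 : e (a • f (e.symm x)) = a • e (f (e.symm x)) := by
                have h4 := map_smul (e.restrictScalars F) a (f (e.symm x))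
                exact h4
              rw [h3] }
        exact hconj.finrank_eq.symm
      have := hfinH U₀
      have hz := hom_zero (F := F) Y₀ Z₀ hZ₀ hZ₀bot hE₀
      let Z : Submodule R V := Z₀.map U₀.subtype
      have hZiso : Nonempty (Z₀ ≃ₗ[R] Z) :=
        ⟨Submodule.equivMapOfInjective U₀.subtype U₀.injective_subtype Z₀⟩
      have hZbot : Z ≠ ⊥ := by
        intro h0
        apply hZ₀bot
        have h0' : Z₀.map U₀.subtype = ⊥ := h0
        rw [eq_bot_iff]
        intro z hz
        have h3 : (z : V) ∈ Z₀.map U₀.subtype := ⟨z, hz, rfl⟩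
        rw [h0', Submodule.mem_bot] at h3
        exact Subtype.ext h3
      -- complements in all the submodules
      have hcompl : ∀ U : {U : Submodule R V // Nonempty (A ≃ₗ[R] U) ∧ v ∈ U},
          ∃ Z' : Submodule R V, Nonempty (Z ≃ₗ[R] Z') ∧ Y ⊔ Z' = U.1 ∧ Disjoint Y Z' := by
        rintro ⟨U, hU, hvU⟩
        obtain ⟨e₀⟩ := hU₀
        obtain ⟨e₁⟩ := hU
        let e : U ≃ₗ[R] U₀ := e₁.symm.trans e₀
        let Y' : Submodule R U := Y.comap U.subtype
        have hY'map : Y'.map U.subtype = Y := by
          rw [Submodule.map_comap_subtype]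
          exact inf_eq_right.mpr (hYU U hvU)
        let i' : Y' ≃ₗ[R] Y := Submodule.comapSubtypeEquivOfLe (hYU U hvU)
        let i₀ : Y₀ ≃ₗ[R] Y := Submodule.comapSubtypeEquivOfLe (hYU U₀ hvU₀)
        have h3 := hz ((Submodule.projectionOnto Z₀ Y₀ hZ₀.symm).comp
          (e.toLinearMap.comp (Y'.subtype.comp ((i₀.trans i'.symm).toLinearMap))))
        have h4 : Y'.map e.toLinearMap ≤ Y₀ := by
          rintro _ ⟨y, hy, rfl⟩
          have h5 := congrArg (fun t : Y₀ →ₗ[R] Z₀ => t ((i₀.trans i'.symm).symm ⟨y, hy⟩)) h3
          have h6 : Submodule.projectionOnto Z₀ Y₀ hZ₀.symm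
              (e (((i₀.trans i'.symm) ((i₀.trans i'.symm).symm ⟨y, hy⟩) : Y') : U)) = 0 := h5
          rw [LinearEquiv.apply_symm_apply] at h6
          exact (Submodule.projectionOnto_apply_eq_zero_iff hZ₀.symm).mp h6
        have hfU : Module.Finite F U := hfin U
        have hfU₀ : Module.Finite F U₀ := hfin U₀
        have h5 : Y'.map e.toLinearMap = Y₀ := by
          have h6 : (Y'.map e.toLinearMap).restrictScalars F = Y₀.restrictScalars F := by
            apply Submodule.eq_of_le_of_finrank_eq
            · exact h4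
            · have h7 : finrank F (Y'.map e.toLinearMap) = finrank F Y' :=
                ((Submodule.equivMapOfInjective e.toLinearMap e.injective Y').restrictScalars
                  F).finrank_eq.symm
              have h8 : finrank F Y' = finrank F Y₀ :=
                ((i₀.trans i'.symm).restrictScalars F).finrank_eq.symm
              exact h7.trans h8
          exact Submodule.restrictScalars_injective F R U₀ h6
        let Z₁ : Submodule R U := Z₀.map e.symm.toLinearMap
        have h6 : Y₀.map e.symm.toLinearMap = Y' := by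
          rw [← h5, ← Submodule.map_comp]
          have h7 : e.symm.toLinearMap.comp e.toLinearMap = LinearMap.id := by ext x; simp
          rw [h7, Submodule.map_id]
        have hsup : Y' ⊔ Z₁ = ⊤ := by
          rw [← h6, ← Submodule.map_sup, hZ₀.sup_eq_top, Submodule.map_top]
          exact LinearMap.range_eq_top.mpr e.symm.surjective
        have hinf : Y' ⊓ Z₁ = ⊥ := by
          rw [← h6, ← Submodule.map_inf _ e.symm.injective, hZ₀.inf_eq_bot, Submodule.map_bot]
        refine ⟨Z₁.map U.subtype, ?_, ?_, ?_⟩
        · obtain ⟨j⟩ := hZiso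
          exact ⟨j.symm.trans ((Submodule.equivMapOfInjective e.symm.toLinearMap e.symm.injective
            Z₀).trans (Submodule.equivMapOfInjective U.subtype U.injective_subtype Z₁))⟩
        · rw [← hY'map, ← Submodule.map_sup, hsup, Submodule.map_top, Submodule.range_subtype]
        · rw [disjoint_iff, ← hY'map, ← Submodule.map_inf _ U.injective_subtype, hinf,
            Submodule.map_bot]
      choose Zf hZf1 hZf2 _ using hcompl
      have hinj : Function.Injective (fun U : {U : Submodule R V // Nonempty (A ≃ₗ[R] U) ∧ v ∈ U} =>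
          (⟨Zf U, hZf1 U⟩ : {Z' : Submodule R V // Nonempty (Z ≃ₗ[R] Z')})) := by
        intro U U' h
        have h3 : Zf U = Zf U' := congrArg Subtype.val h
        apply Subtype.ext
        rw [← hZf2 U, ← hZf2 U', h3]
      refine (Nat.card_le_card_of_injective _ hinj).trans (hk Z hZbot ?_)
      -- dimensions
      have h3 : finrank F Y₀ + finrank F Z₀ = finrank F U₀ := by
        have hfU₀ : Module.Finite F U₀ := hfin U₀
        have h4 : IsCompl (Y₀.restrictScalars F) (Z₀.restrictScalars F) := by
          refine ⟨?_, ?_⟩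
          · rw [disjoint_iff, eq_bot_iff]
            intro x hx
            have h5 : x ∈ Y₀ ⊓ Z₀ := hx
            rw [hZ₀.inf_eq_bot] at h5
            exact h5
          · rw [codisjoint_iff, eq_top_iff]
            intro x _
            have h5 : x ∈ Y₀ ⊔ Z₀ := by rw [hZ₀.sup_eq_top]; exact Submodule.mem_top
            obtain ⟨y, hy, z, hz, rfl⟩ := Submodule.mem_sup.mp h5
            exact Submodule.mem_sup.mpr ⟨y, hy, z, hz, rfl⟩
        exact Submodule.finrank_add_eq_of_isCompl h4
      have h4 : finrank F Y₀ = finrank F Y :=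
        ((Submodule.comapSubtypeEquivOfLe (hYU U₀ hvU₀)).restrictScalars F).finrank_eq
      have h5 : finrank F Z = finrank F Z₀ := by
        obtain ⟨j⟩ := hZiso
        exact (j.restrictScalars F).finrank_eq.symm
      have h6 := h2 U₀ hU₀ Y (hYU U₀ hvU₀) hY0
      have h7 := hfr U₀ hU₀
      omega
  · have hem : IsEmpty {U : Submodule R V // Nonempty (A ≃ₗ[R] U) ∧ v ∈ U} :=
      ⟨fun U => hex ⟨U.1, U.2⟩⟩
    rw [Nat.card_of_isEmpty]
    omega

end Mult

end Pool.Agent.Lib.MP_938ce2_ag_u6
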