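import Mathlib
import Pool.Agent.Lib.MP_938ce2_ag_u5.TwoMod

/-!
The reductions of a simple module on which the group does not act by commuting operators have no
submodules of dimension one.
-/

set_option autoImplicit false
set_option linter.unusedSectionVars false

namespace Pool.Agent.Lib.MP_938ce2_ag_u6

open Finset Module MonoidAlgebra
open Pool.Agent.Lib.MP_938ce2_ag_h67
open scoped commutatorElement

section Act

variable {F P Ω : Type} [Field F] [Group P] [MulAction P Ω]

lemma single_mul_smul {V : Type} [AddCommGroup V] [Module (MonoidAlgebra F P) V] (σ τ : P)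
    (v : V) : MonoidAlgebra.single (σ * τ) (1 : F) • v
      = MonoidAlgebra.single σ (1 : F) • (MonoidAlgebra.single τ (1 : F) • v) := by
  rw [← mul_smul, MonoidAlgebra.single_mul_single, one_mul]

lemma single_one_smul {V : Type} [AddCommGroup V] [Module (MonoidAlgebra F P) V] (v : V) :
    MonoidAlgebra.single (1 : P) (1 : F) • v = v := by
  rw [← MonoidAlgebra.one_def, one_smul]

end Act

section Inv

variable {P Ω : Type} [Group P] [Fintype P] [MulAction P Ω] [Fintype Ω] [DecidableEq Ω]
  (N : Submodule (MonoidAlgebra ℚ P) (VV ℚ P Ω))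

/-- there are no invariants of the commutator subgroup -/
theorem inv_zero (hs : IsSimpleModule (MonoidAlgebra ℚ P) N)
    (h : ∃ σ τ : P, actL N σ * actL N τ ≠ actL N τ * actL N σ) (v : N)
    (hv : ∀ τ ∈ commutator P, MonoidAlgebra.single τ (1 : ℚ) • v = v) : v = 0 := by
  let W : Submodule (MonoidAlgebra ℚ P) N :=
    { carrier := {w | ∀ τ ∈ commutator P, MonoidAlgebra.single τ (1 : ℚ) • w = w}
      zero_mem' := fun τ _ => smul_zero _
      add_mem' := fun {a b} ha hb τ hτ => by rw [smul_add, ha τ hτ, hb τ hτ]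
      smul_mem' := by
        intro r
        induction r using MonoidAlgebra.induction_linear with
        | zero =>
          intro w hw τ hτ
          rw [zero_smul, smul_zero]
        | add a b ha hb =>
          intro w hw τ hτ
          rw [add_smul, smul_add, ha hw τ hτ, hb hw τ hτ]
        | single σ a =>
          intro w hw τ hτ
          have h1 : MonoidAlgebra.single τ (1 : ℚ) • MonoidAlgebra.single σ a • w
              = MonoidAlgebra.single σ a • MonoidAlgebra.single (σ⁻¹ * τ * σ) (1 : ℚ) • w := by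
            rw [← mul_smul, ← mul_smul, MonoidAlgebra.single_mul_single,
              MonoidAlgebra.single_mul_single, one_mul, mul_one]
            congr 2
            group
          rw [h1, hw]
          have hn : (commutator P).Normal := inferInstance
          have h2 := hn.conj_mem τ hτ σ⁻¹
          rwa [inv_inv] at h2 }
  rcases eq_bot_or_eq_top W with hW | hW
  · have h1 : v ∈ W := hv
    rw [hW] at h1
    exact h1
  · exfalso
    obtain ⟨σ, τ, hne⟩ := h
    apply hne
    rw [← actL_mul, ← actL_mul]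
    apply LinearMap.ext
    intro w
    rw [actL_apply, actL_apply]
    have h1 : MonoidAlgebra.single (τ * σ) (1 : ℚ) • w ∈ W := by
      rw [hW]
      exact Submodule.mem_top
    have h2 := h1 ⁅σ, τ⁆ (by
      rw [commutator_def]
      exact Subgroup.commutator_mem_commutator (Subgroup.mem_top _) (Subgroup.mem_top _))
    rw [← h2]
    refine Eq.trans ?_ (single_mul_smul ⁅σ, τ⁆ (τ * σ) w)
    congr 2
    rw [commutatorElement_def]
    group

/-- the sum over the commutator subgroup kills the reductions -/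
theorem sum_kill (hs : IsSimpleModule (MonoidAlgebra ℚ P) N)
    (h : ∃ σ τ : P, actL N σ * actL N τ ≠ actL N τ * actL N σ) (q : ℕ) [Fact q.Prime]
    [Fintype (commutator P)] (v : VV (ZMod q) P Ω) (hv : v ∈ red N (ZMod q)) :
    ∑ τ : commutator P, MonoidAlgebra.single (τ : P) (1 : ZMod q) • v = 0 := by
  obtain ⟨f, hf, rfl⟩ := exists_of_mem_red N q hv
  have hf' : mkV P (fun x => (f x : ℚ)) ∈ N := (mem_lat N f).mp hf
  set u : N := ⟨mkV P (fun x => (f x : ℚ)), hf'⟩ with hu
  have h1 : ∑ τ : commutator P, MonoidAlgebra.single (τ : P) (1 : ℚ) • u = 0 := by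
    apply inv_zero N hs h
    intro τ hτ
    rw [Finset.smul_sum]
    have h2 : ∀ τ' : commutator P, MonoidAlgebra.single τ (1 : ℚ)
        • MonoidAlgebra.single (τ' : P) (1 : ℚ) • u
        = MonoidAlgebra.single (((⟨τ, hτ⟩ * τ' : commutator P)) : P) (1 : ℚ) • u := by
      intro τ'
      exact (single_mul_smul τ (τ' : P) u).symm
    rw [Finset.sum_congr rfl fun τ' _ => h2 τ']
    exact Fintype.sum_equiv (Equiv.mulLeft (⟨τ, hτ⟩ : commutator P)) _ _ fun τ' => rfl
  apply ev_ext
  intro x
  rw [ev_sum, ev_zero]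
  have h3 : ∀ τ : commutator P, ev (MonoidAlgebra.single (τ : P) (1 : ZMod q)
      • mkV P (fun x => (f x : ZMod q))) x = ((f ((τ : P)⁻¹ • x) : ℤ) : ZMod q) := by
    intro τ
    rw [ev_single, one_mul, ev_mkV]
  rw [Finset.sum_congr rfl fun τ _ => h3 τ]
  have h4 : ((∑ τ : commutator P, f ((τ : P)⁻¹ • x) : ℤ) : ℚ) = 0 := by
    have h5 := congrArg (fun t : N => ev (t : VV ℚ P Ω) x) h1
    have h6 : ev ((∑ τ : commutator P, MonoidAlgebra.single (τ : P) (1 : ℚ) • u : N) : VV ℚ P Ω) x
        = ∑ τ : commutator P, (f ((τ : P)⁻¹ • x) : ℚ) := by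
      rw [Submodule.coe_sum, ev_sum]
      refine Finset.sum_congr rfl fun τ _ => ?_
      show ev (MonoidAlgebra.single (τ : P) (1 : ℚ) • mkV P (fun x => (f x : ℚ))) x = _
      rw [ev_single, one_mul, ev_mkV]
    push_cast
    rw [← h6]
    exact h5
  have h5 : (∑ τ : commutator P, f ((τ : P)⁻¹ • x) : ℤ) = 0 := by exact_mod_cast h4
  have h6 := congrArg (fun t : ℤ => (t : ZMod q)) h5
  simp only [Int.cast_sum, Int.cast_zero] at h6
  exact h6

/-- no submodules of dimension one -/
theorem no_one_dim (hs : IsSimpleModule (MonoidAlgebra ℚ P) N)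
    (h : ∃ σ τ : P, actL N σ * actL N τ ≠ actL N τ * actL N σ) (q : ℕ) [Fact q.Prime]
    (hq : ¬ q ∣ Fintype.card P) {Y : Type} [AddCommGroup Y] [Module (ZMod q) Y]
    [Module (MonoidAlgebra (ZMod q) P) Y] [IsScalarTower (ZMod q) (MonoidAlgebra (ZMod q) P) Y]
    [Module.Finite (ZMod q) Y] [Nontrivial Y]
    (j : Y →ₗ[MonoidAlgebra (ZMod q) P] red N (ZMod q)) (hj : Function.Injective j) :
    2 ≤ finrank (ZMod q) Y := by
  classical
  by_contra hcon
  have hpos : 0 < finrank (ZMod q) Y := Module.finrank_pos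
  have h1 : finrank (ZMod q) Y = 1 := by omega
  obtain ⟨y, hy, hgen⟩ := finrank_eq_one_iff'.mp h1
  let _ : Fintype (commutator P) := Fintype.ofFinite _
  choose χ hχ using fun σ : P => hgen (MonoidAlgebra.single σ (1 : ZMod q) • y)
  have hmul : ∀ σ τ, χ (σ * τ) = χ σ * χ τ := by
    intro σ τ
    have h2 : χ (σ * τ) • y = (χ σ * χ τ) • y := by
      rw [hχ, single_mul_smul, ← hχ τ, smul_comm, ← hχ σ, smul_smul, mul_comm]
    have h3 : (χ (σ * τ) - χ σ * χ τ) • y = 0 := by rw [sub_smul, h2, sub_self]
    exact sub_eq_zero.mp ((smul_eq_zero.mp h3).resolve_right hy)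
  have hone : χ 1 = 1 := by
    have h3 : (χ 1 - 1) • y = 0 := by rw [sub_smul, hχ, single_one_smul, one_smul, sub_self]
    exact sub_eq_zero.mp ((smul_eq_zero.mp h3).resolve_right hy)
  let f : P →* ZMod q := { toFun := χ, map_one' := hone, map_mul' := hmul }
  have hker := Abelianization.commutator_subset_ker f.toHomUnits
  have hfix : ∀ τ : commutator P, MonoidAlgebra.single (τ : P) (1 : ZMod q) • y = y := by
    intro τ
    have h2 : f.toHomUnits (τ : P) = 1 := MonoidHom.mem_ker.mp (hker τ.2)
    have h3 : χ (τ : P) = 1 := by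
      have h4 := congrArg (fun t : (ZMod q)ˣ => (t : ZMod q)) h2
      exact h4
    rw [← hχ, h3, one_smul]
  have h2 := sum_kill N hs h q (j y : VV (ZMod q) P Ω) (j y).2
  have h3 : ∀ τ : commutator P, MonoidAlgebra.single (τ : P) (1 : ZMod q)
      • ((j y : red N (ZMod q)) : VV (ZMod q) P Ω) = ((j y : red N (ZMod q)) : VV (ZMod q) P Ω) := by
    intro τ
    have h4 : MonoidAlgebra.single (τ : P) (1 : ZMod q) • j y = j y := by
      rw [← map_smul, hfix]
    exact congrArg Subtype.val h4
  rw [Finset.sum_congr rfl fun τ _ => h3 τ, Finset.sum_const, Finset.card_univ] at h2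
  have h4 : ((j y : red N (ZMod q)) : VV (ZMod q) P Ω) ≠ 0 := by
    intro h0
    apply hy
    apply hj
    rw [map_zero]
    exact Subtype.ext h0
  rw [← Nat.cast_smul_eq_nsmul (ZMod q)] at h2
  have h5 := (smul_eq_zero.mp h2).resolve_right h4
  rw [ZMod.natCast_eq_zero_iff] at h5
  apply hq
  refine h5.trans ?_
  rw [← Nat.card_eq_fintype_card, ← Nat.card_eq_fintype_card]
  exact Subgroup.card_subgroup_dvd_card _

end Inv

end Pool.Agent.Lib.MP_938ce2_ag_u6
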