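import Mathlib
import Pool.Agent.Lib.MP_938ce2_ag_u5.Abel
import Pool.Agent.Lib.MP_938ce2_ag_u6.Mult
import Pool.Agent.Lib.MP_938ce2_ag_u6.OneDim

/-!
Modules with two dimensional endomorphism ring: submodules through a point.
-/

set_option autoImplicit false
set_option linter.unusedSectionVars false

namespace Pool.Agent.Lib.MP_938ce2_ag_u6

open Finset Module MonoidAlgebra
open Pool.Agent.Lib.MP_938ce2_ag_h67
open Pool.Agent.Lib.MP_938ce2_ag_u5 (UU)

section Comm

variable {P Ω : Type} [Group P] [Fintype P] [MulAction P Ω] [Fintype Ω] [DecidableEq Ω]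

/-- simple modules with commuting operators -/
theorem end_of_comm (M : Submodule (MonoidAlgebra ℚ P) (VV ℚ P Ω))
    (hs : IsSimpleModule (MonoidAlgebra ℚ P) M)
    (hcomm : ∀ σ τ : P, actL M σ * actL M τ = actL M τ * actL M σ) :
    finrank ℚ (M →ₗ[MonoidAlgebra ℚ P] M) = finrank ℚ M := by
  have hnt : Nontrivial M := IsSimpleModule.nontrivial (MonoidAlgebra ℚ P) M
  obtain ⟨v, hv⟩ := exists_ne (0 : M)
  let en : P → (M →ₗ[MonoidAlgebra ℚ P] M) := fun σ =>
    MonoidAlgebra.equivariantOfLinearOfComm (actL M σ) (by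
      intro τ s
      have h1 := congrArg (fun t : M →ₗ[ℚ] M => t s) (hcomm σ τ)
      exact h1)
  have hen : ∀ σ s, en σ s = MonoidAlgebra.single σ (1 : ℚ) • s := fun σ s => rfl
  let ψ : (M →ₗ[MonoidAlgebra ℚ P] M) →ₗ[ℚ] M :=
    { toFun := fun φ => φ v
      map_add' := fun φ φ' => rfl
      map_smul' := fun a φ => rfl }
  have hψ : ∀ φ, ψ φ = φ v := fun φ => rfl
  have hinj : Function.Injective ψ := by
    rw [injective_iff_map_eq_zero]
    intro φ hφ
    rw [hψ] at hφ
    rcases LinearMap.injective_or_eq_zero φ with h1 | h1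
    · exact absurd (h1 (hφ.trans (map_zero φ).symm)) hv
    · exact h1
  let S : Submodule (MonoidAlgebra ℚ P) M :=
    { carrier := {w | ∃ φ : M →ₗ[MonoidAlgebra ℚ P] M, φ v = w}
      zero_mem' := ⟨0, rfl⟩
      add_mem' := by
        rintro _ _ ⟨φ, rfl⟩ ⟨φ', rfl⟩
        exact ⟨φ + φ', rfl⟩
      smul_mem' := by
        intro r
        induction r using MonoidAlgebra.induction_linear with
        | zero =>
          rintro _ ⟨φ, rfl⟩
          exact ⟨0, by rw [zero_smul]; rfl⟩
        | add a b ha hb =>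
          intro w hw
          obtain ⟨φ, h1⟩ := ha hw
          obtain ⟨φ', h2⟩ := hb hw
          exact ⟨φ + φ', by rw [add_smul, LinearMap.add_apply, h1, h2]⟩
        | single σ a =>
          rintro _ ⟨φ, rfl⟩
          refine ⟨a • (en σ).comp φ, ?_⟩
          rw [LinearMap.smul_apply, LinearMap.comp_apply, hen]
          have h1 : (MonoidAlgebra.single σ a : MonoidAlgebra ℚ P)
              = a • MonoidAlgebra.single σ (1 : ℚ) := by
            rw [MonoidAlgebra.smul_single, smul_eq_mul, mul_one]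
          rw [h1, smul_assoc] }
  have hS : S = ⊤ := by
    rcases eq_bot_or_eq_top S with h1 | h1
    · exfalso
      have h2 : v ∈ S := ⟨LinearMap.id, rfl⟩
      rw [h1] at h2
      exact hv h2
    · exact h1
  have hsur : Function.Surjective ψ := by
    intro w
    have h1 : w ∈ S := by rw [hS]; exact Submodule.mem_top
    exact h1
  exact (LinearEquiv.ofBijective ψ ⟨hinj, hsur⟩).finrank_eq

end Comm

section Down

variable {P Q Ω Ω' : Type} [Group P] [Group Q] [MulAction P Ω]
  [MulAction Q Ω'] (D : QD P Q Ω Ω') {N : Submodule (MonoidAlgebra ℚ P) (VV ℚ P Ω)}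
  (hN : Fac D N)

include hN in
/-- the quotient module is simple -/
theorem down_simple (hs : IsSimpleModule (MonoidAlgebra ℚ P) N) :
    IsSimpleModule (MonoidAlgebra ℚ Q) (down D N) := by
  have h0 := isSimpleModule_iff_isAtom.mp hs
  rw [isSimpleModule_iff_isAtom]
  refine ⟨?_, ?_⟩
  · intro h1
    apply h0.1
    rw [eq_bot_iff]
    intro v hv
    obtain ⟨u, rfl⟩ := exists_pull D (hN v hv)
    have h2 : u ∈ down D N := (mem_down D N u).mpr hv
    rw [h1, Submodule.mem_bot] at h2
    rw [h2, map_zero]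
    exact Submodule.zero_mem _
  · intro W hW
    let W' : Submodule (MonoidAlgebra ℚ P) (VV ℚ P Ω) :=
      { carrier := {v | ∃ u ∈ W, pull ℚ P Q D.π u = v}
        zero_mem' := ⟨0, W.zero_mem, map_zero _⟩
        add_mem' := by
          rintro _ _ ⟨u, hu, rfl⟩ ⟨u', hu', rfl⟩
          exact ⟨u + u', W.add_mem hu hu', map_add _ _ _⟩
        smul_mem' := by
          intro r
          induction r using MonoidAlgebra.induction_linear with
          | zero =>
            rintro _ ⟨u, hu, rfl⟩
            exact ⟨0, W.zero_mem, by rw [zero_smul, map_zero]⟩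
          | add a b ha hb =>
            intro v hv
            obtain ⟨u, hu, h1⟩ := ha hv
            obtain ⟨u', hu', h2⟩ := hb hv
            exact ⟨u + u', W.add_mem hu hu', by rw [map_add, h1, h2, add_smul]⟩
          | single σ a =>
            rintro _ ⟨u, hu, rfl⟩
            exact ⟨MonoidAlgebra.single (D.φ σ) a • u, W.smul_mem _ hu, pull_single D σ a u⟩ }
    have hW'lt : W' < N := by
      refine lt_of_le_of_ne ?_ ?_
      · rintro _ ⟨u, hu, rfl⟩
        exact (mem_down D N u).mp (hW.le hu)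
      · intro h1
        apply hW.ne
        apply le_antisymm hW.le
        intro u hu
        have h2 : pull ℚ P Q D.π u ∈ W' := by
          rw [h1]
          exact (mem_down D N u).mp hu
        obtain ⟨u', hu', h3⟩ := h2
        have h4 : u' = u := pull_inj (P := P) (Q := Q) D.hπ h3
        rw [← h4]
        exact hu'
    have h1 := h0.2 W' hW'lt
    rw [eq_bot_iff]
    intro u hu
    have h2 : pull ℚ P Q D.π u ∈ W' := ⟨u, hu, rfl⟩
    rw [h1, Submodule.mem_bot] at h2
    rw [Submodule.mem_bot]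
    have h3 : pull ℚ P Q D.π u = pull ℚ P Q D.π 0 := by rw [h2, map_zero]
    exact pull_inj (P := P) (Q := Q) D.hπ h3

end Down

section Mod

variable {P Ω : Type} [Group P] [Fintype P] [MulAction P Ω] [Fintype Ω] [DecidableEq Ω]
  [MulAction.IsPretransitive P Ω] [Nonempty Ω] {F : Type} [Field F]

/-- A homomorphism to a transitive permutation module is given by its values at one point. -/
theorem finrank_hom_le_mod (S : Submodule (MonoidAlgebra F P) (VV F P Ω)) :
    finrank F (S →ₗ[MonoidAlgebra F P] VV F P Ω) ≤ finrank F S := by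
  obtain ⟨x0⟩ := (inferInstance : Nonempty Ω)
  have : Module.Finite F S := Module.Finite.of_injective (S.subtype.restrictScalars F)
      Subtype.val_injective
  let L : (S →ₗ[MonoidAlgebra F P] VV F P Ω) →ₗ[F] Module.Dual F S :=
    { toFun := fun φ =>
        { toFun := fun s => ev (φ s) x0
          map_add' := by
            intro s t
            rw [map_add, ev_add]
          map_smul' := by
            intro a s
            rw [LinearMap.map_smul_of_tower, ev_smul]
            rfl }
      map_add' := fun φ ψ => rfl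
      map_smul' := fun a φ => rfl }
  have hL : Function.Injective L := by
    rw [injective_iff_map_eq_zero]
    intro φ hφ
    have h0 : ∀ s : S, ev (φ s) x0 = 0 := fun s =>
      congrArg (fun g : Module.Dual F S => g s) hφ
    apply LinearMap.ext
    intro s
    apply ev_ext
    intro x
    obtain ⟨σ, hσ⟩ := MulAction.exists_smul_eq P x0 x
    have h1 := h0 (MonoidAlgebra.single σ⁻¹ (1 : F) • s)
    rw [map_smul, ev_single, inv_inv, one_mul, hσ] at h1
    rw [h1]
    rfl
  calc finrank F (S →ₗ[MonoidAlgebra F P] VV F P Ω) ≤ finrank F (Module.Dual F S) :=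
        LinearMap.finrank_le_finrank_of_injective hL
    _ = finrank F S := Subspace.dual_finrank_eq

end Mod

section Count

variable {P Ω : Type} [Group P] [Fintype P] [MulAction P Ω] [Fintype Ω] [DecidableEq Ω]
  [MulAction.IsPretransitive P Ω] [Nonempty Ω]
  (N : Submodule (MonoidAlgebra ℚ P) (VV ℚ P Ω))

theorem mu_bound (hs : IsSimpleModule (MonoidAlgebra ℚ P) N)
    (hE : finrank ℚ (N →ₗ[MonoidAlgebra ℚ P] N) = 2) (m : ℕ) (hm : finrank ℚ N = m) (hm4 : 4 ≤ m)
    (q : ℕ) [Fact q.Prime] (hq3 : 3 ≤ q) (hq : ¬ q ∣ Fintype.card P) (v : VV (ZMod q) P Ω)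
    (hv : v ≠ 0) : Nat.card {U : UU N q // v ∈ U.1} ≤ 3 * q ^ (m - 3) := by
  classical
  have hne : NeZero (Nat.card P : ZMod q) := ⟨by
    rw [Nat.card_eq_fintype_card]
    exact card_ne_zero_mod (P := P) q hq⟩
  have hnc : ∃ σ τ : P, actL N σ * actL N τ ≠ actL N τ * actL N σ := by
    by_contra hcon
    push Not at hcon
    have h1 := end_of_comm N hs hcon
    omega
  have hfinV : Finite (VV (ZMod q) P Ω) := inferInstanceAs (Finite (Ω → ZMod q))
  have hq3R : (3 : ℝ) ≤ q := by exact_mod_cast hq3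
  have hqp : 0 < q ^ (m - 3) := Nat.pos_of_ne_zero (by positivity)
  have h1 := mult_count (F := ZMod q) (R := MonoidAlgebra (ZMod q) P) (V := VV (ZMod q) P Ω)
    (red N (ZMod q)) v hv (by rw [finrank_hom_red_mod N N q hq, hE]) (by
      rintro U ⟨e⟩ Y hYU hY
      have hfY : Module.Finite (ZMod q) Y := Module.Finite.of_injective
        (Y.subtype.restrictScalars (ZMod q)) Subtype.val_injective
      have hnt : Nontrivial Y := by
        rw [Submodule.nontrivial_iff_ne_bot]
        exact hY
      exact no_one_dim N hs hnc q hq (e.symm.toLinearMap.comp (Submodule.inclusion hYU))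
        (e.symm.injective.comp (Submodule.inclusion_injective hYU))) (3 * q ^ (m - 3)) (by omega)
    (by
      intro Z hZ hZr
      have hfZ : Module.Finite (ZMod q) Z := Module.Finite.of_injective
        (Z.subtype.restrictScalars (ZMod q)) Subtype.val_injective
      rw [finrank_red_mod N q hq, hm] at hZr
      have h2 := Pool.Agent.Lib.MP_938ce2_ag_h79.card_submodules_iso_le
        (R := MonoidAlgebra (ZMod q) P) (A := Z) (V := VV (ZMod q) P Ω)
      have hfZH : Module.Finite (ZMod q) (Z →ₗ[MonoidAlgebra (ZMod q) P] VV (ZMod q) P Ω) :=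
        Pool.Agent.Lib.MP_938ce2_ag_h85d.finite_hom
      rw [card_hom_eq (ZMod q), ZMod.card] at h2
      have h3 := aut_ge_odd (q := q) (R := MonoidAlgebra (ZMod q) P) (A := Z) hq3
      have hnt : Nontrivial Z := by
        rw [Submodule.nontrivial_iff_ne_bot]
        exact hZ
      have hntE : Nontrivial (Z →ₗ[MonoidAlgebra (ZMod q) P] Z) := by
        obtain ⟨x, hx⟩ := exists_ne (0 : Z)
        exact ⟨⟨LinearMap.id, 0, fun h => hx (by simpa using congrArg (fun f => f x) h)⟩⟩
      have hfe : Finite (Z →ₗ[MonoidAlgebra (ZMod q) P] Z) := DFunLike.finite _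
      have hfin : Module.Finite (ZMod q) (Z →ₗ[MonoidAlgebra (ZMod q) P] Z) := inferInstance
      have h4 : 1 ≤ finrank (ZMod q) (Z →ₗ[MonoidAlgebra (ZMod q) P] Z) := by
        have h4' := Module.finrank_pos (R := ZMod q) (M := Z →ₗ[MonoidAlgebra (ZMod q) P] Z)
        exact h4'
      have h5 : (q : ℝ) - 1 ≤ ((q : ℝ) - 1) ^ finrank (ZMod q) (Z →ₗ[MonoidAlgebra (ZMod q) P] Z) := by
        calc (q : ℝ) - 1 = ((q : ℝ) - 1) ^ 1 := (pow_one _).symm
          _ ≤ _ := pow_le_pow_right₀ (by linarith) h4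
      have h6 := finrank_hom_le_mod (F := ZMod q) Z
      have h7 : (Nat.card {Z' : Submodule (MonoidAlgebra (ZMod q) P) (VV (ZMod q) P Ω) //
          Nonempty (Z ≃ₗ[MonoidAlgebra (ZMod q) P] Z')} : ℝ) * ((q : ℝ) - 1) ≤ (q : ℝ) ^ (m - 2) := by
        calc _ ≤ (Nat.card {Z' : Submodule (MonoidAlgebra (ZMod q) P) (VV (ZMod q) P Ω) //
            Nonempty (Z ≃ₗ[MonoidAlgebra (ZMod q) P] Z')} : ℝ)
              * Nat.card (Z ≃ₗ[MonoidAlgebra (ZMod q) P] Z) :=
              mul_le_mul_of_nonneg_left (h5.trans h3) (Nat.cast_nonneg _)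
          _ ≤ (q : ℝ) ^ finrank (ZMod q) (Z →ₗ[MonoidAlgebra (ZMod q) P] VV (ZMod q) P Ω) := by
              exact_mod_cast h2
          _ ≤ (q : ℝ) ^ (m - 2) := pow_le_pow_right₀ (by linarith) (by omega)
      have h8 : (q : ℝ) ^ (m - 2) = (q : ℝ) ^ (m - 3) * q := by
        rw [← pow_succ]
        congr 1
        omega
      have h9 : (Nat.card {Z' : Submodule (MonoidAlgebra (ZMod q) P) (VV (ZMod q) P Ω) //
          Nonempty (Z ≃ₗ[MonoidAlgebra (ZMod q) P] Z')} : ℝ) ≤ 3 * (q : ℝ) ^ (m - 3) := by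
        have h10 : (0 : ℝ) < (q : ℝ) ^ (m - 3) := by positivity
        have h11 : (Nat.card {Z' : Submodule (MonoidAlgebra (ZMod q) P) (VV (ZMod q) P Ω) //
          Nonempty (Z ≃ₗ[MonoidAlgebra (ZMod q) P] Z')} : ℝ) ≤ (q : ℝ) ^ (m - 2) / ((q : ℝ) - 1) := by
          rw [le_div_iff₀ (by linarith)]
          exact h7
        refine h11.trans ?_
        rw [div_le_iff₀ (by linarith), h8]
        nlinarith
      exact_mod_cast h9)
  refine le_trans (le_of_eq ?_) h1
  refine Nat.card_congr
    { toFun := fun U => ⟨U.1.1, U.1.2, U.2⟩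
      invFun := fun U => ⟨⟨U.1, U.2.1⟩, U.2.2⟩
      left_inv := fun U => rfl
      right_inv := fun U => rfl }

end Count

end Pool.Agent.Lib.MP_938ce2_ag_u6
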