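import Mathlib
import Pool.Agent.Lib.MP_938ce2_ag_u4.MinkB
import Pool.Agent.Lib.MP_938ce2_ag_u5.Two
import Pool.Agent.Lib.MP_938ce2_ag_u6.TwoGen
import Pool.Agent.Lib.MP_938ce2_ag_u6.DTwoA

/-!
The modules with `dE = 2`, `dH = dM`, `4 ≤ dM` bounded.
-/

set_option autoImplicit false
set_option linter.unusedSectionVars false

namespace Pool.Agent.Lib.MP_938ce2_ag_u6

open Finset Real Module MonoidAlgebra
open Pool.Agent.Lib.MP_938ce2_ag_h67 (sg VV ev mkV Orb red kerM QD code mem_code code_inv fw sum_fw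
  finrank_code ev_ext finrank_hom_top_mod finrank_red_mod down Fac down_iso finrank_down
  finrank_hom_down_le mem_down red_iso csum csum_nonneg csum_le_refined)
open Pool.Agent.Lib.MP_938ce2_ag_h60 (CMType)
open Pool.Agent.Lib.MP_938ce2_ag_u2 (Act OddM badC mem_badC dM dE dH exists_cm cmExt sum_cmExt
  card_cm_filter card_cm)
open Pool.Agent.Lib.MP_938ce2_ag_u2.TypeCAux (QP DD DD_ker DD_fac odd_of_iso odd_down)
open Pool.Agent.Lib.MP_938ce2_ag_u5 (UU finrank_end_down card_UU prime_between large_pow)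

section

variable {G X : Type} [Group G] [Fintype G] [MulAction G X] [Fintype X] [DecidableEq X] {c : G}
  {g : ℕ} [MulAction.IsPretransitive G X]

/-- the number of submodules isomorphic to the reduction -/
theorem card_UU_d2 {Q X' : Type} [Group Q] [Fintype Q] [MulAction Q X'] [Fintype X']
    [DecidableEq X'] (D : QD G Q X X') (M : Submodule (MonoidAlgebra ℚ G) (VV ℚ G X))
    (hMfac : Fac D M) (hE : dE M = 2) (hH : dH M ≤ dM M) (hm : 2 ≤ dM M)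
    (q : ℕ) [Fact q.Prime] (hq3 : 3 ≤ q) (hq : ¬ q ∣ Fintype.card Q) :
    (Nat.card (UU (down D M) q) : ℝ) ≤ 4 * (q : ℝ) ^ (dM M - 2) := by
  have h1 := card_UU (down D M) q hq3 hq
  rw [finrank_end_down D hMfac] at h1
  have h2 : finrank ℚ (M →ₗ[MonoidAlgebra ℚ G] M) = 2 := hE
  rw [h2] at h1
  have hq3R : (3 : ℝ) ≤ q := by exact_mod_cast hq3
  have h3 : (q : ℝ) ^ finrank ℚ (down D M →ₗ[MonoidAlgebra ℚ Q] VV ℚ Q X') ≤ (q : ℝ) ^ dM M :=
    pow_le_pow_right₀ (by linarith) ((finrank_hom_down_le D hMfac).trans hH)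
  have h4 : (q : ℝ) ^ dM M = (q : ℝ) ^ (dM M - 2) * (q : ℝ) ^ 2 := by
    rw [← pow_add]
    congr 1
    omega
  have h5 : 0 < (q : ℝ) ^ (dM M - 2) := by positivity
  have h6 : (Nat.card (UU (down D M) q) : ℝ) ≤ (q : ℝ) ^ dM M / ((q : ℝ) - 1) ^ 2 := by
    rw [le_div_iff₀ (by nlinarith)]
    exact h1.trans h3
  refine h6.trans ?_
  rw [div_le_iff₀ (by nlinarith), h4]
  have h7 : (q : ℝ) ^ 2 ≤ 4 * ((q : ℝ) - 1) ^ 2 := by nlinarith
  nlinarith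

/-- two primes -/
theorem two_gen_d2 (hA : Act G X c g) (M : Submodule (MonoidAlgebra ℚ G) (VV ℚ G X))
    (hs : IsSimpleModule (MonoidAlgebra ℚ G) M)
    (hodd : OddM c M) (hm : 4 ≤ dM M) (hE : dE M = 2) (hH : dH M ≤ dM M) (q₁ q₂ : ℕ)
    (hp₁ : q₁.Prime) (hp₂ : q₂.Prime) (h3₁ : 3 ≤ q₁) (h3₂ : 3 ≤ q₂) (hne : q₁ ≠ q₂)
    (hq₁ : ¬ q₁ ∣ (kerM M).index) (hq₂ : ¬ q₂ ∣ (kerM M).index)
    (hg : 4 * (dM M * dM M : ℕ) * (q₁ : ℝ) ^ 2 * log (9 * (dM M * dM M : ℕ)) ≤ g) :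
    have : Fact q₂.Prime := ⟨hp₂⟩
    ((badC c M).card : ℝ) / 2 ^ g
      ≤ 16 * csum q₂ ((g : ℝ) / dM M) ^ dM M / ((q₁ : ℝ) ^ 2 * (q₂ : ℝ) ^ 2)
        + 24 * (q₂ : ℝ) ^ (dM M - 2) * (12 / q₂ + 26 * q₁ * √(dM M / g)) ^ dM M / (q₁ : ℝ) ^ 3 := by
  classical
  have hf1 : Fact q₁.Prime := ⟨hp₁⟩
  have hf2 : Fact q₂.Prime := ⟨hp₂⟩
  intro _
  have hft : Finite (Orb (kerM M) X) := Finite.of_surjective _
    (Pool.Agent.Lib.MP_938ce2_ag_h67.Orb.mk_surj (kerM M))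
  let _ : Fintype (Orb (kerM M) X) := Fintype.ofFinite _
  let _ : Fintype (QP (X := X) (kerM M)) := Fintype.ofFinite _
  let D := DD (X := X) (kerM M)
  have hcard : Fintype.card (QP (X := X) (kerM M)) = (kerM M).index := by
    have h0 : (DD (X := X) (kerM M)).φ.ker.index = (kerM M).index := by rw [DD_ker M]
    rw [← Nat.card_eq_fintype_card, ← h0, Subgroup.index_ker]
    have h1 : (DD (X := X) (kerM M)).φ.range = ⊤ :=
      MonoidHom.range_eq_top.mpr (DD (X := X) (kerM M)).hφ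
    rw [h1]
    exact Subgroup.card_top.symm
  rw [← hcard] at hq₁ hq₂
  have hMfac : Fac D M := DD_fac M M ⟨LinearEquiv.refl _ _⟩
  set n := dM M with hn
  set N := down D M with hN
  have hNr : finrank ℚ N = n := finrank_down D hMfac
  have hNE : finrank ℚ (N →ₗ[MonoidAlgebra ℚ (QP (X := X) (kerM M))] N) = 2 := by
    rw [hN, finrank_end_down D hMfac]
    exact hE
  have hNodd : OddM (D.φ c) N := odd_down D M hodd
  have hNs : IsSimpleModule (MonoidAlgebra ℚ (QP (X := X) (kerM M))) N := down_simple D hMfac hs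
  have hNH : finrank ℚ (N →ₗ[MonoidAlgebra ℚ (QP (X := X) (kerM M))]
      VV ℚ (QP (X := X) (kerM M)) (Orb (kerM M) X)) ≤ n := (finrank_hom_down_le D hMfac).trans hH
  have htr : MulAction.IsPretransitive (QP (X := X) (kerM M)) (Orb (kerM M) X) :=
    Pool.Agent.Lib.MP_938ce2_ag_u5.trans_quot D
  have hneX : Nonempty X := by
    rw [← Fintype.card_pos_iff, hA.card]
    have := hA.pos
    omega
  have hneO : Nonempty (Orb (kerM M) X) := by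
    obtain ⟨x⟩ := hneX
    exact ⟨Pool.Agent.Lib.MP_938ce2_ag_h67.Orb.mk (kerM M) x⟩
  let _ : Fintype (UU N q₁) := Fintype.ofFinite _
  let _ : Fintype (UU N q₂) := Fintype.ofFinite _
  have hm0 : 0 < n := by omega
  have hnR : (0 : ℝ) < n := by exact_mod_cast hm0
  have hq1R : (3 : ℝ) ≤ q₁ := by exact_mod_cast h3₁
  have hq2R : (3 : ℝ) ≤ q₂ := by exact_mod_cast h3₂
  have hq10 : (0 : ℝ) < q₁ := by linarith
  have hq20 : (0 : ℝ) < q₂ := by linarith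
  have hg0 : (0 : ℝ) < g := by exact_mod_cast hA.pos
  have hfr₂ : ∀ U : UU N q₂, finrank (ZMod q₂) U.1 = n := fun U =>
    (Pool.Agent.Lib.MP_938ce2_ag_u5.finrank_UU N q₂ hq₂ U).trans hNr
  have hodd₂ : ∀ U : UU N q₂, OddM (D.φ c) U.1 := fun U => odd_of_iso D N hNodd hA.sq q₂ U.1 U.2
  have hu1 := card_UU_d2 D M hMfac hE hH (by omega) q₁ h3₁ hq₁
  have hu2 := card_UU_d2 D M hMfac hE hH (by omega) q₂ h3₂ hq₂
  set u₁ : ℝ := (Nat.card (UU N q₁) : ℝ) with hu₁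
  set u₂ : ℝ := (Nat.card (UU N q₂) : ℝ) with hu₂
  have hcov := cover_two (g := g) (c := c) D M (DD_fac M) hq₁ hq₂
  refine hcov.trans ?_
  set B := csum q₂ ((g : ℝ) / n) ^ n / (q₂ : ℝ) ^ n with hB
  set R : ℝ := (12 / q₂ + 26 * q₁ * √(n / g)) ^ n with hR
  have hB0 : 0 ≤ B := by
    have := Pool.Agent.Lib.MP_938ce2_ag_h67.csum_nonneg (q := q₂) ((g : ℝ) / n)
    positivity
  have hR0 : 0 ≤ R := by positivity
  have hterm : ∀ U₂ : UU N q₂, ∑ U₁ : UU N q₁, PC c g ((jc D U₂.1).coprod (jc D U₁.1))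
      ≤ (u₁ * B + 2 * (3 * (q₁ : ℝ) ^ (n - 3)) * R) / (q₁ : ℝ) ^ n := by
    intro U₂
    let _ : Fintype U₂.1 := Fintype.ofFinite _
    have hc2 : Fintype.card U₂.1 = q₂ ^ n := by
      have h3 := Module.card_eq_pow_finrank (K := ZMod q₂) (V := U₂.1)
      rw [h3, ZMod.card, hfr₂]
    have h1 := chain_mu D hA N hNodd (by omega : q₁ ≠ 2) hq₁ (n * n)
      (Nat.mul_pos hm0 hm0) (by rw [hNr]; exact Nat.mul_le_mul_right _ hNH) hg
      (3 * q₁ ^ (n - 3)) (mu_bound N hNs hNE n hNr hm q₁ h3₁ hq₁) (jc D U₂.1)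
      (fun a x => by
        have h3 := hodd₂ U₂ a.1 a.2 (D.π x)
        rw [← D.comm] at h3
        rw [jc_apply, jc_apply, h3, map_neg])
      (by
        rw [hc2]
        apply Nat.Coprime.pow_right
        apply Nat.Coprime.mul_left
        · rw [Nat.coprime_primes Nat.prime_two hp₂]
          omega
        · rw [Nat.coprime_primes hp₁ hp₂]
          exact hne)
    rw [hNr] at h1
    refine h1.trans ?_
    apply div_le_div_of_nonneg_right _ (by positivity)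
    have h2 := PC_cs D hA (hp₂.odd_of_ne_two (by omega)) U₂.1 (hodd₂ U₂) n (hfr₂ U₂) hm0
    have h3 := ps_coarse D hA (160 * q₁ ^ 2) (by nlinarith) U₂.1 n (hfr₂ U₂) hm0
    have h4 : (12 / (q₂ : ℝ) + 2 * √((160 * q₁ ^ 2 : ℕ) * n / g)) ^ n ≤ R := by
      rw [hR]
      apply pow_le_pow_left₀ (by positivity)
      have h5 : √(((160 * q₁ ^ 2 : ℕ) : ℝ) * n / g) = √160 * q₁ * √(n / g) := by
        push_cast
        rw [mul_div_assoc, Real.sqrt_mul (by positivity), Real.sqrt_mul (by norm_num),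
          Real.sqrt_sq hq10.le]
      have h6 : √(160 : ℝ) ≤ 13 := by
        rw [Real.sqrt_le_left (by norm_num)]
        norm_num
      rw [h5]
      have h7 : 0 ≤ (q₁ : ℝ) * √((n : ℝ) / g) := by positivity
      nlinarith
    have h5 := h3.trans h4
    have h6 : 0 ≤ u₁ := Nat.cast_nonneg _
    have h7 : u₁ * PC c g (jc D U₂.1) ≤ u₁ * B := mul_le_mul_of_nonneg_left h2 h6
    have h8 : 2 * ((3 * q₁ ^ (n - 3) : ℕ) : ℝ) * PS (160 * q₁ ^ 2) (jc D U₂.1)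
        ≤ 2 * (3 * (q₁ : ℝ) ^ (n - 3)) * R := by
      push_cast
      exact mul_le_mul_of_nonneg_left h5 (by positivity)
    linarith
  calc ∑ U₂ : UU N q₂, ∑ U₁ : UU N q₁, PC c g ((jc D U₂.1).coprod (jc D U₁.1))
      ≤ ∑ _U₂ : UU N q₂, (u₁ * B + 2 * (3 * (q₁ : ℝ) ^ (n - 3)) * R) / (q₁ : ℝ) ^ n :=
        Finset.sum_le_sum fun U₂ _ => hterm U₂
    _ = u₂ * ((u₁ * B + 2 * (3 * (q₁ : ℝ) ^ (n - 3)) * R) / (q₁ : ℝ) ^ n) := by
        rw [Finset.sum_const, Finset.card_univ, nsmul_eq_mul, hu₂, Nat.card_eq_fintype_card]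
    _ ≤ (4 * (q₂ : ℝ) ^ (n - 2)) * ((4 * (q₁ : ℝ) ^ (n - 2) * B
          + 2 * (3 * (q₁ : ℝ) ^ (n - 3)) * R) / (q₁ : ℝ) ^ n) := by
        have h6 : 0 ≤ u₁ := Nat.cast_nonneg _
        apply mul_le_mul hu2 _ (by positivity) (by positivity)
        apply div_le_div_of_nonneg_right _ (by positivity)
        have := mul_le_mul_of_nonneg_right hu1 hB0
        linarith
    _ = 16 * csum q₂ ((g : ℝ) / n) ^ n / ((q₁ : ℝ) ^ 2 * (q₂ : ℝ) ^ 2)
        + 24 * (q₂ : ℝ) ^ (n - 2) * R / (q₁ : ℝ) ^ 3 := by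
        have e1 : (q₁ : ℝ) ^ n = (q₁ : ℝ) ^ (n - 3) * (q₁ : ℝ) ^ 3 := by
          rw [← pow_add]
          congr 1
          omega
        have e1' : (q₁ : ℝ) ^ (n - 2) = (q₁ : ℝ) ^ (n - 3) * q₁ := by
          rw [← pow_succ]
          congr 1
          omega
        have e2 : (q₂ : ℝ) ^ n = (q₂ : ℝ) ^ (n - 2) * (q₂ : ℝ) ^ 2 := by
          rw [← pow_add]
          congr 1
          omega
        rw [hB, e1', e1, e2]
        field_simp
        ring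

end

theorem bad_d2 (M₀ : ℕ) : ∃ C c' : ℝ, 0 < C ∧ 0 < c' ∧ ∀ (G X : Type) [Group G] [Fintype G]
    [MulAction G X] [Fintype X] [DecidableEq X] [MulAction.IsPretransitive G X] (c : G) (g : ℕ),
    Act G X c g → ∀ M : Submodule (MonoidAlgebra ℚ G) (VV ℚ G X),
    IsSimpleModule (MonoidAlgebra ℚ G) M → OddM c M → dE M = 2 → dH M = dM M →
    4 ≤ dM M → dM M < M₀ →
    ((badC c M).card : ℝ) / 2 ^ g ≤ C * (g : ℝ) ^ (-1 - c' : ℝ) := by
  set c₁ : ℝ := 1 / (16 * ((M₀ : ℝ) + 1)) with hc₁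
  have hc₁0 : 0 < c₁ := by positivity
  have hc₁1 : c₁ ≤ 1 / 16 := by
    rw [hc₁]
    apply one_div_le_one_div_of_le (by norm_num)
    have : (0 : ℝ) ≤ M₀ := Nat.cast_nonneg _
    linarith
  set a : ℝ := 1 / 4 + c₁ with ha
  have ha0 : 0 < a := by positivity
  set K : ℝ := 12 + 208 * √M₀ with hK
  have hK0 : 12 ≤ K := by
    have := Real.sqrt_nonneg (M₀ : ℝ)
    rw [hK]
    linarith
  set L₀ : ℝ := log (9 * ((M₀ : ℝ) * M₀ + 1)) with hL₀
  -- conditions on g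
  have e1 := large_pow a (3 ^ (M₀ * M₀) + 3) ha0
  have e2 := large_pow (1 / 2 - 2 * c₁) (4 * M₀) (by linarith)
  have e3 := large_pow (1 / 2 - 2 * c₁) (4 * (M₀ * M₀) * 64 * L₀) (by linarith)
  obtain ⟨g₀, hg₀⟩ := Filter.eventually_atTop.1 ((e1.and e2).and (e3.and
    (Filter.eventually_ge_atTop 1)))
  set C₁ : ℝ := 16 * 4 ^ M₀ + 24 * 2 ^ M₀ * K ^ M₀ with hC₁
  refine ⟨C₁ + (g₀ + 1 : ℝ) ^ (1 + 4 * c₁), 4 * c₁, by positivity, by positivity, ?_⟩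
  intro G X _ _ _ _ _ _ c g hA M hs hodd hE hH hm4 hmM
  classical
  have hg1 : (1 : ℝ) ≤ g := by exact_mod_cast hA.pos
  have hg0 : (0 : ℝ) < g := by linarith
  have hgp : 0 < (g : ℝ) ^ (-1 - 4 * c₁ : ℝ) := by positivity
  rcases Nat.lt_or_ge g g₀ with hlt | hge
  · refine (Pool.Agent.Lib.MP_938ce2_ag_u5.bad_le_one hA M).trans ?_
    have h1 : 1 ≤ (g₀ + 1 : ℝ) ^ (1 + 4 * c₁) * (g : ℝ) ^ (-1 - 4 * c₁ : ℝ) := by
      have h2 : (-1 - 4 * c₁ : ℝ) = -(1 + 4 * c₁) := by ring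
      rw [h2, Real.rpow_neg hg0.le, ← div_eq_mul_inv, one_le_div (by positivity)]
      apply Real.rpow_le_rpow hg0.le _ (by positivity)
      have h3 : (g : ℝ) ≤ g₀ := by exact_mod_cast hlt.le
      linarith
    have h2 : 0 ≤ C₁ * (g : ℝ) ^ (-1 - 4 * c₁ : ℝ) := by positivity
    nlinarith
  obtain ⟨⟨f1, f2⟩, f3, -⟩ := hg₀ g hge
  set m := dM M with hmdef
  have hmR : (4 : ℝ) ≤ m := by exact_mod_cast hm4
  have hmM' : (m : ℝ) ≤ M₀ := by exact_mod_cast hmM.le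
  have hM₀R : (0 : ℝ) < M₀ := by linarith
  set x : ℝ := (g : ℝ) ^ a with hx
  have hx3 : (3 : ℝ) ^ (M₀ * M₀) + 3 ≤ x := f1
  have h3p : (1 : ℝ) ≤ (3 : ℝ) ^ (M₀ * M₀) := one_le_pow₀ (by norm_num)
  have hx1 : 1 ≤ x := by linarith
  have hx0 : 0 < x := by linarith
  obtain ⟨q₂, hp₂, hl₂, hu₂⟩ := prime_between x hx1
  obtain ⟨q₁, hp₁, hl₁, hu₁⟩ := prime_between (4 * x) (by linarith)
  have hidx : (kerM M).index ≤ 3 ^ (M₀ * M₀) :=
    (Pool.Agent.Lib.MP_938ce2_ag_u4.index_le_mink M).trans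
      (Nat.pow_le_pow_right (by norm_num) (Nat.mul_le_mul hmM.le hmM.le))
  have hidx0 : 0 < (kerM M).index := Nat.pos_of_ne_zero Subgroup.index_ne_zero_of_finite
  have hbig : ∀ q : ℕ, x ≤ q → 3 ≤ q ∧ ¬ q ∣ (kerM M).index := by
    intro q hq
    have h1 : ((3 ^ (M₀ * M₀) : ℕ) : ℝ) + 3 ≤ q := by
      push_cast
      exact hx3.trans hq
    have h2 : 3 ^ (M₀ * M₀) + 3 ≤ q := by exact_mod_cast h1
    refine ⟨by omega, fun h => ?_⟩
    have := Nat.le_of_dvd hidx0 h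
    omega
  obtain ⟨h3₂, hnd₂⟩ := hbig q₂ hl₂
  obtain ⟨h3₁, hnd₁⟩ := hbig q₁ (by linarith)
  have hne : q₁ ≠ q₂ := by
    intro h
    rw [h] at hl₁
    linarith
  have hq10 : (0 : ℝ) < q₁ := by linarith
  have hq20 : (0 : ℝ) < q₂ := by linarith
  -- x² = g^(2a), x² * g^(1/2 - 2c₁) = g
  have hxx : x ^ 2 * (g : ℝ) ^ (1 / 2 - 2 * c₁ : ℝ) = g := by
    rw [hx, ← Real.rpow_natCast, ← Real.rpow_mul hg0.le, ← Real.rpow_add hg0]
    nth_rewrite 2 [← Real.rpow_one (g : ℝ)]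
    congr 1
    rw [ha]
    push_cast
    ring
  have hcond : 4 * (m * m : ℕ) * (q₁ : ℝ) ^ 2 * log (9 * (m * m : ℕ)) ≤ g := by
    push_cast
    have h1 : (q₁ : ℝ) ^ 2 ≤ 64 * x ^ 2 := by nlinarith
    have h2 : (m : ℝ) * m ≤ M₀ * M₀ := mul_le_mul hmM' hmM' (by linarith) hM₀R.le
    have h3 : log (9 * ((m : ℝ) * m)) ≤ L₀ := by
      rw [hL₀]
      apply Real.log_le_log (by positivity)
      linarith
    have h4 : 0 ≤ log (9 * ((m : ℝ) * m)) := Real.log_nonneg (by nlinarith)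
    calc 4 * ((m : ℝ) * m) * (q₁ : ℝ) ^ 2 * log (9 * ((m : ℝ) * m))
        ≤ 4 * ((M₀ : ℝ) * M₀) * (64 * x ^ 2) * L₀ := by
          apply mul_le_mul _ h3 h4 (by positivity)
          apply mul_le_mul _ h1 (by positivity) (by positivity)
          linarith
      _ = x ^ 2 * (4 * ((M₀ : ℝ) * M₀) * 64 * L₀) := by ring
      _ ≤ x ^ 2 * (g : ℝ) ^ (1 / 2 - 2 * c₁ : ℝ) := mul_le_mul_of_nonneg_left f3 (by positivity)
      _ = g := hxx
  have hmain := two_gen_d2 hA M hs hodd hm4 hE hH.le q₁ q₂ hp₁ hp₂ h3₁ h3₂ hne hnd₁ hnd₂ hcond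
  have hf2 : Fact q₂.Prime := ⟨hp₂⟩
  refine hmain.trans ?_
  -- first term
  have hcs : csum q₂ ((g : ℝ) / m) ^ m ≤ 4 ^ M₀ := by
    have h1 : (q₂ : ℝ) ^ 2 ≤ (g : ℝ) / m := by
      rw [le_div_iff₀ (by linarith)]
      calc (q₂ : ℝ) ^ 2 * m ≤ (2 * x) ^ 2 * M₀ :=
            mul_le_mul (pow_le_pow_left₀ hq20.le hu₂ 2) hmM' (by linarith) (by positivity)
        _ = x ^ 2 * (4 * M₀) := by ring
        _ ≤ x ^ 2 * (g : ℝ) ^ (1 / 2 - 2 * c₁ : ℝ) := mul_le_mul_of_nonneg_left f2 (by positivity)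
        _ = g := hxx
    have h2 := csum_le_refined (hp₂.odd_of_ne_two (by omega)) h1
    have h3 : Real.exp (-((g : ℝ) / m / (q₂ : ℝ) ^ 2)) ≤ 1 := by
      rw [Real.exp_le_one_iff, neg_nonpos]
      positivity
    calc csum q₂ ((g : ℝ) / m) ^ m ≤ 4 ^ m := by
          apply pow_le_pow_left₀ (csum_nonneg _)
          linarith
      _ ≤ 4 ^ M₀ := pow_le_pow_right₀ (by norm_num) hmM.le
  have hx4 : (x ^ 4)⁻¹ ≤ (g : ℝ) ^ (-1 - 4 * c₁ : ℝ) := by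
    rw [hx, ← Real.rpow_natCast, ← Real.rpow_mul hg0.le, ← Real.rpow_neg hg0.le]
    apply Real.rpow_le_rpow_of_exponent_le hg1
    rw [ha]
    push_cast
    linarith
  have hT1 : 16 * csum q₂ ((g : ℝ) / m) ^ m / ((q₁ : ℝ) ^ 2 * (q₂ : ℝ) ^ 2)
      ≤ 16 * 4 ^ M₀ * (g : ℝ) ^ (-1 - 4 * c₁ : ℝ) := by
    have h1 : x ^ 4 ≤ (q₁ : ℝ) ^ 2 * (q₂ : ℝ) ^ 2 := by
      calc x ^ 4 = x ^ 2 * x ^ 2 := by ring
        _ ≤ (q₁ : ℝ) ^ 2 * (q₂ : ℝ) ^ 2 :=
          mul_le_mul (pow_le_pow_left₀ hx0.le (by linarith) 2)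
            (pow_le_pow_left₀ hx0.le hl₂ 2) (by positivity) (by positivity)
    calc 16 * csum q₂ ((g : ℝ) / m) ^ m / ((q₁ : ℝ) ^ 2 * (q₂ : ℝ) ^ 2)
        ≤ 16 * 4 ^ M₀ / x ^ 4 := by
          apply div_le_div₀ (by positivity) _ (by positivity) h1
          linarith
      _ = 16 * 4 ^ M₀ * (x ^ 4)⁻¹ := div_eq_mul_inv _ _
      _ ≤ _ := mul_le_mul_of_nonneg_left hx4 (by positivity)
  -- second term
  have hsg : √((m : ℝ) / g) ≤ √M₀ * (g : ℝ) ^ (-(1 / 2) : ℝ) := by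
    rw [Real.sqrt_div (by linarith), Real.sqrt_eq_rpow (g : ℝ), Real.rpow_neg hg0.le,
      div_eq_mul_inv]
    apply mul_le_mul_of_nonneg_right (Real.sqrt_le_sqrt hmM') (by positivity)
  set y : ℝ := x * (g : ℝ) ^ (-(1 / 2) : ℝ) with hy
  have hy0 : 0 < y := by positivity
  have hxy : x⁻¹ ≤ y := by
    rw [hy, inv_le_iff_one_le_mul₀ hx0]
    have h1 : x * (g : ℝ) ^ (-(1 / 2) : ℝ) * x = (g : ℝ) ^ (2 * c₁ : ℝ) := by
      rw [hx, mul_right_comm, ← Real.rpow_add hg0, ← Real.rpow_add hg0]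
      congr 1
      rw [ha]
      ring
    rw [h1]
    exact Real.one_le_rpow hg1 (by positivity)
  have hbase : 12 / (q₂ : ℝ) + 26 * q₁ * √(m / g) ≤ K * y := by
    have h1 : 12 / (q₂ : ℝ) ≤ 12 * y := by
      rw [div_eq_mul_inv]
      apply mul_le_mul_of_nonneg_left _ (by norm_num)
      exact (inv_anti₀ hx0 hl₂).trans hxy
    have h2 : 26 * (q₁ : ℝ) * √(m / g) ≤ 208 * √M₀ * y := by
      calc 26 * (q₁ : ℝ) * √(m / g) ≤ 26 * (2 * (4 * x)) * (√M₀ * (g : ℝ) ^ (-(1 / 2) : ℝ)) :=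
            mul_le_mul (by linarith) hsg (by positivity) (by positivity)
        _ = 208 * √M₀ * y := by rw [hy]; ring
    rw [hK]
    linarith
  have hT2 : 24 * (q₂ : ℝ) ^ (m - 2) * (12 / q₂ + 26 * q₁ * √(m / g)) ^ m / (q₁ : ℝ) ^ 3
      ≤ 24 * 2 ^ M₀ * K ^ M₀ * (g : ℝ) ^ (-1 - 4 * c₁ : ℝ) := by
    have h1 : (q₂ : ℝ) ^ (m - 2) ≤ 2 ^ M₀ * x ^ (m - 2) := by
      calc (q₂ : ℝ) ^ (m - 2) ≤ (2 * x) ^ (m - 2) := pow_le_pow_left₀ hq20.le hu₂ _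
        _ = 2 ^ (m - 2) * x ^ (m - 2) := mul_pow _ _ _
        _ ≤ 2 ^ M₀ * x ^ (m - 2) := by
            apply mul_le_mul_of_nonneg_right _ (by positivity)
            exact pow_le_pow_right₀ (by norm_num) (by omega)
    have h2 : (12 / (q₂ : ℝ) + 26 * q₁ * √(m / g)) ^ m ≤ K ^ M₀ * y ^ m := by
      calc (12 / (q₂ : ℝ) + 26 * q₁ * √(m / g)) ^ m ≤ (K * y) ^ m :=
            pow_le_pow_left₀ (by positivity) hbase m
        _ = K ^ m * y ^ m := mul_pow _ _ _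
        _ ≤ K ^ M₀ * y ^ m := by
            apply mul_le_mul_of_nonneg_right _ (by positivity)
            exact pow_le_pow_right₀ (by linarith) hmM.le
    have h3 : x ^ 3 ≤ (q₁ : ℝ) ^ 3 := pow_le_pow_left₀ hx0.le (by linarith) 3
    have h4 : x ^ (m - 2) * y ^ m / x ^ 3 ≤ (g : ℝ) ^ (-1 - 4 * c₁ : ℝ) := by
      have h5 : x ^ (m - 2) * y ^ m / x ^ 3
          = (g : ℝ) ^ (a * (m - 2 : ℕ) + (a - 1 / 2) * m - a * 3) := by
        rw [Real.rpow_sub hg0, Real.rpow_add hg0, Real.rpow_mul hg0.le, Real.rpow_mul hg0.le,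
          Real.rpow_mul hg0.le, Real.rpow_natCast, Real.rpow_natCast]
        have h6 : (g : ℝ) ^ (a - 1 / 2) = y := by
          rw [hy, hx, ← Real.rpow_add hg0]
          congr 1
        have h7 : ((g : ℝ) ^ a) ^ (3 : ℝ) = x ^ 3 := by
          rw [← hx]
          exact_mod_cast Real.rpow_natCast x 3
        rw [h6, h7]
      rw [h5]
      apply Real.rpow_le_rpow_of_exponent_le hg1
      have h6 : ((m - 2 : ℕ) : ℝ) = m - 2 := by
        rw [Nat.cast_sub (by omega)]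
        norm_num
      rw [h6, ha]
      have h7 : c₁ * m ≤ 1 / 16 := by
        rw [hc₁, one_div_mul_eq_div, div_le_div_iff₀ (by positivity) (by norm_num)]
        linarith
      have h8 : c₁ * 4 ≤ c₁ * m := mul_le_mul_of_nonneg_left hmR hc₁0.le
      nlinarith
    calc 24 * (q₂ : ℝ) ^ (m - 2) * (12 / q₂ + 26 * q₁ * √(m / g)) ^ m / (q₁ : ℝ) ^ 3
        ≤ 24 * (2 ^ M₀ * x ^ (m - 2)) * (K ^ M₀ * y ^ m) / x ^ 3 := by
          apply div_le_div₀ (by positivity) _ (by positivity) h3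
          apply mul_le_mul _ h2 (by positivity) (by positivity)
          linarith
      _ = 24 * 2 ^ M₀ * K ^ M₀ * (x ^ (m - 2) * y ^ m / x ^ 3) := by ring
      _ ≤ _ := mul_le_mul_of_nonneg_left h4 (by positivity)
  have hfin : 0 ≤ (g₀ + 1 : ℝ) ^ (1 + 4 * c₁) * (g : ℝ) ^ (-1 - 4 * c₁ : ℝ) := by positivity
  rw [hC₁]
  nlinarith

end Pool.Agent.Lib.MP_938ce2_ag_u6
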