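import Mathlib
import Pool.Agent.Lib.MP_938ce2_ag_u4.Main4
import Pool.Agent.Lib.MP_938ce2_ag_u5.Two
import Pool.Agent.Lib.MP_938ce2_ag_u6.BigN
import Pool.Agent.Lib.MP_938ce2_ag_u6.DTwo
import Pool.Agent.Lib.MP_938ce2_ag_K.K8
import Pool.Agent.Lib.MP_938ce2_ag_M.MH

/-!
The simple odd modules of dimension two and of dimension at least three.
-/

set_option autoImplicit false
set_option linter.unusedSectionVars false

namespace Pool.Agent.Lib.MP_938ce2_ag_u6

open Finset Module MonoidAlgebra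
open Pool.Agent.Lib.MP_938ce2_ag_h67 (sg VV ev mkV Orb red kerM finrank_hom_congr)
open Pool.Agent.Lib.MP_938ce2_ag_h60 (CMType)
open Pool.Agent.Lib.MP_938ce2_ag_u2 (Act OddM badC mem_badC dM dE dH)
open Pool.Agent.Lib.MP_938ce2_ag_h85d (finrank_hom_le finite_hom)
open Pool.Agent.Lib.MP_938ce2_ag_u2 (Data numericV)
open Pool.Agent.Lib.MP_938ce2_ag_u3 (dM_pos dE_pos odd_numbers)
open Pool.Agent.Lib.MP_938ce2_ag_u4 (exists_data4 card_orb_le sharp_bad sharp numericR num_II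
  DataR exists_dataR)
open Pool.Agent.Lib.MP_938ce2_ag_u5 (bad_two bad_le_one)
open Pool.Agent.Lib.MP_938ce2_ag_K (K_two K_three)
open Pool.Agent.Lib.MP_938ce2_ag_M (five)

section

variable {G X : Type} [Group G] [Fintype G] [MulAction G X] [Fintype X] [DecidableEq X] {c : G}
  {g : ℕ} [MulAction.IsPretransitive G X]

theorem badC_iso (M M' : Submodule (MonoidAlgebra ℚ G) (VV ℚ G X))
    (h : Nonempty (M ≃ₗ[MonoidAlgebra ℚ G] M')) : badC c M = badC c M' := by
  obtain ⟨e⟩ := h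
  ext Φ
  rw [mem_badC, mem_badC]
  refine and_congr_right fun _ => exists_congr fun M'' => and_congr_left fun _ => ?_
  exact ⟨fun ⟨f⟩ => ⟨e.symm.trans f⟩, fun ⟨f⟩ => ⟨e.trans f⟩⟩

theorem dims_iso (M M' : Submodule (MonoidAlgebra ℚ G) (VV ℚ G X))
    (h : Nonempty (M ≃ₗ[MonoidAlgebra ℚ G] M')) : dM M = dM M' ∧ dE M = dE M' ∧ dH M = dH M' := by
  obtain ⟨e⟩ := h
  exact ⟨(e.restrictScalars ℚ).finrank_eq, finrank_hom_congr e e,
    finrank_hom_congr e (LinearEquiv.refl _ _)⟩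

theorem dE_dvd (hA : Act G X c g) (M : Submodule (MonoidAlgebra ℚ G) (VV ℚ G X))
    (hs : IsSimpleModule (MonoidAlgebra ℚ G) M) (hodd : OddM c M) : dE M ∣ dH M := by
  obtain ⟨ι, _, S, k, hS, hoddS, hall, hinj, hk1, hkδ, hsum⟩ := odd_numbers hA
  obtain ⟨i, hi⟩ := hall M hs hodd
  obtain ⟨-, h2, h3⟩ := dims_iso M (S i) hi
  rw [h2, h3, hkδ i]
  exact Dvd.intro_left _ rfl

end

/-- the modules of dimension two -/
theorem dim_two : ∃ C : ℝ, 0 < C ∧ ∀ (G X : Type) [Group G] [Fintype G] [MulAction G X] [Fintype X]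
    [DecidableEq X] [MulAction.IsPretransitive G X] (c : G) (g : ℕ), Act G X c g → 2 ≤ g →
    ∀ M : Submodule (MonoidAlgebra ℚ G) (VV ℚ G X), IsSimpleModule (MonoidAlgebra ℚ G) M →
      OddM c M → dM M = 2 → ((badC c M).card : ℝ) / 2 ^ g ≤ C * (Real.log g / g) := by
  obtain ⟨C₀, hC0, g₁, hC⟩ := sharp
  obtain ⟨C₂, hC₂0, hC₂⟩ := K_two
  refine ⟨8 * C₀ + C₂ + 2 * (g₁ + 1), by positivity, ?_⟩
  intro G X _ _ _ _ _ _ c g hA hg2 M hs hodd hM
  have hg2R : (2 : ℝ) ≤ g := by exact_mod_cast hg2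
  have hg0 : (0 : ℝ) < g := by linarith
  have hlog2 : 1 / 2 ≤ Real.log g := by
    have h4 : Real.log 2 ≤ Real.log g := Real.log_le_log (by norm_num) hg2R
    have h5 := Real.log_two_gt_d9
    linarith
  have hr0 : 0 ≤ Real.log g / g := by positivity
  have hne : Nonempty X := by
    rw [← Fintype.card_pos_iff, hA.card]
    have := hA.pos
    omega
  have hle : dH M ≤ dM M := finrank_hom_le M
  have hE1 := dE_pos M hs
  have hdvd := dE_dvd hA M hs hodd
  rcases Nat.lt_or_ge g g₁ with hlt | hge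
  · refine (bad_le_one hA M).trans ?_
    have h1 : (g : ℝ) ≤ g₁ := by exact_mod_cast hlt.le
    have h2 : 1 ≤ 2 * ((g₁ : ℝ) + 1) * (Real.log g / g) := by
      rw [mul_div_assoc', le_div_iff₀ hg0]
      nlinarith
    have h3 : 0 ≤ (8 * C₀ + C₂) * (Real.log g / g) := by positivity
    linarith
  have hfin : ∀ x : ℝ, x ≤ (8 * C₀ + C₂) * (Real.log g / g) →
      x ≤ (8 * C₀ + C₂ + 2 * (g₁ + 1)) * (Real.log g / g) := by
    intro x hx
    have h3 : 0 ≤ 2 * ((g₁ : ℝ) + 1) * (Real.log g / g) := by positivity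
    linarith
  apply hfin
  by_cases h2 : dE M + dM M - dH M = 2
  · have h4 := sharp_bad hC hge hA M hs hodd hle h2.le (by rw [hM]; omega)
    have h5 : Real.log ((2 : ℕ) : ℝ) ≤ 1 := by
      have := Real.log_two_lt_d9
      push_cast
      linarith
    have h6 : 0 ≤ Real.log ((2 : ℕ) : ℝ) := Real.log_nonneg (by norm_num)
    rw [h2, hM, Real.sq_sqrt (by positivity)] at h4
    have h7 : C₀ * (((2 : ℕ) : ℝ) * (1 + Real.log ((2 : ℕ) : ℝ)) / g)
        ≤ 8 * C₀ * (Real.log g / g) := by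
      calc C₀ * (((2 : ℕ) : ℝ) * (1 + Real.log ((2 : ℕ) : ℝ)) / g)
          = C₀ * (((2 : ℕ) : ℝ) * (1 + Real.log ((2 : ℕ) : ℝ))) / g := by ring
        _ ≤ 8 * C₀ * Real.log g / g := by
            apply div_le_div_of_nonneg_right _ hg0.le
            push_cast at h5 h6 ⊢
            nlinarith
        _ = 8 * C₀ * (Real.log g / g) := by ring
    have h8 : 0 ≤ C₂ * (Real.log g / g) := by positivity
    linarith
  · by_cases h1 : dE M = 1 ∧ dH M = 2
    · have h4 := hC₂ G X c g hA hg2 M hs hodd h1.1 (by omega) hM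
      have h8 : 0 ≤ 8 * C₀ * (Real.log g / g) := by positivity
      linarith
    · exfalso
      have h3 : 0 < dH M := by
        have h5 : 0 < dM M := by omega
        by_contra hcon
        have h6 : dH M = 0 := by omega
        have hntM : Nontrivial M := IsSimpleModule.nontrivial (MonoidAlgebra ℚ G) M
        have hfinM : Module.Finite ℚ M :=
          Module.Finite.of_injective (M.subtype.restrictScalars ℚ) Subtype.val_injective
        have hfe : Module.Finite ℚ (M →ₗ[MonoidAlgebra ℚ G] VV ℚ G X) := finite_hom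
        have : Nontrivial (M →ₗ[MonoidAlgebra ℚ G] VV ℚ G X) := by
          obtain ⟨x, hx⟩ := exists_ne (0 : M)
          exact ⟨⟨M.subtype, 0, fun h => hx (Subtype.ext
            (congrArg (fun f : M →ₗ[MonoidAlgebra ℚ G] VV ℚ G X => f x) h))⟩⟩
        have h7 := Module.finrank_pos (R := ℚ) (M := M →ₗ[MonoidAlgebra ℚ G] VV ℚ G X)
        exact absurd h6 (Nat.pos_iff_ne_zero.mp h7)
      have h5 := Nat.le_of_dvd h3 hdvd
      have h6 : dE M = 1 ∨ dE M = 2 := by omega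
      have h7 : dH M = 1 ∨ dH M = 2 := by omega
      rcases h6 with h6 | h6 <;> rcases h7 with h7 | h7 <;> omega

/-- powers of `g` -/
theorem num_pow (C a ε : ℝ) (hC : 0 < C) (ha : 0 < a) (hε : 0 < ε) : ∃ g₀ : ℕ, ∀ g : ℕ, g₀ ≤ g →
    1 ≤ g → (g : ℝ) * (C * (g : ℝ) ^ (-1 - a : ℝ)) ≤ ε := by
  have h1 : Filter.Tendsto (fun g : ℕ => C * (g : ℝ) ^ (-a : ℝ)) Filter.atTop
      (nhds (C * 0)) := by
    apply Filter.Tendsto.const_mul
    exact (tendsto_rpow_neg_atTop ha).comp tendsto_natCast_atTop_atTop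
  rw [mul_zero] at h1
  obtain ⟨g₀, h2⟩ := Filter.eventually_atTop.1 (h1.eventually_le_const hε)
  refine ⟨g₀, fun g hg hg1 => ?_⟩
  have hg0 : (0 : ℝ) < g := by exact_mod_cast hg1
  have h3 : (g : ℝ) * (C * (g : ℝ) ^ (-1 - a : ℝ)) = C * (g : ℝ) ^ (-a : ℝ) := by
    have h4 : (g : ℝ) ^ (-a : ℝ) = (g : ℝ) * (g : ℝ) ^ (-1 - a : ℝ) := by
      nth_rewrite 2 [← Real.rpow_one (g : ℝ)]
      rw [← Real.rpow_add hg0]
      congr 1
      ring
    rw [h4]
    ring
  rw [h3]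
  exact h2 g hg

/-- the modules of dimension at least three, for the family of all simple odd modules -/
theorem dim_three_all (ε : ℝ) (hε : 0 < ε) : ∃ g₀ : ℕ, ∀ (G X : Type) [Group G] [Fintype G]
    [MulAction G X] [Fintype X] [DecidableEq X] [MulAction.IsPretransitive G X] (c : G) (g : ℕ),
    Act G X c g → g₀ ≤ g → ∀ (ι : Type) [Fintype ι]
    (S : ι → Submodule (MonoidAlgebra ℚ G) (VV ℚ G X)) (k : ι → ℕ),
    (∀ i, IsSimpleModule (MonoidAlgebra ℚ G) (S i)) → (∀ i, OddM c (S i)) →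
    (∀ i, 1 ≤ k i) → (∀ i, dH (S i) = k i * dE (S i)) → ∑ i, k i * dM (S i) ≤ g →
    ∑ i : {i // 3 ≤ dM (S i)}, ((badC c (S i.1)).card : ℝ) / 2 ^ g ≤ ε := by
  obtain ⟨C₀, hC0, g₁, hC⟩ := sharp
  obtain ⟨g₂, hnum⟩ := numericV (ε / 8) (by positivity)
  obtain ⟨g₄, hR⟩ := numericR (ε / 8) (by positivity)
  obtain ⟨M₀, hII⟩ := num_II C₀ (ε / 8) hC0 (by positivity)
  obtain ⟨C₂, hC₂0, hC₂⟩ := bad_two M₀
  obtain ⟨g₃, hsm⟩ := num_pow C₂ (1 / 4) (ε / 8) hC₂0 (by norm_num) (by positivity)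
  obtain ⟨C₅, c₅, hC₅0, hc₅0, hC₅⟩ := bad_d2 M₀
  obtain ⟨g₅, hsm5⟩ := num_pow C₅ c₅ (ε / 8) hC₅0 hc₅0 (by positivity)
  obtain ⟨C₆, hC₆0, hC₆⟩ := K_three
  obtain ⟨g₆, hsm6⟩ := num_pow C₆ (1 / 20) (ε / 8) hC₆0 (by norm_num) (by positivity)
  obtain ⟨C₇, hC₇0, hC₇⟩ := five
  obtain ⟨g₇, hsm7⟩ := num_pow C₇ (1 / 20) (ε / 8) hC₇0 (by norm_num) (by positivity)
  obtain ⟨g₈, hbig⟩ := big_n (ε / 8) (by positivity)
  refine ⟨max (max (max g₁ g₂) (max g₃ g₄)) (max (max g₅ g₆) (max g₇ g₈)), ?_⟩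
  intro G X _ _ _ _ _ _ c g hA hg ι _ S k hS hodd hk1 hkδ hsum
  classical
  have hgA : max (max g₁ g₂) (max g₃ g₄) ≤ g := (le_max_left _ _).trans hg
  have hgB : max (max g₅ g₆) (max g₇ g₈) ≤ g := (le_max_right _ _).trans hg
  have hg1 : g₁ ≤ g := ((le_max_left _ _).trans (le_max_left _ _)).trans hgA
  have hg2 : g₂ ≤ g := ((le_max_right _ _).trans (le_max_left _ _)).trans hgA
  have hg3 : g₃ ≤ g := ((le_max_left _ _).trans (le_max_right _ _)).trans hgA
  have hg4 : g₄ ≤ g := ((le_max_right _ _).trans (le_max_right _ _)).trans hgA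
  have hg5 : g₅ ≤ g := ((le_max_left _ _).trans (le_max_left _ _)).trans hgB
  have hg6 : g₆ ≤ g := ((le_max_right _ _).trans (le_max_left _ _)).trans hgB
  have hg7 : g₇ ≤ g := ((le_max_left _ _).trans (le_max_right _ _)).trans hgB
  have hg8 : g₈ ≤ g := ((le_max_right _ _).trans (le_max_right _ _)).trans hgB
  have hne : Nonempty X := by
    rw [← Fintype.card_pos_iff, hA.card]
    have := hA.pos
    omega
  have hgR : (1 : ℝ) ≤ g := by exact_mod_cast hA.pos
  have hg0 : (0 : ℝ) < g := by linarith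
  let N : ι → ℝ := fun i => ((badC c (S i)).card : ℝ) / 2 ^ g
  have hN0 : ∀ i, 0 ≤ N i := fun i => by positivity
  have hM1 : ∀ i, 1 ≤ dM (S i) := fun i => dM_pos (S i) (hS i)
  have hE1 : ∀ i, 1 ≤ dE (S i) := fun i => dE_pos (S i) (hS i)
  have hHM : ∀ i, dH (S i) ≤ dM (S i) := fun i => finrank_hom_le (S i)
  have hH1 : ∀ i, 1 ≤ dH (S i) := fun i => by
    rw [hkδ i]
    exact Nat.mul_pos (hk1 i) (hE1 i)
  have hterm : ∀ i, k i * dM (S i) ≤ g := fun i =>
    (Finset.single_le_sum (f := fun i => k i * dM (S i)) (fun _ _ => Nat.zero_le _)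
      (Finset.mem_univ i)).trans hsum
  -- squares of the dimensions for exponent at most two
  have hsq : ∀ i, dE (S i) + dM (S i) - dH (S i) ≤ 2 →
      dM (S i) * dM (S i) ≤ 2 * (k i * dM (S i)) := by
    intro i hi
    have h1 := hkδ i
    have h2 := hHM i
    have h3 := hM1 i
    have h4 := hE1 i
    have h5 := hH1 i
    have h6 : dM (S i) ≤ 2 * k i := by
      rcases Nat.lt_or_ge (dH (S i)) (dM (S i)) with h | h
      · have h7 : dE (S i) = 1 := by omega
        rw [h7, mul_one] at h1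
        omega
      · have h7 : dE (S i) ≤ 2 := by omega
        have h8 : dH (S i) = dM (S i) := le_antisymm h2 h
        calc dM (S i) = k i * dE (S i) := by rw [← h1, h8]
          _ ≤ k i * 2 := Nat.mul_le_mul_left _ h7
          _ = 2 * k i := by ring
    calc dM (S i) * dM (S i) ≤ (2 * k i) * dM (S i) := Nat.mul_le_mul_right _ h6
      _ = 2 * (k i * dM (S i)) := by ring
  have hNsharp : ∀ i, dE (S i) + dM (S i) - dH (S i) ≤ 2 →
      N i ≤ C₀ * √(dM (S i) * (1 + Real.log (dM (S i))) / g) ^ (dE (S i) + dM (S i) - dH (S i)) := by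
    intro i hi
    have h1 := hsq i hi
    have h2 := hterm i
    exact sharp_bad hC hg1 hA (S i) (hS i) (hodd i) (hHM i) hi (by omega)
  -- the classes
  obtain ⟨pA, hpA⟩ : ∃ p : ι → Prop, ∀ i, p i ↔
      (dH (S i) < dM (S i) ∧ 3 ≤ dE (S i) + dM (S i) - dH (S i)) := ⟨_, fun _ => Iff.rfl⟩
  obtain ⟨pR, hpR⟩ : ∃ p : ι → Prop, ∀ i, p i ↔
      (dH (S i) = dM (S i) ∧ 3 ≤ dE (S i)) := ⟨_, fun _ => Iff.rfl⟩
  obtain ⟨pL, hpL⟩ : ∃ p : ι → Prop, ∀ i, p i ↔
      (dE (S i) + dM (S i) - dH (S i) = 2 ∧ M₀ ≤ dM (S i)) := ⟨_, fun _ => Iff.rfl⟩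
  obtain ⟨pN, hpN⟩ : ∃ p : ι → Prop, ∀ i, p i ↔
      (dE (S i) = 1 ∧ dH (S i) + 1 = dM (S i) ∧ 3 ≤ dM (S i) ∧ dM (S i) < M₀) :=
    ⟨_, fun _ => Iff.rfl⟩
  obtain ⟨pD, hpD⟩ : ∃ p : ι → Prop, ∀ i, p i ↔
      (dE (S i) = 2 ∧ dH (S i) = dM (S i) ∧ 4 ≤ dM (S i) ∧ dM (S i) < M₀) :=
    ⟨_, fun _ => Iff.rfl⟩
  obtain ⟨pK, hpK⟩ : ∃ p : ι → Prop, ∀ i, p i ↔
      (dE (S i) = 1 ∧ dH (S i) = dM (S i) ∧ dM (S i) = 3) := ⟨_, fun _ => Iff.rfl⟩
  obtain ⟨pF, hpF⟩ : ∃ p : ι → Prop, ∀ i, p i ↔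
      (dE (S i) = 1 ∧ dH (S i) = dM (S i) ∧ 4 ≤ dM (S i) ∧
        (dM (S i) : ℝ) ≤ (g : ℝ) ^ (1 / 100 : ℝ)) := ⟨_, fun _ => Iff.rfl⟩
  obtain ⟨pB, hpB⟩ : ∃ p : ι → Prop, ∀ i, p i ↔
      (dE (S i) = 1 ∧ dH (S i) = dM (S i) ∧
        (g : ℝ) ^ (1 / 100 : ℝ) ≤ (dM (S i) : ℝ)) := ⟨_, fun _ => Iff.rfl⟩
  have hsub : ∀ (p : ι → Prop), ∑ i : {i // p i}, k i.1 * dM (S i.1) ≤ g := by
    intro p
    have h1 : ∑ i : {i // p i}, k i.1 * dM (S i.1)
        = ∑ i ∈ (Finset.univ : Finset {i // p i}).map ⟨Subtype.val, Subtype.val_injective⟩,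
          k i * dM (S i) := by
      rw [Finset.sum_map]
      rfl
    refine le_trans (le_of_eq h1) (le_trans ?_ hsum)
    exact Finset.sum_le_univ_sum_of_nonneg (fun _ => Nat.zero_le _)
  -- sums of a small bound
  have hsmall : ∀ (p : ι → Prop) (B : ℝ), 0 ≤ B → (∀ i, p i → N i ≤ B) → g * B ≤ ε / 8 →
      ∑ i : {i // p i}, N i.1 ≤ ε / 8 := by
    intro p B hB0 hB hgB'
    have h2 : Fintype.card {i // p i} ≤ g := by
      calc Fintype.card {i // p i} = ∑ _i : {i // p i}, 1 := by simp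
        _ ≤ ∑ i : {i // p i}, k i.1 * dM (S i.1) :=
            Finset.sum_le_sum fun i _ => Nat.mul_pos (hk1 i) (hM1 i)
        _ ≤ g := hsub p
    calc ∑ i : {i // p i}, N i.1 ≤ ∑ _i : {i // p i}, B :=
          Finset.sum_le_sum fun i _ => hB i.1 i.2
      _ = Fintype.card {i // p i} * B := by
          rw [Finset.sum_const, Finset.card_univ, nsmul_eq_mul]
      _ ≤ g * B := mul_le_mul_of_nonneg_right (by exact_mod_cast h2) hB0
      _ ≤ ε / 8 := hgB'
  -- class A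
  have hAsum : ∑ i : {i // pA i}, N i.1 ≤ ε / 8 := by
    have hdata : ∀ i : {i // pA i}, ∃ n κ s : ℕ, Data g (dM (S i.1)) (k i.1) (dE (S i.1))
        (dH (S i.1)) (kerM (S i.1)).index n κ s (N i.1) := by
      intro i
      have h := (hpA i.1).mp i.2
      exact exists_data4 hA (S i.1) (hS i.1) (hodd i.1) (k i.1) (hk1 i.1) (hkδ i.1) h.1 h.2
    choose n κ s' hdata using hdata
    exact hnum {i // pA i} g (fun i => dM (S i.1)) (fun i => k i.1) (fun i => dE (S i.1))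
      (fun i => dH (S i.1)) (fun i => (kerM (S i.1)).index) n κ s' (fun i => N i.1) hg2
      ((hsub pA).trans (show g ≤ 2 * g by omega)) hdata
  -- class R
  have hRsum : ∑ i : {i // pR i}, N i.1 ≤ ε / 8 := by
    have hdata : ∀ i : {i // pR i}, ∃ n s : ℕ, DataR g (dM (S i.1)) (k i.1) (dE (S i.1))
        (kerM (S i.1)).index n s (N i.1) := by
      intro i
      have h := (hpR i.1).mp i.2
      exact exists_dataR hA (S i.1) (hS i.1) (hodd i.1) (k i.1) (hk1 i.1) (hkδ i.1) h.1 h.2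
    choose n s' hdata using hdata
    exact hR {i // pR i} g (fun i => dM (S i.1)) (fun i => k i.1) (fun i => dE (S i.1))
      (fun i => (kerM (S i.1)).index) n s' (fun i => N i.1) hg4 (hsub pR) hdata
  -- class L
  have hLsum : ∑ i : {i // pL i}, N i.1 ≤ ε / 8 := by
    refine hII {i // pL i} g (fun i => dM (S i.1)) (fun i => N i.1) hA.pos
      (fun i => ((hpL i.1).mp i.2).2) ?_ ?_
    · calc ∑ i : {i // pL i}, dM (S i.1) * dM (S i.1)
          ≤ ∑ i : {i // pL i}, 2 * (k i.1 * dM (S i.1)) := by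
            refine Finset.sum_le_sum fun i _ => hsq i.1 ?_
            exact ((hpL i.1).mp i.2).1.le
        _ = 2 * ∑ i : {i // pL i}, k i.1 * dM (S i.1) := by rw [Finset.mul_sum]
        _ ≤ 2 * g := Nat.mul_le_mul_left _ (hsub pL)
    · intro i
      have h := (hpL i.1).mp i.2
      have h2 := hNsharp i.1 h.1.le
      rw [h.1] at h2
      exact h2
  -- class N
  have hNsum : ∑ i : {i // pN i}, N i.1 ≤ ε / 8 := by
    refine hsmall pN (C₂ * (g : ℝ) ^ (-1 - 1 / 4 : ℝ)) (by positivity) ?_ (hsm g hg3 hA.pos)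
    intro i hi
    have h := (hpN i).mp hi
    have h2 := hC₂ G X c g hA (S i) (hS i) (hodd i) h.1 h.2.1 h.2.2.1 h.2.2.2
    refine h2.trans (le_of_eq ?_)
    norm_num
  -- class D
  have hDsum : ∑ i : {i // pD i}, N i.1 ≤ ε / 8 := by
    refine hsmall pD (C₅ * (g : ℝ) ^ (-1 - c₅ : ℝ)) (by positivity) ?_ (hsm5 g hg5 hA.pos)
    intro i hi
    have h := (hpD i).mp hi
    exact hC₅ G X c g hA (S i) (hS i) (hodd i) h.1 h.2.1 h.2.2.1 h.2.2.2
  -- class K
  have hKsum : ∑ i : {i // pK i}, N i.1 ≤ ε / 8 := by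
    refine hsmall pK (C₆ * (g : ℝ) ^ (-1 - 1 / 20 : ℝ)) (by positivity) ?_ (hsm6 g hg6 hA.pos)
    intro i hi
    have h := (hpK i).mp hi
    have h2 := hC₆ G X c g hA (S i) (hS i) (hodd i) h.1 h.2.1 h.2.2
    refine h2.trans (le_of_eq ?_)
    norm_num
  -- class F
  have hFsum : ∑ i : {i // pF i}, N i.1 ≤ ε / 8 := by
    refine hsmall pF (C₇ * (g : ℝ) ^ (-1 - 1 / 20 : ℝ)) (by positivity) ?_ (hsm7 g hg7 hA.pos)
    intro i hi
    have h := (hpF i).mp hi
    have h2 := hC₇ G X c g hA (S i) (hS i) (hodd i) h.1 h.2.1 h.2.2.1 h.2.2.2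
    refine h2.trans (le_of_eq ?_)
    norm_num
  -- class B
  have hBsum : ∑ i : {i // pB i}, N i.1 ≤ ε / 8 := by
    have h1 : ∀ i : {i // pB i}, N i.1 ≤ ε / 8 * ((dM (S i.1) : ℝ) ^ 2 / g) := by
      intro i
      have h := (hpB i.1).mp i.2
      have h2 := hsq i.1 (by omega)
      have h3 := hterm i.1
      exact hbig G X c g hA hg8 (S i.1) (hS i.1) (hodd i.1) h.1 h.2.1 (by omega) h.2.2
    have h2 : ∑ i : {i // pB i}, dM (S i.1) * dM (S i.1) ≤ g := by
      refine le_trans (le_of_eq (Finset.sum_congr rfl fun i _ => ?_)) (hsub pB)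
      have h := (hpB i.1).mp i.2
      have h3 := hkδ i.1
      rw [h.1, mul_one, h.2.1] at h3
      rw [← h3]
    have h2R : ∑ i : {i // pB i}, (dM (S i.1) : ℝ) ^ 2 ≤ g := by
      have h3 : ∑ i : {i // pB i}, (dM (S i.1) : ℝ) ^ 2
          = ((∑ i : {i // pB i}, dM (S i.1) * dM (S i.1) : ℕ) : ℝ) := by
        push_cast
        exact Finset.sum_congr rfl fun i _ => sq _
      rw [h3]
      exact_mod_cast h2
    calc ∑ i : {i // pB i}, N i.1 ≤ ∑ i : {i // pB i}, ε / 8 * ((dM (S i.1) : ℝ) ^ 2 / g) :=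
          Finset.sum_le_sum fun i _ => h1 i
      _ = ε / 8 * ((∑ i : {i // pB i}, (dM (S i.1) : ℝ) ^ 2) / g) := by
          rw [← Finset.mul_sum, Finset.sum_div]
      _ ≤ ε / 8 * 1 := by
          apply mul_le_mul_of_nonneg_left _ (by positivity)
          rw [div_le_one hg0]
          exact h2R
      _ = ε / 8 := mul_one _
  -- all classes
  have hcast : ∀ (p : ι → Prop) [DecidablePred p],
      ∑ i ∈ Finset.univ.filter p, N i = ∑ i : {i // p i}, N i.1 := by
    intro p _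
    rw [Finset.sum_subtype (Finset.univ.filter p) (p := p) (fun i => by simp)]
  have hcases : ∀ i, 3 ≤ dM (S i) → pA i ∨ pR i ∨ pL i ∨ pN i ∨ pD i ∨ pK i ∨ pF i ∨ pB i := by
    intro i hi3
    rw [hpA, hpR, hpL, hpN, hpD, hpK, hpF, hpB]
    have h1 := hHM i
    have h2 := hM1 i
    have h3 := hE1 i
    have h4 := hH1 i
    have h5 := hkδ i
    rcases Nat.lt_or_ge (dH (S i)) (dM (S i)) with h | h
    · omega
    · have heq : dH (S i) = dM (S i) := le_antisymm h1 h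
      rcases Nat.lt_or_ge 2 (dE (S i)) with h6 | h6
      · exact Or.inr (Or.inl ⟨heq, h6⟩)
      · rcases Nat.lt_or_ge 1 (dE (S i)) with h7 | h7
        · have h8 : dE (S i) = 2 := by omega
          rw [h8] at h5
          rcases Nat.lt_or_ge (dM (S i)) M₀ with h9 | h9
          · exact Or.inr (Or.inr (Or.inr (Or.inr (Or.inl ⟨h8, heq, by omega, h9⟩))))
          · exact Or.inr (Or.inr (Or.inl ⟨by omega, h9⟩))
        · have h8 : dE (S i) = 1 := by omega
          rcases le_or_gt (dM (S i) : ℝ) ((g : ℝ) ^ (1 / 100 : ℝ)) with h10 | h10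
          · rcases Nat.lt_or_ge (dM (S i)) 4 with h9 | h9
            · exact Or.inr (Or.inr (Or.inr (Or.inr (Or.inr (Or.inl ⟨h8, heq, by omega⟩)))))
            · exact Or.inr (Or.inr (Or.inr (Or.inr (Or.inr (Or.inr (Or.inl
                ⟨h8, heq, h9, h10⟩))))))
          · exact Or.inr (Or.inr (Or.inr (Or.inr (Or.inr (Or.inr (Or.inr
              ⟨h8, heq, h10.le⟩))))))
  refine le_trans (le_of_eq (hcast (fun i => 3 ≤ dM (S i))).symm) ?_
  have htot : ∑ i ∈ Finset.univ.filter (fun i => 3 ≤ dM (S i)), N i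
      ≤ ∑ i ∈ Finset.univ.filter pA, N i + ∑ i ∈ Finset.univ.filter pR, N i
      + ∑ i ∈ Finset.univ.filter pL, N i + ∑ i ∈ Finset.univ.filter pN, N i
      + ∑ i ∈ Finset.univ.filter pD, N i + ∑ i ∈ Finset.univ.filter pK, N i
      + ∑ i ∈ Finset.univ.filter pF, N i + ∑ i ∈ Finset.univ.filter pB, N i := by
    simp only [Finset.sum_filter, ← Finset.sum_add_distrib]
    refine Finset.sum_le_sum fun i _ => ?_
    have h0 := hN0 i
    have hn : ∀ p : Prop, ∀ _ : Decidable p, 0 ≤ (if p then N i else 0) := by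
      intro p _
      split_ifs <;> [exact h0; exact le_refl _]
    have h1 := hn (pA i) inferInstance
    have h2 := hn (pR i) inferInstance
    have h3 := hn (pL i) inferInstance
    have h4 := hn (pN i) inferInstance
    have h5 := hn (pD i) inferInstance
    have h6 := hn (pK i) inferInstance
    have h7 := hn (pF i) inferInstance
    have h8 := hn (pB i) inferInstance
    by_cases hi3 : 3 ≤ dM (S i)
    · rw [if_pos hi3]
      rcases hcases i hi3 with h | h | h | h | h | h | h | h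
      · have h9 : (if pA i then N i else 0) = N i := if_pos h
        linarith
      · have h9 : (if pR i then N i else 0) = N i := if_pos h
        linarith
      · have h9 : (if pL i then N i else 0) = N i := if_pos h
        linarith
      · have h9 : (if pN i then N i else 0) = N i := if_pos h
        linarith
      · have h9 : (if pD i then N i else 0) = N i := if_pos h
        linarith
      · have h9 : (if pK i then N i else 0) = N i := if_pos h
        linarith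
      · have h9 : (if pF i then N i else 0) = N i := if_pos h
        linarith
      · have h9 : (if pB i then N i else 0) = N i := if_pos h
        linarith
    · rw [if_neg hi3]
      linarith
  rw [hcast pA, hcast pR, hcast pL, hcast pN, hcast pD, hcast pK, hcast pF, hcast pB] at htot
  linarith

/-- the modules of dimension at least three -/
theorem dim_three : ∀ ε : ℝ, 0 < ε → ∃ g₀ : ℕ, ∀ (G X : Type) [Group G] [Fintype G] [MulAction G X]
    [Fintype X] [DecidableEq X] [MulAction.IsPretransitive G X] (c : G) (g : ℕ), Act G X c g →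
    g₀ ≤ g → ∀ (ι : Type) [Fintype ι] (S : ι → Submodule (MonoidAlgebra ℚ G) (VV ℚ G X)),
      (∀ i, IsSimpleModule (MonoidAlgebra ℚ G) (S i)) → (∀ i, OddM c (S i)) →
      (∀ i j, Nonempty (S i ≃ₗ[MonoidAlgebra ℚ G] S j) → i = j) → (∀ i, 3 ≤ dM (S i)) →
      ∑ i, ((badC c (S i)).card : ℝ) / 2 ^ g ≤ ε := by
  intro ε hε
  obtain ⟨g₀, hg₀⟩ := dim_three_all ε hε
  refine ⟨g₀, ?_⟩
  intro G X _ _ _ _ _ _ c g hA hg ι _ S hS hodd hinj h3
  classical
  obtain ⟨ι', _, S', k, hS', hodd', hall, hinj', hk1, hkδ, hsum⟩ := odd_numbers hA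
  have hmain := hg₀ G X c g hA hg ι' S' k hS' hodd' hk1 hkδ hsum
  choose f hf using fun i => hall (S i) (hS i) (hodd i)
  have hf3 : ∀ i, 3 ≤ dM (S' (f i)) := by
    intro i
    rw [← (dims_iso (S i) (S' (f i)) (hf i)).1]
    exact h3 i
  let F : ι → {i // 3 ≤ dM (S' i)} := fun i => ⟨f i, hf3 i⟩
  have hF : Function.Injective F := by
    intro i j hij
    have h1 : f i = f j := congrArg Subtype.val hij
    apply hinj
    obtain ⟨e⟩ := hf i
    have h2 := hf j
    rw [← h1] at h2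
    obtain ⟨e'⟩ := h2
    exact ⟨e.trans e'.symm⟩
  refine le_trans ?_ hmain
  have h1 : ∀ i, ((badC c (S i)).card : ℝ) / 2 ^ g
      = ((badC c (S' (F i).1)).card : ℝ) / 2 ^ g := by
    intro i
    rw [badC_iso (S i) (S' (F i).1) (hf i)]
  rw [Finset.sum_congr rfl fun i _ => h1 i]
  have h2 := Finset.sum_map (Finset.univ : Finset ι) ⟨F, hF⟩
    (fun j : {i // 3 ≤ dM (S' i)} => ((badC c (S' j.1)).card : ℝ) / 2 ^ g)
  simp only [Function.Embedding.coeFn_mk] at h2
  rw [← h2]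
  exact Finset.sum_le_univ_sum_of_nonneg fun j => by positivity

end Pool.Agent.Lib.MP_938ce2_ag_u6
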