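import Mathlib
import Pool.Agent.Lib.MP_938ce2_ag_u5.Defs5

/-!
Definitions for the criterion for all CM fields.
-/

set_option autoImplicit false
set_option linter.unusedSectionVars false

namespace Pool.Agent.Lib.MP_938ce2_ag_u6

/-- `K` is a normal subgroup which contains all stabilizers, the involution `c` preserves none of
its orbits, and the quotient is a dihedral group of order eight or twelve -/
def BlkD (G X : Type) [Group G] [MulAction G X] (c : G) (K : Subgroup G) : Prop :=
  ∃ _ : K.Normal, (∀ x : X, ∀ k ∈ K, k • x ≠ c • x) ∧ (∀ (τ : G) (x : X), τ • x = x → τ ∈ K) ∧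
    ∃ n : ℕ, (n = 4 ∨ n = 6) ∧ Nonempty ((G ⧸ K) ≃* DihedralGroup n)

end Pool.Agent.Lib.MP_938ce2_ag_u6
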