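import Mathlib
import Pool.Agent.Lib.MP_938ce2_ag_u5.Plane
import Pool.Agent.Lib.MP_938ce2_ag_u6.Defs6
import Pool.Agent.Lib.MP_938ce2_ag_u6.DTwoA

/-!
The simple odd modules of dimension two, for all groups.
-/

set_option autoImplicit false
set_option linter.unusedSectionVars false

namespace Pool.Agent.Lib.MP_938ce2_ag_u6

open Finset Module MonoidAlgebra
open Pool.Agent.Lib.MP_938ce2_ag_h67 (sg VV ev mkV Orb red kerM actL actL_mul actL_apply actL_one
  actL_pow ev_single ev_ext ev_add ev_smul finrank_range_add_le)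
open Pool.Agent.Lib.MP_938ce2_ag_h60 (CMType)
open Pool.Agent.Lib.MP_938ce2_ag_u2 (Act OddM badC mem_badC dM dE dH index_eq index_two c_free
  mem_kerM_of_orb eq_one_of_det)
open Pool.Agent.Lib.MP_938ce2_ag_u2.ThreeCAux (mem_ker_actH actL_c actH rho rho_mk rho_inj)
open Pool.Agent.Lib.MP_938ce2_ag_u5

section Dih

/-- recognition of dihedral groups -/
theorem dih_of_gen {Γ : Type} [Group Γ] (n : ℕ) [NeZero n] (b s : Γ) (hb : orderOf b = n)
    (hs : s * s = 1) (hsb : s * b * s = b⁻¹) (hns : s ∉ Subgroup.zpowers b)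
    (hall : ∀ x : Γ, (∃ k : ℕ, x = b ^ k) ∨ ∃ k : ℕ, x = s * b ^ k) :
    Nonempty (Γ ≃* DihedralGroup n) := by
  have hpow : ∀ k : ℕ, b ^ (k : ZMod n).val = b ^ k := by
    intro k
    rw [ZMod.val_natCast, ← hb, pow_mod_orderOf]
  have hadd : ∀ i j : ZMod n, b ^ (i + j).val = b ^ i.val * b ^ j.val := by
    intro i j
    have h1 := hpow (i.val + j.val)
    rw [Nat.cast_add, ZMod.natCast_zmod_val, ZMod.natCast_zmod_val, pow_add] at h1
    exact h1
  have hsub : ∀ i j : ZMod n, b ^ (j - i).val = (b ^ i.val)⁻¹ * b ^ j.val := by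
    intro i j
    have h1 := hadd i (j - i)
    rw [add_sub_cancel] at h1
    rw [h1, inv_mul_cancel_left]
  have hconj : ∀ k : ℕ, s * b ^ k * s = (b ^ k)⁻¹ := by
    intro k
    have hs' : s⁻¹ = s := by
      rw [inv_eq_iff_mul_eq_one]
      exact hs
    have h1 : s * b ^ k * s⁻¹ = (s * b * s⁻¹) ^ k := (conj_pow).symm
    rw [hs', hsb, inv_pow] at h1
    exact h1
  have hmid : ∀ k : ℕ, b ^ k * s = s * (b ^ k)⁻¹ := by
    intro k
    rw [← hconj k, ← mul_assoc, ← mul_assoc, hs, one_mul]
  let f : DihedralGroup n →* Γ :=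
    { toFun := fun x => match x with
        | DihedralGroup.r i => b ^ i.val
        | DihedralGroup.sr i => s * b ^ i.val
      map_one' := by
        rw [DihedralGroup.one_def]
        show b ^ (0 : ZMod n).val = 1
        rw [ZMod.val_zero, pow_zero]
      map_mul' := by
        rintro (i | i) (j | j)
        · rw [DihedralGroup.r_mul_r]
          exact hadd i j
        · rw [DihedralGroup.r_mul_sr]
          show s * b ^ (j - i).val = b ^ i.val * (s * b ^ j.val)
          rw [hsub, ← mul_assoc, ← hmid, mul_assoc]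
        · rw [DihedralGroup.sr_mul_r]
          show s * b ^ (i + j).val = s * b ^ i.val * b ^ j.val
          rw [hadd, mul_assoc]
        · rw [DihedralGroup.sr_mul_sr]
          show b ^ (j - i).val = s * b ^ i.val * (s * b ^ j.val)
          rw [hsub, ← hconj]
          group }
  have hinj : Function.Injective f := by
    rw [injective_iff_map_eq_one]
    rintro (i | i) h
    · have h1 : b ^ i.val = 1 := h
      have h2 := orderOf_dvd_of_pow_eq_one h1
      rw [hb] at h2
      have h3 := Nat.eq_zero_of_dvd_of_lt h2 (ZMod.val_lt i)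
      rw [(ZMod.val_eq_zero i).mp h3]
      rfl
    · exfalso
      have h1 : s * b ^ i.val = 1 := h
      apply hns
      rw [eq_inv_of_mul_eq_one_left h1]
      exact Subgroup.inv_mem _ (Subgroup.npow_mem_zpowers _ _)
  have hsurj : Function.Surjective f := by
    intro x
    rcases hall x with ⟨k, rfl⟩ | ⟨k, rfl⟩
    · exact ⟨DihedralGroup.r (k : ZMod n), hpow k⟩
    · refine ⟨DihedralGroup.sr (k : ZMod n), ?_⟩
      show s * b ^ (k : ZMod n).val = s * b ^ k
      rw [hpow]
  exact ⟨(MulEquiv.ofBijective f ⟨hinj, hsurj⟩).symm⟩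

end Dih

variable {G X : Type} [Group G] [Fintype G] [MulAction G X] [Fintype X] [DecidableEq X] {c : G}
  {g : ℕ} [MulAction.IsPretransitive G X]

/-- the operators commute if the endomorphisms have full dimension two -/
theorem comm_of_two (M : Submodule (MonoidAlgebra ℚ G) (VV ℚ G X))
    (hs : IsSimpleModule (MonoidAlgebra ℚ G) M) (h2 : dM M = 2) (hE : dE M = 2) (σ τ : G) :
    actL M σ * actL M τ = actL M τ * actL M σ := by
  have hfin : Module.Finite ℚ M := Module.Finite.of_injective (M.subtype.restrictScalars ℚ)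
    Subtype.val_injective
  have hfe : Module.Finite ℚ (M →ₗ[MonoidAlgebra ℚ G] M) :=
    Pool.Agent.Lib.MP_938ce2_ag_h85d.finite_hom
  have hnt : Nontrivial M := IsSimpleModule.nontrivial (MonoidAlgebra ℚ G) M
  obtain ⟨v, hv⟩ := exists_ne (0 : M)
  let ψ : (M →ₗ[MonoidAlgebra ℚ G] M) →ₗ[ℚ] M :=
    { toFun := fun φ => φ v
      map_add' := fun φ φ' => rfl
      map_smul' := fun a φ => rfl }
  have hψ : ∀ φ, ψ φ = φ v := fun φ => rfl
  have hinj : Function.Injective ψ := by
    rw [injective_iff_map_eq_zero]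
    intro φ hφ
    rw [hψ] at hφ
    rcases LinearMap.injective_or_eq_zero φ with h1 | h1
    · exact absurd (h1 (hφ.trans (map_zero φ).symm)) hv
    · exact h1
  have hfr : finrank ℚ (M →ₗ[MonoidAlgebra ℚ G] M) = finrank ℚ M := hE.trans h2.symm
  have hsurj : Function.Surjective ψ := by
    rw [← LinearMap.range_eq_top]
    apply Submodule.eq_top_of_finrank_eq
    rw [LinearMap.finrank_range_of_inj hinj]
    exact hfr
  -- the endomorphisms commute
  have hcommE : ∀ φ φ' : M →ₗ[MonoidAlgebra ℚ G] M, φ.comp φ' = φ'.comp φ := by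
    intro φ φ'
    by_cases hsc : ∃ a : ℚ, φ = a • LinearMap.id
    · obtain ⟨a, rfl⟩ := hsc
      apply LinearMap.ext
      intro w
      show a • φ' w = φ' (a • w)
      exact (LinearMap.map_smul_of_tower φ' a w).symm
    · have hli : LinearIndependent ℚ ![v, φ v] := by
        rw [LinearIndependent.pair_iff' hv]
        intro a ha
        apply hsc
        refine ⟨a, hinj ?_⟩
        exact ha.symm
      have hsp : φ' v ∈ Submodule.span ℚ (Set.range ![v, φ v]) := by
        have hcard : Fintype.card (Fin 2) = finrank ℚ M := by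
          rw [Fintype.card_fin]
          exact h2.symm
        have h3 := hli.span_eq_top_of_card_eq_finrank' hcard
        rw [h3]
        exact Submodule.mem_top
      rw [Matrix.range_cons, Matrix.range_cons, Matrix.range_empty, Set.union_empty] at hsp
      obtain ⟨a, b, hab⟩ := Submodule.mem_span_pair.mp hsp
      apply hinj
      show φ (φ' v) = φ' (φ v)
      have e3 : φ' = a • LinearMap.id + b • φ := by
        apply hinj
        exact hab.symm
      rw [e3]
      show φ (a • v + b • φ v) = a • φ v + b • φ (φ v)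
      rw [map_add, LinearMap.map_smul_of_tower, LinearMap.map_smul_of_tower]
  obtain ⟨φσ, hφσ⟩ := hsurj (actL M σ v)
  obtain ⟨φτ, hφτ⟩ := hsurj (actL M τ v)
  have hcl : ∀ (ρ : G) (φ : M →ₗ[MonoidAlgebra ℚ G] M) (w : M), actL M ρ (φ w) = φ (actL M ρ w) := by
    intro ρ φ w
    exact (map_smul φ _ w).symm
  apply LinearMap.ext
  intro w
  obtain ⟨φ, hφ⟩ := hsurj w
  have h3 : w = φ v := hφ.symm
  have e1 : actL M σ v = φσ v := hφσ.symm
  have e2 : actL M τ v = φτ v := hφτ.symm
  show actL M σ (actL M τ w) = actL M τ (actL M σ w)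
  rw [h3, hcl τ, hcl σ, hcl σ, hcl τ, e1, e2, hcl σ, hcl τ, e1, e2]
  have h4 := congrArg (fun f : M →ₗ[MonoidAlgebra ℚ G] M => f v) (hcommE φτ φσ)
  exact congrArg φ h4

/-- modules of dimension two and exponent two -/
theorem plane6 (hA : Act G X c g)
    (M : Submodule (MonoidAlgebra ℚ G) (VV ℚ G X)) (hs : IsSimpleModule (MonoidAlgebra ℚ G) M)
    (hodd : OddM c M) (h2 : dM M = 2) (he : dE M + dM M - dH M = 2) :
    Blk46 G X c (kerM M) := by
  have hm : 0 < dM M := by omega
  have hfin : Module.Finite ℚ M := Module.Finite.of_injective (M.subtype.restrictScalars ℚ)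
    Subtype.val_injective
  obtain ⟨x₀⟩ : Nonempty X := by
    rw [← Fintype.card_pos_iff, hA.card]
    have := hA.pos
    omega
  have hne : Nonempty X := ⟨x₀⟩
  have hle : dH M ≤ dM M := Pool.Agent.Lib.MP_938ce2_ag_h85d.finrank_hom_le M
  have hdE := Pool.Agent.Lib.MP_938ce2_ag_u3.dE_pos M hs
  have hirr := irr_of_simple M hs
  have hcom : ∀ a ∈ AA (actH M), ∀ b ∈ AA (actH M), actH M a * actH M b = actH M b * actH M a :=
    fun a ha b hb => comm_AA (actH M) (BF M) h2 (BF_pos M) (BF_symm M) (BF_inv M) ha hb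
  have hc1 : actH M c = -1 := actL_c hA M hodd
  obtain ⟨b, hb, hcase, hgen⟩ := gen_AA (actH M) (BF M) h2 (BF_pos M) (BF_symm M) (BF_inv M) c hc1
    (exists_nonscalar (actH M) (BF M) h2 (BF_pos M) (BF_symm M) (BF_inv M) hirr)
  have hrel := relIndex_eq M hb hgen
  have hmul := Subgroup.relIndex_mul_index (ker_le_AA M)
  -- the stabilizer
  obtain ⟨s, hsx, hsA, hst, hidx⟩ : ∃ s : G, s • x₀ = x₀ ∧
      (∀ σ : G, σ ∈ AA (actH M) ∨ s⁻¹ * σ ∈ AA (actH M)) ∧
      (∀ τ : G, τ • x₀ = x₀ → τ ∈ AA (actH M) → τ ∈ kerM M) ∧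
      (kerM M).index = (AA (actH M)).index * Nat.card (Orb (kerM M) X) := by
    rcases Nat.lt_or_ge (dH M) (dM M) with h | h
    · have hH1 : dH M = 1 := by omega
      have hE1 : dE M = 1 := by omega
      have hst : ∀ τ : G, τ • x₀ = x₀ → τ ∈ AA (actH M) → τ ∈ kerM M := by
        intro τ hτ hτA
        have h3 := finrank_range_add_le M τ x₀ hτ
        have h5 : finrank ℚ (M →ₗ[MonoidAlgebra ℚ G] VV ℚ G X) = 1 := hH1
        have h6 : finrank ℚ M = 2 := h2
        have h4 : finrank ℚ (LinearMap.range (actL M τ - 1)) ≤ 1 := by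
          omega
        rw [← mem_ker_actH]
        exact eq_one_of_det (actL M τ) (orderOf τ) (orderOf_pos τ)
          (by rw [← actL_pow, pow_orderOf_eq_one, actL_one]) h4 hτA
      have hex : ∃ s : G, s • x₀ = x₀ ∧ s ∉ kerM M := by
        by_contra hcon
        push Not at hcon
        have := Pool.Agent.Lib.MP_938ce2_ag_u2.ThreeAAux.dM_le_dH M x₀ hcon
        omega
      obtain ⟨s, hsx, hsK⟩ := hex
      have hsA : s ∉ AA (actH M) := fun h3 => hsK (hst s hsx h3)
      have hds : LinearMap.det (actH M s) = -1 := (det_pm (actH M) s).resolve_left hsA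
      have hds' : LinearMap.det (actH M s⁻¹) = -1 := by
        rcases det_pm (actH M) s⁻¹ with h3 | h3
        · exfalso
          apply hsA
          have h4 := (AA (actH M)).inv_mem ((mem_AA (actH M) s⁻¹).mpr h3)
          rwa [inv_inv] at h4
        · exact h3
      refine ⟨s, hsx, ?_, hst, ?_⟩
      · intro σ
        rcases det_pm (actH M) σ with h3 | h3
        · exact Or.inl h3
        · right
          rw [mem_AA, map_mul, map_mul, hds', h3]
          norm_num
      · have hA2 : (AA (actH M)).index = 2 := by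
          rw [Subgroup.index_eq_two_iff_exists_notMem_and]
          refine ⟨s, hsA, fun σ => ?_⟩
          rcases det_pm (actH M) σ with h3 | h3
          · exact Or.inr h3
          · left
            rw [mem_AA, map_mul, map_mul, hds, h3]
            norm_num
        rw [hA2]
        exact index_two hA M hm (by omega)
    · have heq : dH M = dM M := le_antisymm hle h
      have htop : AA (actH M) = ⊤ := AA_eq_top (actH M) (BF M) h2 (BF_pos M) (BF_symm M) (BF_inv M)
        (comm_of_two M hs h2 (by omega)) hirr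
      refine ⟨1, one_smul _ _, fun σ => Or.inl (by rw [htop]; exact Subgroup.mem_top σ), ?_, ?_⟩
      · intro τ hτ _
        exact Pool.Agent.Lib.MP_938ce2_ag_u3.stab_ker hA M heq τ x₀ hτ
      · rw [htop, Subgroup.index_top, one_mul]
        exact index_eq hA M hm heq
  have hAi : 0 < (AA (actH M)).index := Nat.pos_of_ne_zero Subgroup.index_ne_zero_of_finite
  have horb : Nat.card (Orb (kerM M) X) = orderOf (b : G ⧸ kerM M) := by
    rw [hrel, hidx, mul_comm] at hmul
    exact (Nat.eq_of_mul_eq_mul_left hAi hmul).symm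
  have hblk : ∀ n, orderOf (b : G ⧸ kerM M) = n → Blk G X c n (kerM M) := fun n hn =>
    ⟨inferInstance, fun x k hk => c_free hA M hodd hm x k hk,
      fun σ hσ => mem_kerM_of_orb M σ hσ, horb.trans hn⟩
  rcases hcase with h4 | ⟨h6, h6'⟩
  · left
    apply hblk
    have h5 : orderOf (b : G ⧸ kerM M) = 2 ^ (1 + 1) := by
      apply orderOf_eq_prime_pow
      · rw [quot_pow_one, pow_one, h4]
        exact neg_one_ne h2
      · rw [quot_pow_one]
        have h7 : actH M b ^ 2 ^ (1 + 1) = (actH M b ^ 2) ^ 2 := by rw [← pow_mul]; rfl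
        rw [h7, h4]
        exact neg_one_sq'
    exact h5
  · right
    refine ⟨hblk 6 ?_, exists_two M hA hodd hm h2 x₀ hcom hst s hsx hsA hb h6 hgen⟩
    apply orderOf_eq_of_pow_and_pow_div_prime (by norm_num)
    · rw [quot_pow_one]
      have h7 : actH M b ^ 6 = (actH M b ^ 3) ^ 2 := by rw [← pow_mul]
      rw [h7, h6]
      exact neg_one_sq'
    · intro p hp hdvd
      rw [Ne, quot_pow_one]
      have h7 : p = 2 ∨ p = 3 := by
        have h8 : p ∣ 2 * 3 := hdvd
        rcases hp.dvd_mul.mp h8 with h9 | h9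
        · exact Or.inl ((Nat.prime_dvd_prime_iff_eq hp Nat.prime_two).mp h9)
        · exact Or.inr ((Nat.prime_dvd_prime_iff_eq hp Nat.prime_three).mp h9)
      rcases h7 with rfl | rfl
      · show ¬ actH M b ^ 3 = 1
        rw [h6]
        exact neg_one_ne h2
      · exact h6'

/-- the operators of a simple module of dimension two with scalar endomorphisms form a dihedral
group of order eight or twelve -/
theorem dih_of_two (hA : Act G X c g)
    (M : Submodule (MonoidAlgebra ℚ G) (VV ℚ G X)) (hs : IsSimpleModule (MonoidAlgebra ℚ G) M)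
    (hodd : OddM c M) (h2 : dM M = 2) (hE : dE M = 1) (hH : dH M = 2) :
    BlkD G X c (kerM M) := by
  have hm : 0 < dM M := by omega
  have hfin : Module.Finite ℚ M := Module.Finite.of_injective (M.subtype.restrictScalars ℚ)
    Subtype.val_injective
  have hirr := irr_of_simple M hs
  have hc1 : actH M c = -1 := actL_c hA M hodd
  obtain ⟨b, hb, hcase, hgen⟩ := gen_AA (actH M) (BF M) h2 (BF_pos M) (BF_symm M) (BF_inv M) c hc1
    (exists_nonscalar (actH M) (BF M) h2 (BF_pos M) (BF_symm M) (BF_inv M) hirr)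
  have hneg : ∀ σ : G, σ ∉ AA (actH M) → actH M σ * actH M σ = 1 := by
    intro σ hσ
    exact iso_neg (BF M) h2 (BF_pos M) (actH M σ) (actH M σ⁻¹) (rho_mul_inv (actH M) σ)
      (BF_inv M σ) (BF_symm M) ((det_pm (actH M) σ).resolve_left hσ)
  obtain ⟨s, hs'⟩ : ∃ s : G, s ∉ AA (actH M) := by
    by_contra hcon
    push Not at hcon
    have hcomm : ∀ σ τ : G, actL M σ * actL M τ = actL M τ * actL M σ := by
      intro σ τ
      obtain ⟨i, hi⟩ := hgen σ (hcon σ)
      obtain ⟨j, hj⟩ := hgen τ (hcon τ)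
      have h3 : actH M σ * actH M τ = actH M τ * actH M σ := by
        rw [hi, hj, ← pow_add, ← pow_add, add_comm]
      exact h3
    have h3 := end_of_comm M hs hcomm
    have h4 : finrank ℚ (M →ₗ[MonoidAlgebra ℚ G] M) = 1 := hE
    have h5 : finrank ℚ M = 2 := h2
    omega
  have hds : LinearMap.det (actH M s) = -1 := (det_pm (actH M) s).resolve_left hs'
  have hs1 := hneg s hs'
  have hprod : ∀ {σ τ : G}, (QuotientGroup.mk σ : G ⧸ kerM M) = QuotientGroup.mk τ ↔
      actH M σ = actH M τ := by
    intro σ τ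
    have h3 := quot_pow_eq M (b := σ) (d := τ) 1
    rw [pow_one, pow_one] at h3
    exact h3
  refine ⟨inferInstance, fun x k hk => c_free hA M hodd hm x k hk,
    fun τ x hτ => Pool.Agent.Lib.MP_938ce2_ag_u3.stab_ker hA M (hH.trans h2.symm) τ x hτ, ?_⟩
  have hdih : ∀ n : ℕ, 0 < n → orderOf (b : G ⧸ kerM M) = n →
      Nonempty ((G ⧸ kerM M) ≃* DihedralGroup n) := by
    intro n hn hord
    have : NeZero n := ⟨hn.ne'⟩
    refine dih_of_gen n (b : G ⧸ kerM M) (s : G ⧸ kerM M) hord ?_ ?_ ?_ ?_
    · rw [← QuotientGroup.mk_mul, ← QuotientGroup.mk_one, hprod, map_mul, map_one]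
      exact hs1
    · rw [← QuotientGroup.mk_mul, ← QuotientGroup.mk_mul, ← QuotientGroup.mk_inv, hprod, map_mul,
        map_mul]
      have hsb : s * b ∉ AA (actH M) := by
        intro h3
        apply hs'
        have h4 := (AA (actH M)).mul_mem h3 ((AA (actH M)).inv_mem hb)
        rwa [mul_inv_cancel_right] at h4
      have h3 := hneg _ hsb
      rw [map_mul] at h3
      have h4 : actH M s * actH M b * actH M s * (actH M b * actH M b⁻¹) = actH M b⁻¹ := by
        rw [← mul_assoc, mul_assoc (actH M s * actH M b) (actH M s) (actH M b), h3, one_mul]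
      rwa [rho_mul_inv, mul_one] at h4
    · intro h3
      obtain ⟨k, hk⟩ := Subgroup.mem_zpowers_iff.mp h3
      rw [← QuotientGroup.mk_zpow, hprod] at hk
      have h4 : s ∈ AA (actH M) := by
        rw [mem_AA, ← hk]
        exact (AA (actH M)).zpow_mem hb k
      exact hs' h4
    · intro x
      obtain ⟨σ, rfl⟩ := QuotientGroup.mk_surjective x
      by_cases hσ : σ ∈ AA (actH M)
      · left
        obtain ⟨k, hk⟩ := hgen σ hσ
        refine ⟨k, ?_⟩
        rw [← QuotientGroup.mk_pow, hprod, map_pow]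
        exact hk
      · right
        have h3 : s * σ ∈ AA (actH M) := by
          rw [mem_AA, map_mul, map_mul, hds, (det_pm (actH M) σ).resolve_left hσ]
          norm_num
        obtain ⟨k, hk⟩ := hgen _ h3
        refine ⟨k, ?_⟩
        rw [← QuotientGroup.mk_pow, ← QuotientGroup.mk_mul, hprod, map_mul, map_pow, ← hk, map_mul,
          ← mul_assoc, hs1, one_mul]
  rcases hcase with h4 | ⟨h6, h6'⟩
  · refine ⟨4, Or.inl rfl, hdih 4 (by norm_num) ?_⟩
    have h5 : orderOf (b : G ⧸ kerM M) = 2 ^ (1 + 1) := by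
      apply orderOf_eq_prime_pow
      · rw [quot_pow_one, pow_one, h4]
        exact neg_one_ne h2
      · rw [quot_pow_one]
        have h7 : actH M b ^ 2 ^ (1 + 1) = (actH M b ^ 2) ^ 2 := by rw [← pow_mul]; rfl
        rw [h7, h4]
        exact neg_one_sq'
    exact h5
  · refine ⟨6, Or.inr rfl, hdih 6 (by norm_num) ?_⟩
    apply orderOf_eq_of_pow_and_pow_div_prime (by norm_num)
    · rw [quot_pow_one]
      have h7 : actH M b ^ 6 = (actH M b ^ 3) ^ 2 := by rw [← pow_mul]
      rw [h7, h6]
      exact neg_one_sq'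
    · intro p hp hdvd
      rw [Ne, quot_pow_one]
      have h7 : p = 2 ∨ p = 3 := by
        have h8 : p ∣ 2 * 3 := hdvd
        rcases hp.dvd_mul.mp h8 with h9 | h9
        · exact Or.inl ((Nat.prime_dvd_prime_iff_eq hp Nat.prime_two).mp h9)
        · exact Or.inr ((Nat.prime_dvd_prime_iff_eq hp Nat.prime_three).mp h9)
      rcases h7 with rfl | rfl
      · show ¬ actH M b ^ 3 = 1
        rw [h6]
        exact neg_one_ne h2
      · exact h6'

end Pool.Agent.Lib.MP_938ce2_ag_u6
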