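import Mathlib
import Pool.Agent.Lib.MP_938ce2_ag_u5.Main5
import Pool.Agent.Lib.MP_938ce2_ag_u6.Defs6
import Pool.Agent.Lib.MP_938ce2_ag_u6.Plane6
import Pool.Agent.Lib.MP_938ce2_ag_u6.Classes6

/-!
The upper bound for all `G`-sets.
-/

set_option autoImplicit false
set_option linter.unusedSectionVars false

namespace Pool.Agent.Lib.MP_938ce2_ag_u6

open Finset Module MonoidAlgebra
open Pool.Agent.Lib.MP_938ce2_ag_h67 (sg VV ev mkV Orb red kerM)
open Pool.Agent.Lib.MP_938ce2_ag_h60 (CMType)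
open Pool.Agent.Lib.MP_938ce2_ag_u2 (Act OddM badC mem_badC dM dE dH)
open Pool.Agent.Lib.MP_938ce2_ag_h60 (Nondeg GeneratedByDivisors generatedByDivisors_of_nondeg)
open Pool.Agent.Lib.MP_938ce2_ag_h85d (finrank_hom_le finite_hom)
open Pool.Agent.Lib.MP_938ce2_ag_u2 (exists_simple_of_deg odd_of_iso index_eq index_two c_free
  mem_kerM_of_orb)
open Pool.Agent.Lib.MP_938ce2_ag_u3 (dM_pos dE_pos odd_numbers ker_count triv_orb)
open Pool.Agent.Lib.MP_938ce2_ag_u4 (sharp_bad sharp)
open Pool.Agent.Lib.MP_938ce2_ag_u5 (Blk Blk46 blk_one)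
open Pool.Agent.Lib.MP_938ce2_ag_K (K_two)

theorem main_G6 : ∃ C : ℝ, 0 < C ∧ ∀ ε : ℝ, 0 < ε → ∃ g₀ : ℕ, ∀ (G X : Type) [Group G] [Fintype G]
    [MulAction G X] [Fintype X] [MulAction.IsPretransitive G X] (c : G) (g : ℕ),
    Act G X c g → g₀ ≤ g → ∀ (s t u : Finset (Subgroup G)),
    (∀ K, Blk G X c 2 K → K ∈ s) → (∀ K, Blk46 G X c K → K ∈ t) → (∀ K, BlkD G X c K → K ∈ u) →
    (Nat.card {Φ : Finset X // CMType c Φ ∧ ¬ GeneratedByDivisors G Φ} : ℝ)
      ≤ (ε + C * (s.card / √g + t.card / g + u.card * (Real.log g / g))) * 2 ^ g := by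
  obtain ⟨C₀, hC0, g₁, hC⟩ := sharp
  obtain ⟨C₂, hC₂0, hC₂⟩ := K_two
  refine ⟨12 * C₀ + 6 * C₂, by positivity, ?_⟩
  intro ε hε
  obtain ⟨g₂, hthree⟩ := dim_three_all ε hε
  refine ⟨max (max g₁ g₂) 2, ?_⟩
  intro G X _ _ _ _ _ c g hA hg s t u hs ht hu
  classical
  have hg1 : g₁ ≤ g := ((le_max_left _ _).trans (le_max_left _ _)).trans hg
  have hg2 : g₂ ≤ g := ((le_max_right _ _).trans (le_max_left _ _)).trans hg
  have hg3 : 2 ≤ g := (le_max_right _ _).trans hg
  have hne : Nonempty X := by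
    rw [← Fintype.card_pos_iff, hA.card]
    have := hA.pos
    omega
  obtain ⟨ι, _, S, k, hS, hodd, hall, hinj, hk1, hkδ, hsum⟩ := odd_numbers hA
  have hgR : (1 : ℝ) ≤ g := by exact_mod_cast hA.pos
  have hg0 : (0 : ℝ) < g := by linarith
  have hlog0 : 0 ≤ Real.log g := Real.log_nonneg hgR
  let N : ι → ℝ := fun i => ((badC c (S i)).card : ℝ) / 2 ^ g
  have hN0 : ∀ i, 0 ≤ N i := fun i => by positivity
  have hM1 : ∀ i, 1 ≤ dM (S i) := fun i => dM_pos (S i) (hS i)
  have hE1 : ∀ i, 1 ≤ dE (S i) := fun i => dE_pos (S i) (hS i)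
  have hHM : ∀ i, dH (S i) ≤ dM (S i) := fun i => finrank_hom_le (S i)
  have hH1 : ∀ i, 1 ≤ dH (S i) := fun i => by
    rw [hkδ i]
    exact Nat.mul_pos (hk1 i) (hE1 i)
  have hterm : ∀ i, k i * dM (S i) ≤ g := fun i =>
    (Finset.single_le_sum (f := fun i => k i * dM (S i)) (fun _ _ => Nat.zero_le _)
      (Finset.mem_univ i)).trans hsum
  -- squares of the dimensions for exponent at most two
  have hsq : ∀ i, dE (S i) + dM (S i) - dH (S i) ≤ 2 →
      dM (S i) * dM (S i) ≤ 2 * (k i * dM (S i)) := by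
    intro i hi
    have h1 := hkδ i
    have h2 := hHM i
    have h3 := hM1 i
    have h4 := hE1 i
    have h5 := hH1 i
    have h6 : dM (S i) ≤ 2 * k i := by
      rcases Nat.lt_or_ge (dH (S i)) (dM (S i)) with h | h
      · have h7 : dE (S i) = 1 := by omega
        rw [h7, mul_one] at h1
        omega
      · have h7 : dE (S i) ≤ 2 := by omega
        have h8 : dH (S i) = dM (S i) := le_antisymm h2 h
        calc dM (S i) = k i * dE (S i) := by rw [← h1, h8]
          _ ≤ k i * 2 := Nat.mul_le_mul_left _ h7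
          _ = 2 * k i := by ring
    calc dM (S i) * dM (S i) ≤ (2 * k i) * dM (S i) := Nat.mul_le_mul_right _ h6
      _ = 2 * (k i * dM (S i)) := by ring
  have hNsharp : ∀ i, dE (S i) + dM (S i) - dH (S i) ≤ 2 →
      N i ≤ C₀ * √(dM (S i) * (1 + Real.log (dM (S i))) / g) ^ (dE (S i) + dM (S i) - dH (S i)) := by
    intro i hi
    have h1 := hsq i hi
    have h2 := hterm i
    exact sharp_bad hC hg1 hA (S i) (hS i) (hodd i) (hHM i) hi (by omega)
  -- the classes
  obtain ⟨pI, hpI⟩ : ∃ p : ι → Prop, ∀ i, p i ↔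
      (dH (S i) = dM (S i) ∧ dM (S i) = 1) := ⟨_, fun _ => Iff.rfl⟩
  obtain ⟨pT, hpT⟩ : ∃ p : ι → Prop, ∀ i, p i ↔
      (dE (S i) + dM (S i) - dH (S i) = 2 ∧ dM (S i) = 2) :=
    ⟨_, fun _ => Iff.rfl⟩
  obtain ⟨pW, hpW⟩ : ∃ p : ι → Prop, ∀ i, p i ↔
      (dM (S i) = 2 ∧ dE (S i) = 1 ∧ dH (S i) = 2) := ⟨_, fun _ => Iff.rfl⟩
  -- dimension at least three
  have hVsum : ∑ i : {i // 3 ≤ dM (S i)}, N i.1 ≤ ε :=
    hthree G X c g hA hg2 ι S k hS hodd hk1 hkδ hsum
  -- class I
  have hIsum : ∑ i ∈ Finset.univ.filter pI, N i ≤ C₀ * (s.card / √g) := by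
    have h1 : ∀ i ∈ Finset.univ.filter pI, N i ≤ C₀ * (1 / √g) := by
      intro i hi
      have h := (hpI i).mp (Finset.mem_filter.mp hi).2
      have hE : dE (S i) = 1 := by
        have h2 := hkδ i
        rw [h.1, h.2] at h2
        exact Nat.dvd_one.mp ⟨k i, by rw [mul_comm]; exact h2⟩
      have h3 : dE (S i) + dM (S i) - dH (S i) = 1 := by
        rw [h.1, hE]
        omega
      have h4 := hNsharp i (by omega)
      rw [h3, pow_one, h.2, Nat.cast_one, Real.log_one, add_zero, mul_one,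
        Real.sqrt_div zero_le_one, Real.sqrt_one] at h4
      exact h4
    have h2 : (Finset.univ.filter pI).card ≤ s.card := by
      refine Finset.card_le_card_of_injOn (fun i => kerM (S i)) ?_ ?_
      · intro i hi
        have h := (hpI i).mp (Finset.mem_filter.mp (Finset.mem_coe.mp hi)).2
        exact hs _ (blk_one hA (S i) (hodd i) h.2)
      · intro i hi j hj hij
        have hi' := (hpI i).mp (Finset.mem_filter.mp (Finset.mem_coe.mp hi)).2
        have h4 := ker_count hA S hS hodd hinj (kerM (S i))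
        rw [(triv_orb hA (S i) (hodd i) hi'.2).1] at h4
        have h5 : Nat.card {j // kerM (S j) = kerM (S i)} ≤ 1 := by omega
        rw [Nat.card_eq_fintype_card, Fintype.card_le_one_iff] at h5
        have h6 := h5 ⟨i, rfl⟩ ⟨j, hij.symm⟩
        exact congrArg Subtype.val h6
    calc ∑ i ∈ Finset.univ.filter pI, N i ≤ ∑ _i ∈ Finset.univ.filter pI, C₀ * (1 / √g) :=
          Finset.sum_le_sum h1
      _ = (Finset.univ.filter pI).card * (C₀ * (1 / √g)) := by
          rw [Finset.sum_const, nsmul_eq_mul]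
      _ ≤ s.card * (C₀ * (1 / √g)) := by
          apply mul_le_mul_of_nonneg_right (by exact_mod_cast h2) (by positivity)
      _ = C₀ * (s.card / √g) := by ring
  -- a sum over a class with few modules for each kernel
  have hker : ∀ (p : ι → Prop) (v : Finset (Subgroup G)) (n : ℕ) (B : ℝ), 0 ≤ B →
      (∀ i, p i → N i ≤ B) → (∀ i, p i → kerM (S i) ∈ v) →
      (∀ i, p i → Nat.card (Orb (kerM (S i)) X) ≤ 2 * n) →
      ∑ i ∈ Finset.univ.filter p, N i ≤ v.card * (n * B) := by
    intro p v n B hB0 hB hv hcard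
    have h1 : ∀ i ∈ Finset.univ.filter p, kerM (S i) ∈ v := fun i hi =>
      hv i (Finset.mem_filter.mp hi).2
    rw [← Finset.sum_fiberwise_of_maps_to h1]
    have h3 : ∀ K ∈ v, ∑ i ∈ (Finset.univ.filter p).filter (fun i => kerM (S i) = K), N i
        ≤ n * B := by
      intro K _
      by_cases hem : ((Finset.univ.filter p).filter (fun i => kerM (S i) = K)).Nonempty
      · obtain ⟨j, hj⟩ := hem
        have hj0 := Finset.mem_filter.mp hj
        have hj1 := (Finset.mem_filter.mp hj0.1).2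
        have hj2 := hcard j hj1
        rw [hj0.2] at hj2
        have h4 := ker_count hA S hS hodd hinj K
        have h5 : ((Finset.univ.filter p).filter (fun i => kerM (S i) = K)).card
            ≤ Nat.card {i // kerM (S i) = K} := by
          rw [Nat.card_eq_fintype_card, Fintype.card_subtype]
          refine Finset.card_le_card fun i hi => ?_
          rw [Finset.mem_filter]
          exact ⟨Finset.mem_univ _, (Finset.mem_filter.mp hi).2⟩
        have h6 : (((Finset.univ.filter p).filter (fun i => kerM (S i) = K)).card : ℝ) ≤ n := by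
          exact_mod_cast (show _ ≤ n by omega)
        calc _ ≤ ∑ _i ∈ (Finset.univ.filter p).filter (fun i => kerM (S i) = K), B :=
              Finset.sum_le_sum fun i hi =>
                hB i (Finset.mem_filter.mp (Finset.mem_filter.mp hi).1).2
          _ = ((Finset.univ.filter p).filter (fun i => kerM (S i) = K)).card * B := by
              rw [Finset.sum_const, nsmul_eq_mul]
          _ ≤ n * B := mul_le_mul_of_nonneg_right h6 hB0
      · rw [Finset.not_nonempty_iff_eq_empty.mp hem, Finset.sum_empty]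
        positivity
    calc _ ≤ ∑ _K ∈ v, n * B := Finset.sum_le_sum h3
      _ = v.card * (n * B) := by
          rw [Finset.sum_const, nsmul_eq_mul]
  -- class T
  have hTsum : ∑ i ∈ Finset.univ.filter pT, N i ≤ t.card * ((3 : ℕ) * (C₀ * 4 / g)) := by
    apply hker pT t 3 (C₀ * 4 / g) (by positivity)
    · intro i hi
      have h := (hpT i).mp hi
      have h4 := hNsharp i h.1.le
      have h5 : Real.log ((2 : ℕ) : ℝ) ≤ 1 := by
        have := Real.log_two_lt_d9
        push_cast
        linarith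
      have h6 : 0 ≤ Real.log ((2 : ℕ) : ℝ) := Real.log_nonneg (by norm_num)
      rw [h.1, h.2, Real.sq_sqrt (by positivity)] at h4
      refine h4.trans ?_
      calc C₀ * (((2 : ℕ) : ℝ) * (1 + Real.log ((2 : ℕ) : ℝ)) / g)
          = C₀ * (((2 : ℕ) : ℝ) * (1 + Real.log ((2 : ℕ) : ℝ))) / g := by ring
        _ ≤ C₀ * 4 / g := by
            apply div_le_div_of_nonneg_right _ hg0.le
            apply mul_le_mul_of_nonneg_left _ hC0.le
            push_cast at h5 ⊢
            linarith
    · intro i hi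
      have h := (hpT i).mp hi
      exact ht _ (plane6 hA (S i) (hS i) (hodd i) h.2 h.1)
    · intro i hi
      have h := (hpT i).mp hi
      rcases plane6 hA (S i) (hS i) (hodd i) h.2 h.1 with h | h
      · rw [h.2.2.2]; norm_num
      · rw [h.1.2.2.2]
  -- class W
  have hWsum : ∑ i ∈ Finset.univ.filter pW, N i
      ≤ u.card * ((6 : ℕ) * (C₂ * (Real.log g / g))) := by
    apply hker pW u 6 (C₂ * (Real.log g / g)) (by positivity)
    · intro i hi
      have h := (hpW i).mp hi
      exact hC₂ G X c g hA hg3 (S i) (hS i) (hodd i) h.2.1 (h.2.2.trans h.1.symm) h.1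
    · intro i hi
      have h := (hpW i).mp hi
      exact hu _ (dih_of_two hA (S i) (hS i) (hodd i) h.1 h.2.1 h.2.2)
    · intro i hi
      have h := (hpW i).mp hi
      obtain ⟨_, _, _, n, hn, ⟨e⟩⟩ := dih_of_two hA (S i) (hS i) (hodd i) h.1 h.2.1 h.2.2
      have h1 := index_eq hA (S i) (by omega) (h.2.2.trans h.1.symm)
      rw [← h1, Subgroup.index_eq_card, Nat.card_congr e.toEquiv, DihedralGroup.nat_card]
      rcases hn with rfl | rfl <;> norm_num
  -- all classes
  have hcast : ∀ (p : ι → Prop) [DecidablePred p],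
      ∑ i ∈ Finset.univ.filter p, N i = ∑ i : {i // p i}, N i.1 := by
    intro p _
    rw [Finset.sum_subtype (Finset.univ.filter p) (p := p) (fun i => by simp)]
  have hcases : ∀ i, pI i ∨ pT i ∨ pW i ∨ 3 ≤ dM (S i) := by
    intro i
    rw [hpI, hpT, hpW]
    have h1 := hHM i
    have h2 := hM1 i
    have h3 := hE1 i
    have h4 := hH1 i
    have h5 := hkδ i
    have h6 : dE (S i) ≤ dH (S i) := by
      rw [h5]
      exact Nat.le_mul_of_pos_left _ (hk1 i)
    omega
  have htot : ∑ i, N i ≤ ∑ i ∈ Finset.univ.filter pI, N i + ∑ i ∈ Finset.univ.filter pT, N i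
      + ∑ i ∈ Finset.univ.filter pW, N i
      + ∑ i ∈ Finset.univ.filter (fun i => 3 ≤ dM (S i)), N i := by
    simp only [Finset.sum_filter, ← Finset.sum_add_distrib]
    refine Finset.sum_le_sum fun i _ => ?_
    have h0 := hN0 i
    have hn : ∀ p : Prop, ∀ _ : Decidable p, 0 ≤ (if p then N i else 0) := by
      intro p _
      split_ifs <;> [exact h0; exact le_refl _]
    have h1 := hn (pI i) inferInstance
    have h2 := hn (pT i) inferInstance
    have h3 := hn (pW i) inferInstance
    have h5 := hn (3 ≤ dM (S i)) inferInstance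
    rcases hcases i with h | h | h | h
    · have h8 : (if pI i then N i else 0) = N i := if_pos h
      linarith
    · have h8 : (if pT i then N i else 0) = N i := if_pos h
      linarith
    · have h8 : (if pW i then N i else 0) = N i := if_pos h
      linarith
    · have h8 : (if 3 ≤ dM (S i) then N i else 0) = N i := if_pos h
      linarith
  have hfinal : ∑ i, N i
      ≤ ε + (12 * C₀ + 6 * C₂) * (s.card / √g + t.card / g + u.card * (Real.log g / g)) := by
    rw [hcast (fun i => 3 ≤ dM (S i))] at htot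
    have h1 : 0 ≤ C₀ * ((s.card : ℝ) / √g) := by positivity
    have h2 : 0 ≤ C₂ * ((s.card : ℝ) / √g) := by positivity
    have h3 : 0 ≤ C₂ * ((t.card : ℝ) / g) := by positivity
    have h4 : 0 ≤ C₀ * ((u.card : ℝ) * (Real.log g / g)) := by positivity
    have h5 : (t.card : ℝ) * ((3 : ℕ) * (C₀ * 4 / g)) = 12 * (C₀ * (t.card / g)) := by
      push_cast
      ring
    have h6 : (u.card : ℝ) * ((6 : ℕ) * (C₂ * (Real.log g / g)))
        = 6 * (C₂ * (u.card * (Real.log g / g))) := by
      push_cast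
      ring
    rw [h5] at hTsum
    rw [h6] at hWsum
    have h7 : (12 * C₀ + 6 * C₂) * ((s.card : ℝ) / √g + t.card / g + u.card * (Real.log g / g))
        = 12 * (C₀ * (s.card / √g)) + 6 * (C₂ * (s.card / √g)) + 12 * (C₀ * (t.card / g))
          + 6 * (C₂ * (t.card / g)) + 12 * (C₀ * (u.card * (Real.log g / g)))
          + 6 * (C₂ * (u.card * (Real.log g / g))) := by ring
    rw [h7]
    linarith
  -- the cover
  have hcover : (Finset.univ.filter fun Φ : Finset X => CMType c Φ ∧ ¬ GeneratedByDivisors G Φ)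
      ⊆ (Finset.univ : Finset ι).biUnion fun i => badC c (S i) := by
    intro Φ hΦ
    obtain ⟨hcm, hngd⟩ := (Finset.mem_filter.mp hΦ).2
    have hnd : ¬ Nondeg c Φ := fun h =>
      hngd (generatedByDivisors_of_nondeg hA.comm hA.sq hA.free hcm h)
    obtain ⟨M, hM, hMo, hv⟩ := exists_simple_of_deg hA hcm hnd
    obtain ⟨i, ⟨e⟩⟩ := hall M hM hMo
    rw [Finset.mem_biUnion]
    exact ⟨i, Finset.mem_univ _, (mem_badC c (S i) Φ).mpr ⟨hcm, M, ⟨e.symm⟩, hv⟩⟩
  rw [Nat.card_eq_fintype_card, Fintype.card_subtype]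
  have h1 : ((Finset.univ.filter fun Φ : Finset X =>
      CMType c Φ ∧ ¬ GeneratedByDivisors G Φ).card : ℝ) ≤ ∑ i, ((badC c (S i)).card : ℝ) := by
    exact_mod_cast (Finset.card_le_card hcover).trans Finset.card_biUnion_le
  have h2 : ∑ i, ((badC c (S i)).card : ℝ) = (∑ i, N i) * 2 ^ g := by
    rw [Finset.sum_mul]
    refine Finset.sum_congr rfl fun i _ => ?_
    show _ = ((badC c (S i)).card : ℝ) / 2 ^ g * 2 ^ g
    rw [div_mul_cancel₀]
    positivity
  calc _ ≤ _ := h1
    _ = (∑ i, N i) * 2 ^ g := h2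
    _ ≤ _ := mul_le_mul_of_nonneg_right hfinal (by positivity)

end Pool.Agent.Lib.MP_938ce2_ag_u6
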