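import Mathlib
import Pool.Agent.Lib.MP_938ce2_ag_u5.Final5
import Pool.Agent.Lib.MP_938ce2_ag_u6.Main6
import Pool.Agent.Lib.MP_938ce2_ag_L4.FD3

/-!
The upper bound for the share of the exceptional CM types, for every CM field.
-/

set_option autoImplicit false
set_option linter.unusedSectionVars false

namespace Pool.Agent.Lib.MP_938ce2_ag_u6

open Finset Module NumberField
open Pool.Agent.Lib.MP_938ce2_ag_h67 (Orb)
open Pool.Agent.Lib.MP_938ce2_ag_h60 (CMType GeneratedByDivisors conj conj_comm conj_mul_self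
  conj_smul_ne card_emb exists_smul_emb)
open Pool.Agent.Lib.MP_938ce2_ag_u2.H7
open Pool.Agent.Lib.MP_938ce2_ag_u2 (Act card_cm_all)
open Pool.Agent.Lib.MP_938ce2_ag_L3 (ImagQuad SmallCM share meas)
open Pool.Agent.Lib.MP_938ce2_ag_L4 (DihedralCM meas3)
open Pool.Agent.Lib.MP_938ce2_ag_u5

section

variable {L E : Type} [Field L] [NumberField L] [IsGalois ℚ L] [Field E] [NumberField E]

/-- the subfield of `E` fixed by a normal subgroup which contains the stabilizers -/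
theorem pullF_equiv (x0 : E →ₐ[ℚ] L) (K : Subgroup (L ≃ₐ[ℚ] L))
    (hst : ∀ τ : L ≃ₐ[ℚ] L, τ • x0 = x0 → τ ∈ K) :
    Nonempty (pullF x0 K ≃ₐ[ℚ] IntermediateField.fixedField K) := by
  have hmap : (pullF x0 K).map x0 = IntermediateField.fixedField K := by
    rw [map_pullF]
    apply inf_eq_left.mpr
    have h1 : x0.fieldRange.fixingSubgroup ≤ K := fun ρ hρ => hst ρ (mem_fixing_range.1 hρ)
    have h2 : IntermediateField.fixedField K
        ≤ IntermediateField.fixedField x0.fieldRange.fixingSubgroup :=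
      IntermediateField.fixedField_antitone h1
    rwa [IsGalois.fixedField_fixingSubgroup] at h2
  exact ⟨((pullF x0 K).equivMap x0).trans (IntermediateField.equivOfEq hmap)⟩

variable [IsCMField L] [IsCMField E]

theorem dih_of_blk (x0 : E →ₐ[ℚ] L) (K : Subgroup (L ≃ₐ[ℚ] L))
    (h : BlkD (L ≃ₐ[ℚ] L) (E →ₐ[ℚ] L) (conj L) K) : pullF x0 K ∈ DihedralCM E := by
  obtain ⟨hn, h1, h2, n, hn46, ⟨e⟩⟩ := h
  obtain ⟨f⟩ := pullF_equiv x0 K (fun τ hτ => h2 τ x0 hτ)
  have hG : IsGalois ℚ (IntermediateField.fixedField K) :=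
    IsGalois.of_fixedField_normal_subgroup K
  have hGF : IsGalois ℚ (pullF x0 K) := IsGalois.of_algEquiv f.symm
  refine ⟨isCMField_pullF x0 K (h1 x0), hGF, ?_⟩
  have e2 : (pullF x0 K ≃ₐ[ℚ] pullF x0 K) ≃* DihedralGroup n :=
    (AlgEquiv.autCongr f).trans ((IsGalois.normalAutEquivQuotient K).symm.trans e)
  rcases hn46 with rfl | rfl
  · exact Or.inl ⟨e2⟩
  · exact Or.inr ⟨e2⟩

end

theorem upper_field3 : ∃ C : ℝ, 0 < C ∧ ∀ η : ℝ, 0 < η → ∃ g₀ : ℕ, ∀ (L E : Type) [Field L]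
    [NumberField L] [IsGalois ℚ L] [IsCMField L] [Field E] [NumberField E] [IsCMField E]
    [Nonempty (E →ₐ[ℚ] L)], g₀ ≤ finrank ℚ E → share L E ≤ η + C * meas3 E := by
  obtain ⟨C, hC0, hC⟩ := main_G6
  refine ⟨C, hC0, ?_⟩
  intro η hη
  obtain ⟨g₀, h⟩ := hC η hη
  refine ⟨2 * g₀, ?_⟩
  intro L E _ _ _ _ _ _ _ _ hge
  classical
  obtain ⟨g, hg, hg1⟩ := even_finrank E
  have hA := act_emb L E g hg hg1
  obtain ⟨x0⟩ := (inferInstance : Nonempty (E →ₐ[ℚ] L))
  obtain ⟨s, hs, hs'⟩ := card_le_of_inj (E := E) x0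
    (fun K => Blk (L ≃ₐ[ℚ] L) (E →ₐ[ℚ] L) (conj L) 2 K) (ImagQuad E)
    (fun K hK => imag_of_blk x0 K hK) (fun K hK => ⟨hK.1, hK.2.2.1⟩)
  obtain ⟨t, ht, ht'⟩ := card_le_of_inj (E := E) x0
    (fun K => Blk46 (L ≃ₐ[ℚ] L) (E →ₐ[ℚ] L) (conj L) K) (SmallCM E)
    (fun K hK => small_of_blk x0 K hK) (fun K hK => by
      rcases hK with hK | ⟨hK, -⟩
      · exact ⟨hK.1, hK.2.2.1⟩
      · exact ⟨hK.1, hK.2.2.1⟩)
  obtain ⟨u, hu, hu'⟩ := card_le_of_inj (E := E) x0
    (fun K => BlkD (L ≃ₐ[ℚ] L) (E →ₐ[ℚ] L) (conj L) K) (DihedralCM E)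
    (fun K hK => dih_of_blk x0 K hK) (fun K hK => by
      obtain ⟨hn, -, h2, -⟩ := hK
      refine ⟨hn, fun σ hσ => ?_⟩
      obtain ⟨k, hk, hkx⟩ := hσ x0
      have h3 : k⁻¹ * σ ∈ K := by
        apply h2 _ x0
        rw [mul_smul, hkx, inv_smul_smul]
      have h4 := K.mul_mem hk h3
      rwa [mul_inv_cancel_left] at h4)
  have h1 := h (L ≃ₐ[ℚ] L) (E →ₐ[ℚ] L) (conj L) g hA (by omega) s t u hs ht hu
  have h2 := card_cm_all hA
  have hgR : (0 : ℝ) < g := by exact_mod_cast hg1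
  have hgE : (finrank ℚ E : ℝ) / 2 = g := by
    rw [hg]
    push_cast
    ring
  have hlog : Real.log g ≤ Real.log (finrank ℚ E) := by
    apply Real.log_le_log hgR
    rw [hg]
    push_cast
    linarith
  unfold share meas3 meas
  rw [h2, hgE]
  push_cast
  rw [div_le_iff₀ (by positivity)]
  refine h1.trans ?_
  apply mul_le_mul_of_nonneg_right _ (by positivity)
  have h3 : (s.card : ℝ) / √g ≤ ((ImagQuad E).ncard : ℝ) / √g :=
    div_le_div_of_nonneg_right (by exact_mod_cast hs') (by positivity)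
  have h4 : (t.card : ℝ) / g ≤ ((SmallCM E).ncard : ℝ) / g :=
    div_le_div_of_nonneg_right (by exact_mod_cast ht') (by positivity)
  have h5 : (u.card : ℝ) * (Real.log g / g)
      ≤ ((DihedralCM E).ncard : ℝ) * Real.log (finrank ℚ E) / g := by
    rw [mul_div_assoc]
    apply mul_le_mul (by exact_mod_cast hu') _ _ (Nat.cast_nonneg _)
    · exact div_le_div_of_nonneg_right hlog hgR.le
    · exact div_nonneg (Real.log_nonneg (by exact_mod_cast hg1)) hgR.le
  have h6 := mul_le_mul_of_nonneg_left (add_le_add (add_le_add h3 h4) h5) hC0.le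
  linarith

end Pool.Agent.Lib.MP_938ce2_ag_u6
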